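import Mathlib

set_option autoImplicit false
set_option maxHeartbeats 4000000

open MeasureTheory Set Filter Topology
open scoped ENNReal NNReal

namespace Pool.Agent.H934R3.NP

/-! NP-PROJECT (helper934): S05145, the 1/6 conjecture for the Neumann-Poincare operator. -/

abbrev E := EuclideanSpace ℝ (Fin 3)
abbrev P2 := EuclideanSpace ℝ (Fin 2)

/-- the hypotheses on `g` in the frozen statement, except simple connectivity -/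
structure Surf (g : E → ℝ) : Prop where
  smooth : ContDiff ℝ ((⊤ : ℕ∞) : WithTop ℕ∞) g
  reg : ∀ x, g x = 0 → gradient g x ≠ 0
  pos : ∃ R : ℝ, ∀ x, R ≤ ‖x‖ → 0 < g x
  ne : Set.Nonempty {x | g x = 0}

/-- the surface -/
def Sg (g : E → ℝ) : Set E := {x | g x = 0}
/-- the bounded domain -/
def Om (g : E → ℝ) : Set E := {x | g x < 0}

/-- the normalised surface measure of the frozen statement -/
noncomputable def sig (g : E → ℝ) : Measure E :=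
  (ENNReal.ofReal (4 * Real.pi) / Measure.hausdorffMeasure 2 (Metric.sphere (0 : E) 1)) •
    (Measure.hausdorffMeasure 2).restrict {x | g x = 0}

/-- outward unit normal -/
noncomputable def nu (g : E → ℝ) (x : E) : E := ‖gradient g x‖⁻¹ • gradient g x

/-- fundamental solution -/
noncomputable def G (z : E) : ℝ := 1 / (4 * Real.pi * ‖z‖)
/-- its gradient -/
noncomputable def dG (z : E) : E := (-(1 / (4 * Real.pi * ‖z‖ ^ 3))) • z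
/-- regularised fundamental solution -/
noncomputable def Ge (ε : ℝ) (z : E) : ℝ := 1 / (4 * Real.pi * Real.sqrt (‖z‖ ^ 2 + ε ^ 2))
/-- its gradient -/
noncomputable def dGe (ε : ℝ) (z : E) : E :=
  (-(1 / (4 * Real.pi * Real.sqrt (‖z‖ ^ 2 + ε ^ 2) ^ 3))) • z
/-- minus its Laplacian -/
noncomputable def De (ε : ℝ) (z : E) : ℝ :=
  3 * ε ^ 2 / (4 * Real.pi * Real.sqrt (‖z‖ ^ 2 + ε ^ 2) ^ 5)

/-- kernel of `K*` (as in the frozen statement) -/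
noncomputable def ks (g : E → ℝ) (x y : E) : ℝ :=
  (1 / (4 * Real.pi)) * (inner ℝ (x - y) (gradient g x) / (‖gradient g x‖ * ‖x - y‖ ^ 3))

/-- the point `(u, f u)` of the graph of `f` -/
noncomputable def Gr (f : P2 → ℝ) (u : P2) : E := !₂[u 0, u 1, f u]
/-- projection to the first two coordinates -/
noncomputable def pr (z : E) : P2 := !₂[z 0, z 1]

/-- `T` is the integral operator on `L²(μ)` with kernel `k` -/
def Rep (μ : Measure E) (k : E → E → ℝ) (T : Lp ℝ 2 μ →L[ℝ] Lp ℝ 2 μ) : Prop :=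
  ∀ φ : Lp ℝ 2 μ, ∀ᵐ x ∂μ, T φ x = ∫ y, k x y * φ y ∂μ

/-- gradient of the single layer potential of `φ` -/
noncomputable def uu (μ : Measure E) (φ : E → ℝ) (z : E) : E := ∫ y, φ y • dG (z - y) ∂μ

/-! ### Part A: Gauss-Green -/

/-- A1: area formula for the Hausdorff measure on graphs -/
def TaskA1 : Prop := ∃ c : ℝ, 0 < c ∧ ∀ f : P2 → ℝ, ContDiff ℝ 1 f → ∀ h : E → ℝ, Continuous h →
  HasCompactSupport h →
  ∫ z in {z : E | z 2 = f (pr z)}, h z ∂(Measure.hausdorffMeasure 2) =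
    c * ∫ u : P2, h (Gr f u) * Real.sqrt (1 + ‖gradient f u‖ ^ 2)

/-- A2: divergence theorem under a graph -/
def TaskA2 : Prop := ∀ f : P2 → ℝ, ContDiff ℝ 1 f → ∀ F : E → ℝ, ContDiff ℝ 1 F →
  HasCompactSupport F → ∀ v : E,
  ∫ z in {z : E | z 2 < f (pr z)}, fderiv ℝ F z v =
    ∫ u : P2, F (Gr f u) * (v 2 - fderiv ℝ f u (pr v))

/-- A3: near a point, `{g < 0}` is the region under a graph, in suitable orthonormal coordinates -/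
def TaskA3 : Prop := ∀ g : E → ℝ, Surf g → ∀ p ∈ Sg g,
  ∃ (A : E ≃ₗᵢ[ℝ] E) (f : P2 → ℝ) (U : Set E), ContDiff ℝ 1 f ∧ IsOpen U ∧ p ∈ U ∧
    ∀ z ∈ U, (g z < 0 ↔ (A z) 2 < f (pr (A z))) ∧ (g z = 0 ↔ (A z) 2 = f (pr (A z))) ∧
      (g z = 0 → ∀ v : E, inner ℝ (nu g z) v * Real.sqrt (1 + ‖gradient f (pr (A z))‖ ^ 2) =
        (A v) 2 - fderiv ℝ f (pr (A z)) (pr (A v)))

/-- A4: Gauss-Green with an unspecified universal constant -/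
def TaskA4 : Prop := TaskA1 → TaskA2 → TaskA3 → ∃ c : ℝ, 0 < c ∧ ∀ g : E → ℝ, Surf g →
  ∀ F : E → ℝ, ContDiff ℝ 1 F → ∀ v : E,
  ∫ z in Om g, fderiv ℝ F z v =
    c * ∫ y in Sg g, F y * inner ℝ (nu g y) v ∂(Measure.hausdorffMeasure 2)

/-- Gauss-Green for the normalised measure -/
def GG : Prop := ∀ g : E → ℝ, Surf g → ∀ F : E → ℝ, ContDiff ℝ 1 F → ∀ v : E,
  ∫ z in Om g, fderiv ℝ F z v = ∫ y, F y * inner ℝ (nu g y) v ∂(sig g)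

/-! ### Part B: bounds -/

def BallBd (μ : Measure E) : Prop :=
  ∃ C : ℝ, 0 < C ∧ ∀ (x : E) (r : ℝ), 0 < r → μ (Metric.closedBall x r) ≤ ENNReal.ofReal (C * r ^ 2)

/-- B1 -/
def TaskB1 : Prop := TaskA3 → ∀ g : E → ℝ, Surf g → BallBd (sig g)

/-- B2 -/
def TaskB2 : Prop := ∀ μ : Measure E, IsFiniteMeasure μ → BallBd μ →
  ∃ C : ℝ, 0 < C ∧ ∀ x : E,
    ∫⁻ y, ENNReal.ofReal (‖x - y‖ ^ (-(3 / 2) : ℝ)) ∂μ ≤ ENNReal.ofReal C

/-- B3 -/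
def TaskB3 : Prop := ∀ g : E → ℝ, Surf g → ∃ C : ℝ, 0 < C ∧
  ∀ x ∈ Sg g, ∀ y ∈ Sg g, |ks g x y| ≤ C / ‖x - y‖

/-- B4: volume integrals of singular kernels -/
def TaskB4 : Prop :=
  (∀ R : ℝ, ∃ C : ℝ, 0 < C ∧ ∀ x : E,
    ∫⁻ z in Metric.closedBall (0 : E) R, ENNReal.ofReal (1 / ‖z - x‖ ^ 2) ≤ ENNReal.ofReal C) ∧
  (∃ C : ℝ, 0 < C ∧ ∀ x y : E, x ≠ y →
    ∫⁻ z : E, ENNReal.ofReal (1 / (‖z - x‖ ^ 2 * ‖z - y‖ ^ 2)) ≤ ENNReal.ofReal (C / ‖x - y‖))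

/-! ### Part C: integral operators -/

/-- C1: Schur test -/
def TaskC1 : Prop := ∀ μ : Measure E, IsFiniteMeasure μ → ∀ (k : E → E → ℝ) (C : ℝ), 0 ≤ C →
  Measurable (Function.uncurry k) →
  (∀ᵐ x ∂μ, ∫⁻ y, ENNReal.ofReal |k x y| ∂μ ≤ ENNReal.ofReal C) →
  (∀ᵐ y ∂μ, ∫⁻ x, ENNReal.ofReal |k x y| ∂μ ≤ ENNReal.ofReal C) →
  ∃ T : Lp ℝ 2 μ →L[ℝ] Lp ℝ 2 μ, Rep μ k T ∧ ‖T‖ ≤ C ∧
    ∀ φ : Lp ℝ 2 μ, ∀ᵐ x ∂μ, Integrable (fun y => k x y * φ y) μ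

/-- C2: transposed kernels give adjoint operators -/
def TaskC2 : Prop := ∀ μ : Measure E, IsFiniteMeasure μ → ∀ (k : E → E → ℝ) (C : ℝ), 0 ≤ C →
  Measurable (Function.uncurry k) →
  (∀ᵐ x ∂μ, ∫⁻ y, ENNReal.ofReal |k x y| ∂μ ≤ ENNReal.ofReal C) →
  (∀ᵐ y ∂μ, ∫⁻ x, ENNReal.ofReal |k x y| ∂μ ≤ ENNReal.ofReal C) →
  ∀ T T' : Lp ℝ 2 μ →L[ℝ] Lp ℝ 2 μ, Rep μ k T → Rep μ (fun x y => k y x) T' →
    ∀ φ ψ : Lp ℝ 2 μ, inner ℝ ψ (T φ) = inner ℝ (T' ψ) φ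

/-- C3: compactness for kernels continuous on the (compact) support -/
def TaskC3 : Prop := ∀ μ : Measure E, IsFiniteMeasure μ → ∀ K : Set E, IsCompact K → μ Kᶜ = 0 →
  ∀ k : E → E → ℝ, ContinuousOn (Function.uncurry k) (K ×ˢ K) →
  ∀ T : Lp ℝ 2 μ →L[ℝ] Lp ℝ 2 μ, Rep μ k T → IsCompactOperator T

/-- C4: positivity of the single layer operator -/
def TaskC4 : Prop := ∀ μ : Measure E, IsFiniteMeasure μ → NullSingleton μ →
  ∀ K : Set E, IsCompact K → μ Kᶜ = 0 →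
  ∀ C : ℝ, (∀ x : E, ∫⁻ y, ENNReal.ofReal (G (x - y)) ∂μ ≤ ENNReal.ofReal C) →
  ∀ S : Lp ℝ 2 μ →L[ℝ] Lp ℝ 2 μ, Rep μ (fun x y => G (x - y)) S →
  ∀ φ : Lp ℝ 2 μ, φ ≠ 0 → 0 < inner ℝ φ (S φ)
  where NullSingleton (μ : Measure E) : Prop := ∀ x, μ {x} = 0

/-! ### Part D: kernel identities -/

/-- D1: `De ε` is an approximate identity seen from `Om g` -/
def TaskD1 : Prop := ∀ g : E → ℝ, Surf g → ∀ h : E → ℝ, Continuous h →
  (∀ y ∈ Sg g, Tendsto (fun ε : ℝ => ∫ z in Om g, h z * De ε (z - y)) (𝓝[>] 0) (𝓝 (h y / 2))) ∧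
  (∀ y ∈ Om g, Tendsto (fun ε : ℝ => ∫ z in Om g, h z * De ε (z - y)) (𝓝[>] 0) (𝓝 (h y)))

def SurfBd (g : E → ℝ) : Prop := IsFiniteMeasure (sig g) ∧ ∃ C : ℝ, 0 < C ∧
  (∀ x : E, ∫⁻ y, ENNReal.ofReal (‖x - y‖ ^ (-(3 / 2) : ℝ)) ∂(sig g) ≤ ENNReal.ofReal C) ∧
  (∀ x ∈ Sg g, ∀ y ∈ Sg g, |ks g x y| ≤ C / ‖x - y‖)

/-- D3: Green identity with pole on the surface -/
def GREEN (g : E → ℝ) : Prop := ∀ h : E → ℝ, ContDiff ℝ 1 h → ∀ y ∈ Sg g,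
  ∫ z in Om g, fderiv ℝ h z (dG (z - y)) = h y / 2 - ∫ z, h z * ks g z y ∂(sig g)

def TaskD3 : Prop := GG → TaskD1 → TaskB4 → ∀ g : E → ℝ, Surf g → SurfBd g → GREEN g

/-- D4: gradient of the Newtonian potential -/
def DIVK (g : E → ℝ) : Prop := ∀ y v : E,
  ∫ z in Om g, inner ℝ (dG (z - y)) v = ∫ z, G (z - y) * inner ℝ (nu g z) v ∂(sig g)

def TaskD4 : Prop := GG → TaskB4 → ∀ g : E → ℝ, Surf g → SurfBd g → DIVK g

/-- D5: Gauss' law inside -/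
def GIN (g : E → ℝ) : Prop := ∀ z ∈ Om g, ∫ y, inner ℝ (dG (z - y)) (nu g y) ∂(sig g) = 1

def TaskD5 : Prop := GG → TaskD1 → ∀ g : E → ℝ, Surf g → SurfBd g → GIN g

/-- D6: the energy kernel -/
def KI (g : E → ℝ) : Prop := ∀ x ∈ Sg g, ∀ y ∈ Sg g, x ≠ y →
  ∫ z in Om g, inner ℝ (dG (z - x)) (dG (z - y)) =
    G (x - y) / 2 - ∫ z, G (x - z) * ks g z y ∂(sig g)

def TaskD6 : Prop := TaskB4 → ∀ g : E → ℝ, Surf g → SurfBd g → GREEN g → KI g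

/-! ### Part F: energy identities on `L²` -/

/-- F1 -/
def ENERGY (g : E → ℝ) : Prop := ∀ S Ks : Lp ℝ 2 (sig g) →L[ℝ] Lp ℝ 2 (sig g),
  Rep (sig g) (fun x y => G (x - y)) S → Rep (sig g) (ks g) Ks → ∀ φ ψ : Lp ℝ 2 (sig g),
    IntegrableOn (fun z => ‖uu (sig g) φ z‖ ^ 2) (Om g) ∧
    ∫ z in Om g, inner ℝ (uu (sig g) φ z) (uu (sig g) ψ z) =
      inner ℝ φ (S ((1 / 2 : ℝ) • ψ - Ks ψ))

def TaskF1 : Prop := TaskB4 → ∀ g : E → ℝ, Surf g → SurfBd g → KI g → ENERGY g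

/-- F2 -/
def FLUX (g : E → ℝ) : Prop := ∀ S : Lp ℝ 2 (sig g) →L[ℝ] Lp ℝ 2 (sig g),
  Rep (sig g) (fun x y => G (x - y)) S → ∀ (v : E) (n φ : Lp ℝ 2 (sig g)),
    (∀ᵐ y ∂(sig g), n y = inner ℝ (nu g y) v) →
    ∫ z in Om g, inner ℝ (uu (sig g) φ z) v = inner ℝ φ (S n)

def TaskF2 : Prop := TaskB4 → ∀ g : E → ℝ, Surf g → SurfBd g → DIVK g → FLUX g

/-- F3: the potential is differentiable off the surface -/
def TaskF3 : Prop := ∀ g : E → ℝ, Surf g → IsFiniteMeasure (sig g) →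
  ∀ φ : E → ℝ, Integrable φ (sig g) → ∀ z ∉ Sg g,
    HasGradientAt (fun z => ∫ y, G (z - y) * φ y ∂(sig g)) (uu (sig g) φ z) z ∧
      ContinuousAt (uu (sig g) φ) z

/-- F4: the potential of a bounded density is continuous -/
def TaskF4 : Prop := ∀ μ : Measure E, IsFiniteMeasure μ → ∀ C : ℝ, 0 < C →
  (∀ x : E, ∫⁻ y, ENNReal.ofReal (‖x - y‖ ^ (-(3 / 2) : ℝ)) ∂μ ≤ ENNReal.ofReal C) →
  ∀ φ : E → ℝ, Measurable φ → (∀ y, |φ y| ≤ 1) →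
    Continuous (fun z => ∫ y, G (z - y) * φ y ∂μ)

/-! ### Part H: rigidity -/

/-- H1: a function with zero derivative in the domain is constant on a connected surface -/
def TaskH1 : Prop := ∀ g : E → ℝ, Surf g → IsPreconnected (Sg g) → ∀ w : E → ℝ, Continuous w →
  (∀ z ∈ Om g, HasGradientAt w 0 z) → ∃ c : ℝ, ∀ x ∈ Sg g, w x = c

/-- Newton's theorem on the boundary of a ball -/
def NEWTON : Prop := ∀ (c : E) (r : ℝ), 0 < r → ∀ x ∈ Metric.sphere c r, ∀ v : E,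
  ∫ z in Metric.ball c r, inner ℝ (dG (z - x)) v = (1 / 3) * inner ℝ (x - c) v

/-- H2: a domain with the field of a ball on its boundary is a ball -/
def TaskH2 : Prop := NEWTON → TaskB4 → ∀ g : E → ℝ, Surf g → ∀ c : E,
  (∀ x ∈ Sg g, ∀ v : E, ∫ z in Om g, inner ℝ (dG (z - x)) v = (1 / 3) * inner ℝ (x - c) v) →
  ∃ r : ℝ, 0 < r ∧ Sg g = Metric.sphere c r

/-- H3: Newton's theorem from the identities on the sphere -/
def TaskH3 : Prop := (∀ g : E → ℝ, Surf g → GREEN g) → (∀ g : E → ℝ, Surf g → DIVK g) →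
  (∀ g : E → ℝ, Surf g → SurfBd g) → NEWTON

/-! ### Part J: the sphere -/

/-- J1: area of caps -/
def TaskJ1 : Prop := ∀ (c : E) (r : ℝ), 0 < r → ∀ x ∈ Metric.sphere c r, ∀ ρ : ℝ, 0 ≤ ρ → ρ ≤ 2 * r →
  (ENNReal.ofReal (4 * Real.pi) / Measure.hausdorffMeasure 2 (Metric.sphere (0 : E) 1)) *
    Measure.hausdorffMeasure 2 (Metric.sphere c r ∩ Metric.closedBall x ρ) =
      ENNReal.ofReal (Real.pi * ρ ^ 2)

/-- J2: kernel bound on the sphere -/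
def TaskJ2 : Prop := TaskJ1 → ∀ (g : E → ℝ), Surf g → ∀ (c : E) (r : ℝ), 0 < r →
  Sg g = Metric.sphere c r → ∀ x ∈ Sg g,
    ∫⁻ y, ENNReal.ofReal |1 / (8 * Real.pi * r * ‖x - y‖) - 3 / (20 * Real.pi * r ^ 2)
      + ‖x - y‖ ^ 2 / (40 * Real.pi * r ^ 4)| ∂(sig g) ≤ ENNReal.ofReal (13 / 80)

end Pool.Agent.H934R3.NP
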