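import Pool.Agent.H934R3.NP.Stmts

set_option autoImplicit false
set_option maxHeartbeats 4000000

open MeasureTheory Set Filter Topology
open scoped ENNReal NNReal

namespace Pool.Agent.H934R3.NP

/-- volume of the domain -/
noncomputable def Vol (g : E → ℝ) : ℝ := (volume (Om g)).toReal

/-- standard basis vectors -/
noncomputable def EE (i : Fin 3) : E := EuclideanSpace.single i (1 : ℝ)

structure Ops (g : E → ℝ) (S Ks K : Lp ℝ 2 (sig g) →L[ℝ] Lp ℝ 2 (sig g)) : Prop where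
  repS : Rep (sig g) (fun x y => G (x - y)) S
  repKs : Rep (sig g) (ks g) Ks
  repK : Rep (sig g) (fun x y => ks g y x) K
  symS : ∀ φ ψ : Lp ℝ 2 (sig g), inner ℝ φ (S ψ) = inner ℝ (S φ) ψ
  adj : ∀ φ ψ : Lp ℝ 2 (sig g), inner ℝ ψ (Ks φ) = inner ℝ (K ψ) φ
  cpt : IsCompactOperator Ks

/-- `n i` is the `i`-th component of the normal, `X i` the `i`-th coordinate -/
structure Vec (g : E → ℝ) (n X : Fin 3 → Lp ℝ 2 (sig g)) : Prop where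
  hn : ∀ i, ∀ᵐ y ∂(sig g), n i y = inner ℝ (nu g y) (EE i)
  hX : ∀ i, ∀ᵐ y ∂(sig g), X i y = y i

/-- M1: the operators exist, `S` is symmetric, `K` is the adjoint of `K*`, `K*` is compact -/
def TaskM1 : Prop := TaskC1 → TaskC2 → TaskC3 → ∀ g : E → ℝ, Surf g → SurfBd g →
  ∃ S Ks K : Lp ℝ 2 (sig g) →L[ℝ] Lp ℝ 2 (sig g), Ops g S Ks K

/-- the conclusion of A4 -/
def GGc : Prop := ∃ c : ℝ, 0 < c ∧ ∀ g : E → ℝ, Surf g →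
  ∀ F : E → ℝ, ContDiff ℝ 1 F → ∀ v : E,
  ∫ z in Om g, fderiv ℝ F z v =
    c * ∫ y in Sg g, F y * inner ℝ (nu g y) v ∂(Measure.hausdorffMeasure 2)

/-- M2: normalisation of Gauss-Green by the unit ball -/
def TaskM2 : Prop := GGc → GG

/-- M3 -/
def TaskM3 : Prop := ∀ g : E → ℝ, Surf g → SurfBd g → ENERGY g → FLUX g →
  ∀ S Ks K : Lp ℝ 2 (sig g) →L[ℝ] Lp ℝ 2 (sig g), Ops g S Ks K →
  ∀ n X : Fin 3 → Lp ℝ 2 (sig g), Vec g n X →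
  (∀ (i : Fin 3) (φ : Lp ℝ 2 (sig g)),
    (inner ℝ φ (S (n i))) ^ 2 ≤ Vol g * inner ℝ φ (S ((1 / 2 : ℝ) • φ - Ks φ))) ∧
  (∀ φ : Lp ℝ 2 (sig g), 0 ≤ inner ℝ φ (S ((1 / 2 : ℝ) • φ - Ks φ))) ∧
  (∀ φ ψ : Lp ℝ 2 (sig g), inner ℝ φ (S (Ks ψ)) = inner ℝ (Ks φ) (S ψ))

/-- M4 -/
def TaskM4 : Prop := ∀ g : E → ℝ, Surf g → SurfBd g → GREEN g → DIVK g →
  ∀ S Ks K : Lp ℝ 2 (sig g) →L[ℝ] Lp ℝ 2 (sig g), Ops g S Ks K →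
  ∀ n X : Fin 3 → Lp ℝ 2 (sig g), Vec g n X →
  ∀ (i : Fin 3) (φ : Lp ℝ 2 (sig g)),
    inner ℝ (X i) ((1 / 2 : ℝ) • φ - Ks φ) = inner ℝ (S (n i)) φ

/-- M5 -/
def TaskM5 : Prop := GG → ∀ g : E → ℝ, Surf g → SurfBd g → ENERGY g → FLUX g → GIN g →
  ∀ S Ks K : Lp ℝ 2 (sig g) →L[ℝ] Lp ℝ 2 (sig g), Ops g S Ks K →
  ∀ n X : Fin 3 → Lp ℝ 2 (sig g), Vec g n X →
  (∀ i, inner ℝ (X i) (n i) = Vol g) ∧ ∑ i, inner ℝ (n i) (S (n i)) = Vol g ∧ 0 < Vol g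

/-- M6 -/
def TaskM6 : Prop := ∀ g : E → ℝ, Surf g → IsFiniteMeasure (sig g) →
  ∃ n X : Fin 3 → Lp ℝ 2 (sig g), Vec g n X

/-- M7: rigidity in the case of equality -/
def TaskM7 : Prop := TaskF3 → TaskF4 → TaskH1 → TaskB4 → ∀ g : E → ℝ, Surf g → SurfBd g →
  IsPreconnected (Sg g) → ENERGY g → GIN g → DIVK g →
  ∀ S Ks K : Lp ℝ 2 (sig g) →L[ℝ] Lp ℝ 2 (sig g), Ops g S Ks K →
  ∀ n X : Fin 3 → Lp ℝ 2 (sig g), Vec g n X →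
  ∑ i, inner ℝ (n i) (S (n i)) = Vol g → (∀ i, Ks (n i) = (1 / 6 : ℝ) • n i) →
  ∃ c : E, ∀ x ∈ Sg g, ∀ v : E, ∫ z in Om g, inner ℝ (dG (z - x)) v = (1 / 3) * inner ℝ (x - c) v

/-- M8: the sphere -/
def TaskM8 : Prop := TaskC1 → TaskJ1 → TaskJ2 → ∀ g : E → ℝ, Surf g → SurfBd g → GREEN g → DIVK g →
  ∀ S Ks K : Lp ℝ 2 (sig g) →L[ℝ] Lp ℝ 2 (sig g), Ops g S Ks K →
  ∀ (c : E) (r : ℝ), 0 < r → Sg g = Metric.sphere c r →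
  ∀ (t : ℝ) (φ : Lp ℝ 2 (sig g)), φ ≠ 0 → Ks φ = t • φ → t ≠ 1 / 2 → t ≤ 1 / 6

/-- M8a: the normal of a surface that is a sphere -/
def TaskM8a : Prop := ∀ g : E → ℝ, Surf g → ∀ (c : E) (r : ℝ), 0 < r →
  Sg g = Metric.sphere c r → ∀ x ∈ Sg g, nu g x = (1 / r) • (x - c)

/-- M9 -/
def TaskM9 : Prop := TaskB2 → TaskB3 → ∀ g : E → ℝ, Surf g → BallBd (sig g) → SurfBd g

/-- M10: the predicate `P` of the frozen statement -/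
def TaskM10 : Prop := ∀ g : E → ℝ, Surf g → ∀ S Ks K : Lp ℝ 2 (sig g) →L[ℝ] Lp ℝ 2 (sig g),
  Ops g S Ks K → ∀ t : ℝ,
  (∃ φ : EuclideanSpace ℝ (Fin 3) → ℝ,
      MemLp φ 2 (sig g) ∧ ¬ Filter.EventuallyEq (ae (sig g)) φ 0 ∧
      ∀ᵐ x ∂(sig g), (1 / (4 * Real.pi)) *
          (∫ y, inner ℝ (x - y) (gradient g x) /
              (‖gradient g x‖ * ‖x - y‖ ^ 3) * φ y ∂(sig g)) = t * φ x) ↔
    ∃ φ : Lp ℝ 2 (sig g), φ ≠ 0 ∧ Ks φ = t • φ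

/-- M11: the single layer operator is positive definite -/
def TaskM11 : Prop := TaskC4 → ∀ g : E → ℝ, Surf g → SurfBd g →
  ∀ S Ks K : Lp ℝ 2 (sig g) →L[ℝ] Lp ℝ 2 (sig g), Ops g S Ks K →
  ∀ φ : Lp ℝ 2 (sig g), φ ≠ 0 → 0 < inner ℝ φ (S φ)

end Pool.Agent.H934R3.NP
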