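import Mathlib

set_option autoImplicit false
set_option maxHeartbeats 4000000

open Filter Topology

namespace Pool.Agent.H934R3.NP.Abs

variable {H : Type*} [NormedAddCommGroup H] [InnerProductSpace ℝ H]

open scoped RealInnerProductSpace

/-- Cauchy-Schwarz for a positive semidefinite form -/
theorem cs (T : H →L[ℝ] H) (hs : ∀ x y : H, ⟪x, T y⟫ = ⟪T x, y⟫) (hp : ∀ x : H, 0 ≤ ⟪x, T x⟫)
    (x y : H) : ⟪x, T y⟫ ^ 2 ≤ ⟪x, T x⟫ * ⟪y, T y⟫ := by
  have h : ∀ t : ℝ, 0 ≤ ⟪y, T y⟫ * (t * t) + (2 * ⟪x, T y⟫) * t + ⟪x, T x⟫ := by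
    intro t
    have h1 := hp (x + t • y)
    have e : ⟪y, T x⟫ = ⟪x, T y⟫ := by rw [hs, real_inner_comm]
    rw [map_add, map_smul, inner_add_left, inner_add_right, inner_add_right, inner_smul_left,
      inner_smul_left, inner_smul_right, inner_smul_right, e] at h1
    simp only [conj_trivial] at h1
    linarith
  have h2 := discrim_le_zero h
  unfold discrim at h2
  nlinarith

/-- Lax: an operator symmetric for the form of `S` is bounded for its norm -/
theorem lax (S R : H →L[ℝ] H) (hS : ∀ x y : H, ⟪x, S y⟫ = ⟪S x, y⟫)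
    (hp : ∀ x : H, x ≠ 0 → 0 < ⟪x, S x⟫) (hR : ∀ x y : H, ⟪x, S (R y)⟫ = ⟪R x, S y⟫) (x : H) :
    ⟪R x, S (R x)⟫ ≤ ‖R‖ ^ 2 * ⟪x, S x⟫ := by
  have hp0 : ∀ x : H, 0 ≤ ⟪x, S x⟫ := by
    intro x
    by_cases h : x = 0
    · simp [h]
    · exact (hp x h).le
  by_contra hcon
  push Not at hcon
  have hx : x ≠ 0 := by
    rintro rfl
    simp at hcon
  set s : ℕ → ℝ := fun n => ⟪(R ^ n) x, S ((R ^ n) x)⟫ with hs
  have hs0 : s 0 = ⟪x, S x⟫ := by simp [hs]
  have hs1 : s 1 = ⟪R x, S (R x)⟫ := by simp [hs]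
  have hq0 : 0 < s 0 := by rw [hs0]; exact hp x hx
  have hsn : ∀ n, 0 ≤ s n := fun n => hp0 _
  have hconv : ∀ n, s (n + 1) ^ 2 ≤ s n * s (n + 2) := by
    intro n
    have h1 : s (n + 1) = ⟪(R ^ n) x, S ((R ^ (n + 2)) x)⟫ := by
      simp only [hs]
      have e1 : (R ^ (n + 1)) x = R ((R ^ n) x) := by rw [pow_succ']; rfl
      have e2 : (R ^ (n + 2)) x = R ((R ^ (n + 1)) x) := by rw [pow_succ']; rfl
      rw [e2, hR, ← e1]
    rw [h1]
    exact cs S hS hp0 _ _
  have hs1pos : 0 < s 1 := by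
    rw [hs1]
    refine lt_of_le_of_lt ?_ hcon
    have := hp0 x
    positivity
  have hind : ∀ n, 0 < s n ∧ s 1 * s n ≤ s (n + 1) * s 0 := by
    intro n
    induction n with
    | zero => exact ⟨hq0, by simp⟩
    | succ n ih =>
      obtain ⟨h1, h2⟩ := ih
      have h3 : 0 < s (n + 1) := by
        have : 0 < s (n + 1) * s 0 := lt_of_lt_of_le (mul_pos hs1pos h1) h2
        exact pos_of_mul_pos_left this hq0.le
      refine ⟨h3, ?_⟩
      have h4 := hconv n
      have h5 : s 1 * s (n + 1) * s n ≤ s (n + 2) * s 0 * s n := by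
        calc s 1 * s (n + 1) * s n = s (n + 1) * (s 1 * s n) := by ring
          _ ≤ s (n + 1) * (s (n + 1) * s 0) := by
              exact mul_le_mul_of_nonneg_left h2 h3.le
          _ = s (n + 1) ^ 2 * s 0 := by ring
          _ ≤ (s n * s (n + 2)) * s 0 := mul_le_mul_of_nonneg_right h4 hq0.le
          _ = s (n + 2) * s 0 * s n := by ring
      exact le_of_mul_le_mul_right h5 h1
  set r : ℝ := s 1 / s 0 with hr
  have hgrow : ∀ n, r ^ n * s 0 ≤ s n := by
    intro n
    induction n with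
    | zero => simp
    | succ n ih =>
      have h1 := (hind n).2
      have hr0 : 0 ≤ r := by positivity
      have h2 : r * s n ≤ s (n + 1) := by
        rw [hr, div_mul_eq_mul_div, div_le_iff₀ hq0]
        exact h1
      calc r ^ (n + 1) * s 0 = r * (r ^ n * s 0) := by ring
        _ ≤ r * s n := mul_le_mul_of_nonneg_left ih hr0
        _ ≤ s (n + 1) := h2
  have hbd : ∀ n, s n ≤ ‖S‖ * ‖x‖ ^ 2 * (‖R‖ ^ 2) ^ n := by
    intro n
    have h1 : ‖(R ^ n) x‖ ≤ ‖R‖ ^ n * ‖x‖ := by
      refine ((R ^ n).le_opNorm x).trans ?_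
      gcongr
      rcases n with _ | n
      · simp only [pow_zero]
        exact ContinuousLinearMap.norm_id_le
      · exact norm_pow_le' R (Nat.succ_pos n)
    have h2 : s n ≤ ‖(R ^ n) x‖ * (‖S‖ * ‖(R ^ n) x‖) := by
      refine (real_inner_le_norm _ _).trans ?_
      gcongr
      exact S.le_opNorm _
    calc s n ≤ ‖(R ^ n) x‖ * (‖S‖ * ‖(R ^ n) x‖) := h2
      _ ≤ (‖R‖ ^ n * ‖x‖) * (‖S‖ * (‖R‖ ^ n * ‖x‖)) := by gcongr
      _ = ‖S‖ * ‖x‖ ^ 2 * (‖R‖ ^ 2) ^ n := by ring
  have hrR : ‖R‖ ^ 2 < r := by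
    rw [hr, lt_div_iff₀ hq0, hs0, hs1]
    exact hcon
  have hRpos : 0 < ‖R‖ ^ 2 := by
    rcases (sq_nonneg ‖R‖).lt_or_eq with h | h
    · exact h
    · exfalso
      have : ‖R‖ = 0 := by
        have := h.symm
        exact pow_eq_zero_iff (two_ne_zero) |>.1 this
      have hR0 : R = 0 := norm_eq_zero.1 this
      rw [hs1, hR0] at hs1pos
      simp at hs1pos
  have hratio : 1 < r / ‖R‖ ^ 2 := by rwa [one_lt_div hRpos]
  have htend := tendsto_pow_atTop_atTop_of_one_lt hratio
  obtain ⟨n, hn⟩ := (htend.eventually_gt_atTop (‖S‖ * ‖x‖ ^ 2 / s 0)).exists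
  have h1 := (hgrow n).trans (hbd n)
  rw [div_pow, div_lt_div_iff₀ hq0 (by positivity)] at hn
  linarith

variable [CompleteSpace H]

/-- the abstract theorem -/
theorem abs (S K : H →L[ℝ] H) (hS : ∀ x y : H, ⟪x, S y⟫ = ⟪S x, y⟫)
    (hp : ∀ x : H, x ≠ 0 → 0 < ⟪x, S x⟫) (hK : IsCompactOperator K)
    (hsym : ∀ x y : H, ⟪x, S (K y)⟫ = ⟪K x, S y⟫)
    (hb : ∀ x : H, 0 ≤ ⟪x, S ((1 / 2 : ℝ) • x - K x)⟫)
    (n X : Fin 3 → H) (V : ℝ)
    (h3 : ∀ (e : Fin 3) (x : H), ⟪x, S (n e)⟫ ^ 2 ≤ V * ⟪x, S ((1 / 2 : ℝ) • x - K x)⟫)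
    (h4 : ∀ (e : Fin 3) (x : H), ⟪X e, (1 / 2 : ℝ) • x - K x⟫ = ⟪S (n e), x⟫)
    (h5 : ∀ e, ⟪X e, n e⟫ = V) (h6 : ∑ e, ⟪n e, S (n e)⟫ = V)
    (hno : ∀ t : ℝ, 1 / 6 < t → t < 1 / 2 → ∀ x : H, K x = t • x → x = 0) :
    ∀ e, K (n e) = (1 / 6 : ℝ) • n e := by
  classical
  have hp0 : ∀ x : H, 0 ≤ ⟪x, S x⟫ := by
    intro x
    by_cases h : x = 0
    · simp [h]
    · exact (hp x h).le
  have hp1 : ∀ x : H, ⟪x, S x⟫ = 0 → x = 0 := by
    intro x hx
    by_contra h
    exact absurd hx (hp x h).ne'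
  set B : H →L[ℝ] H := (1 / 2 : ℝ) • ContinuousLinearMap.id ℝ H - K with hB
  have hBx : ∀ x, B x = (1 / 2 : ℝ) • x - K x := fun x => by simp [hB]
  have hBsym : ∀ x y : H, ⟪x, S (B y)⟫ = ⟪B x, S y⟫ := by
    intro x y
    rw [hBx, hBx, map_sub, map_smul, inner_sub_right, inner_sub_left, inner_smul_right,
      inner_smul_left, hsym]
    simp
  set D : H →L[ℝ] H := B.comp B - (1 / 3 : ℝ) • B with hD
  have hDx : ∀ x, D x = B (B x) - (1 / 3 : ℝ) • B x := fun x => by simp [hD]
  have hDsym : ∀ x y : H, ⟪x, S (D y)⟫ = ⟪D x, S y⟫ := by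
    intro x y
    rw [hDx, hDx, map_sub, map_smul, inner_sub_right, inner_sub_left, inner_smul_right,
      inner_smul_left, hBsym, hBsym, hBsym x y]
    simp
  -- injectivity of D + μ
  have hinj : ∀ μ : ℝ, 0 < μ → ∀ x : H, D x + μ • x = 0 → x = 0 := by
    intro μ hμ x hx
    rcases le_or_gt μ (1 / 36) with h | h
    · set s := Real.sqrt (1 / 36 - μ) with hs
      have hs2 : s * s = 1 / 36 - μ := Real.mul_self_sqrt (by linarith)
      have hs0 : 0 ≤ s := Real.sqrt_nonneg _
      have hs1 : s < 1 / 6 := by nlinarith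
      set w := B x - (1 / 6 + s) • x with hw
      have hw1 : B w - (1 / 6 - s) • w = 0 := by
        have : B w - (1 / 6 - s) • w = D x + μ • x := by
          rw [hDx, hw, map_sub, map_smul]
          have e1 : μ = (1 / 6 - s) * (1 / 6 + s) := by nlinarith
          rw [e1]
          module
        rw [this, hx]
      have hw0 : w = 0 := by
        apply hno (1 / 2 - (1 / 6 - s)) (by linarith) (by linarith)
        rw [hBx] at hw1
        have : K w = (1 / 2 : ℝ) • w - (1 / 6 - s) • w := by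
          rw [← sub_eq_zero]
          rw [← neg_eq_zero, ← hw1]
          module
        rw [this]
        module
      apply hno (1 / 2 - (1 / 6 + s)) (by linarith) (by linarith)
      have h1 : B x - (1 / 6 + s) • x = 0 := hw0
      rw [hBx] at h1
      have : K x = (1 / 2 : ℝ) • x - (1 / 6 + s) • x := by
        rw [← sub_eq_zero, ← neg_eq_zero, ← h1]
        module
      rw [this]
      module
    · by_contra hx0
      have h1 : ⟪x, S (D x + μ • x)⟫ = 0 := by rw [hx]; simp
      have h2 : ⟪x, S (D x + μ • x)⟫ =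
          ⟪B x - (1 / 6 : ℝ) • x, S (B x - (1 / 6 : ℝ) • x)⟫ + (μ - 1 / 36) * ⟪x, S x⟫ := by
        rw [hDx]
        simp only [map_sub, map_smul, map_add, inner_sub_right, inner_sub_left, inner_add_right,
          inner_smul_right, inner_smul_left, conj_trivial]
        rw [hBsym x (B x), hBsym x x]
        ring
      have h3' := hp x hx0
      have h4' := hp0 (B x - (1 / 6 : ℝ) • x)
      nlinarith
  -- invertibility
  have hinv : ∀ μ : ℝ, 0 < μ → ∃ R : H →L[ℝ] H, (∀ x, D (R x) + μ • R x = x) ∧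
      (∀ x, R (D x + μ • x) = x) := by
    intro μ hμ
    set C : H →L[ℝ] H := (2 / 3 : ℝ) • K - K.comp K with hC
    have hCc : IsCompactOperator C := by
      have h1 : IsCompactOperator (K.comp K) := hK.comp_clm K
      exact (hK.smul (2 / 3 : ℝ)).sub h1
    have hDC : ∀ x, D x + μ • x = (1 / 12 + μ) • x - C x := by
      intro x
      rw [hDx, hBx, hBx]
      simp only [hC, ContinuousLinearMap.sub_apply, ContinuousLinearMap.smul_apply,
        ContinuousLinearMap.comp_apply, map_sub, map_smul]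
      module
    have hne : (1 / 12 + μ : ℝ) ≠ 0 := by positivity
    rcases hCc.hasEigenvalue_or_mem_resolventSet hne with h | h
    · exfalso
      obtain ⟨v, hv⟩ := h.exists_hasEigenvector
      have h1 : C v = (1 / 12 + μ) • v := hv.apply_eq_smul
      exact hv.2 (hinj μ hμ v (by rw [hDC, h1, sub_self]))
    · rw [spectrum.mem_resolventSet_iff] at h
      obtain ⟨u, hu⟩ := h
      refine ⟨(↑u⁻¹ : H →L[ℝ] H), fun x => ?_, fun x => ?_⟩
      · have h1 : (u : H →L[ℝ] H) * (↑u⁻¹ : H →L[ℝ] H) = 1 := u.mul_inv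
        rw [hu] at h1
        have h2 := congrArg (fun T : H →L[ℝ] H => T x) h1
        simp only [ContinuousLinearMap.mul_apply, ContinuousLinearMap.one_apply,
          ContinuousLinearMap.sub_apply, Algebra.algebraMap_eq_smul_one,
          ContinuousLinearMap.smul_apply] at h2
        rw [hDC]
        exact h2
      · have h1 : (↑u⁻¹ : H →L[ℝ] H) * (u : H →L[ℝ] H) = 1 := u.inv_mul
        rw [hu] at h1
        have h2 := congrArg (fun T : H →L[ℝ] H => T x) h1
        simp only [ContinuousLinearMap.mul_apply, ContinuousLinearMap.one_apply,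
          ContinuousLinearMap.sub_apply, Algebra.algebraMap_eq_smul_one,
          ContinuousLinearMap.smul_apply] at h2
        rw [hDC]
        exact h2
  -- positivity of D
  have hpos : ∀ x : H, 0 ≤ ⟪x, S (D x)⟫ := by
    set A : Set ℝ := {μ | 0 ≤ μ ∧ ∀ x : H, 0 ≤ ⟪x, S (D x)⟫ + μ * ⟪x, S x⟫} with hA
    have hA1 : (1 / 36 : ℝ) ∈ A := by
      refine ⟨by norm_num, fun x => ?_⟩
      have h2 : ⟪x, S (D x)⟫ + (1 / 36) * ⟪x, S x⟫ =
          ⟪B x - (1 / 6 : ℝ) • x, S (B x - (1 / 6 : ℝ) • x)⟫ := by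
        rw [hDx]
        simp only [map_sub, map_smul, inner_sub_right, inner_sub_left,
          inner_smul_right, inner_smul_left, conj_trivial]
        rw [hBsym x (B x), hBsym x x]
        ring
      rw [h2]
      exact hp0 _
    have hAb : BddBelow A := ⟨0, fun μ hμ => hμ.1⟩
    have hAne : A.Nonempty := ⟨_, hA1⟩
    set m := sInf A with hm
    have hm0 : 0 ≤ m := le_csInf hAne fun μ hμ => hμ.1
    have hmA : ∀ x : H, 0 ≤ ⟪x, S (D x)⟫ + m * ⟪x, S x⟫ := by
      intro x
      by_contra hcon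
      push Not at hcon
      have hx : 0 < ⟪x, S x⟫ := by
        rcases (hp0 x).lt_or_eq with h | h
        · exact h
        · exfalso
          have := hp1 x h.symm
          rw [this] at hcon
          simp at hcon
      -- choose μ ∈ A with μ < m + δ
      set δ := -(⟪x, S (D x)⟫ + m * ⟪x, S x⟫) / ⟪x, S x⟫ with hδ
      have hδ0 : 0 < δ := div_pos (by linarith) hx
      obtain ⟨μ, hμA, hμ⟩ := exists_lt_of_csInf_lt hAne (show sInf A < m + δ by rw [← hm]; linarith)
      have h1 := hμA.2 x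
      have h2 : δ * ⟪x, S x⟫ = -(⟪x, S (D x)⟫ + m * ⟪x, S x⟫) := by
        rw [hδ]; field_simp
      nlinarith
    rcases hm0.lt_or_eq with h | h
    · exfalso
      obtain ⟨R, hR1, hR2⟩ := hinv m h
      -- R symmetric for the form of S
      have hRsym : ∀ x y : H, ⟪x, S (R y)⟫ = ⟪R x, S y⟫ := by
        intro x y
        have e1 : ⟪x, S (R y)⟫ = ⟪D (R x) + m • R x, S (R y)⟫ := by rw [hR1]
        have e2 : ⟪R x, S y⟫ = ⟪R x, S (D (R y) + m • R y)⟫ := by rw [hR1]
        rw [e1, e2, map_add, map_smul, inner_add_left, inner_add_right, inner_smul_left,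
          inner_smul_right, hDsym]
        simp
      set T : H →L[ℝ] H := S.comp D + m • S with hT
      have hTx : ∀ x, T x = S (D x) + m • S x := fun x => by simp [hT]
      have hTs : ∀ x y : H, ⟪x, T y⟫ = ⟪T x, y⟫ := by
        intro x y
        rw [hTx, hTx, inner_add_right, inner_add_left, inner_smul_right, inner_smul_left, hDsym,
          hS x y, hS (D x) y]
        simp
      have hTp : ∀ x : H, 0 ≤ ⟪x, T x⟫ := by
        intro x
        rw [hTx, inner_add_right, inner_smul_right]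
        exact hmA x
      have hTR : ∀ x, T (R x) = S x := by
        intro x
        rw [hTx, ← map_smul, ← map_add, hR1]
      set c := ‖R‖ + 1 with hc
      have hc0 : 0 < c := by positivity
      have key : ∀ x : H, ⟪x, S x⟫ ≤ c * ⟪x, T x⟫ := by
        intro x
        by_cases hx : x = 0
        · simp [hx]
        have hq := hp x hx
        have h1 : ⟪x, S x⟫ ^ 2 ≤ ⟪x, T x⟫ * ⟪R x, S x⟫ := by
          have := cs T hTs hTp x (R x)
          rwa [hTR] at this
        have h2 : ⟪R x, S x⟫ ≤ ‖R‖ * ⟪x, S x⟫ := by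
          have h3' := cs S hS hp0 (R x) x
          have h4' := lax S R hS hp hRsym x
          have h5' : ⟪R x, S x⟫ ^ 2 ≤ (‖R‖ * ⟪x, S x⟫) ^ 2 := by
            calc ⟪R x, S x⟫ ^ 2 ≤ ⟪R x, S (R x)⟫ * ⟪x, S x⟫ := h3'
              _ ≤ (‖R‖ ^ 2 * ⟪x, S x⟫) * ⟪x, S x⟫ := mul_le_mul_of_nonneg_right h4' hq.le
              _ = (‖R‖ * ⟪x, S x⟫) ^ 2 := by ring
          exact abs_le_of_sq_le_sq' h5' (by positivity) |>.2
        have h3' : ⟪x, S x⟫ ^ 2 ≤ ⟪x, T x⟫ * (‖R‖ * ⟪x, S x⟫) :=
          h1.trans (mul_le_mul_of_nonneg_left h2 (hTp x))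
        have h4' : ⟪x, S x⟫ ≤ ‖R‖ * ⟪x, T x⟫ := by
          have : ⟪x, S x⟫ * ⟪x, S x⟫ ≤ (‖R‖ * ⟪x, T x⟫) * ⟪x, S x⟫ := by nlinarith
          exact le_of_mul_le_mul_right this hq
        have := hTp x
        nlinarith
      set δ := min m (1 / c) with hδ
      have hδ0 : 0 < δ := lt_min h (by positivity)
      have hmem : m - δ ∈ A := by
        refine ⟨by have := min_le_left m (1 / c); linarith, fun x => ?_⟩
        have h1 := key x
        have h2 : δ * c ≤ 1 := by
          have := min_le_right m (1 / c)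
          calc δ * c ≤ (1 / c) * c := mul_le_mul_of_nonneg_right this hc0.le
            _ = 1 := by field_simp
        have h3' : δ * ⟪x, S x⟫ ≤ ⟪x, T x⟫ := by
          calc δ * ⟪x, S x⟫ ≤ δ * (c * ⟪x, T x⟫) := mul_le_mul_of_nonneg_left h1 hδ0.le
            _ = (δ * c) * ⟪x, T x⟫ := by ring
            _ ≤ 1 * ⟪x, T x⟫ := mul_le_mul_of_nonneg_right h2 (hTp x)
            _ = ⟪x, T x⟫ := one_mul _
        have h4' : ⟪x, T x⟫ = ⟪x, S (D x)⟫ + m * ⟪x, S x⟫ := by
          rw [hTx, inner_add_right, inner_smul_right]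
        rw [h4'] at h3'
        linarith
      have := csInf_le hAb hmem
      rw [← hm] at this
      linarith
    · intro x
      have := hmA x
      rw [← h] at this
      simpa using this
  -- solving B ψ = n e
  have hsolve : ∀ e, ∃ ψ : H, B ψ = n e := by
    set W : Submodule ℝ H := LinearMap.ker (B : H →ₗ[ℝ] H) with hW
    have hWm : ∀ w ∈ W, K w = (1 / 2 : ℝ) • w := by
      intro w hw
      have h1 : B w = 0 := hw
      rw [hBx] at h1
      exact (sub_eq_zero.1 h1).symm
    have hWc : IsClosed (W : Set H) := by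
      have : (W : Set H) = B ⁻¹' {0} := by
        ext x; simp [hW, LinearMap.mem_ker]
      rw [this]
      exact isClosed_singleton.preimage B.continuous
    have hfin : FiniteDimensional ℝ W := by
      have : CompleteSpace W := hWc.completeSpace_coe
      have hres : ∀ v ∈ W, (K : H →ₗ[ℝ] H) v ∈ W := by
        intro v hv
        rw [ContinuousLinearMap.coe_coe, hWm v hv]
        exact W.smul_mem _ hv
      have h1 : IsCompactOperator ((K : H →ₗ[ℝ] H).restrict hres) :=
        IsCompactOperator.restrict' (f := (K : H →ₗ[ℝ] H)) hK hres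
      have h2 : IsCompactOperator (id : W → W) := by
        have h3' := h1.smul (2 : ℝ)
        have h4' : (id : W → W) = (2 : ℝ) • ⇑((K : H →ₗ[ℝ] H).restrict hres) := by
          funext w
          apply Subtype.ext
          simp only [id, Pi.smul_apply, Submodule.coe_smul, LinearMap.coe_restrict_apply,
            ContinuousLinearMap.coe_coe]
          rw [hWm w w.2, smul_smul]
          norm_num
        rw [h4']
        exact h3'
      exact FiniteDimensional.of_isCompactOperator_id (𝕜 := ℝ) h2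
    set b := Module.finBasis ℝ W with hbdef
    set P : H →L[ℝ] H := ∑ i, (innerSL ℝ (S (b i : H))).smulRight (b i : H) with hP
    have hPx : ∀ x, P x = ∑ i, ⟪S (b i : H), x⟫ • (b i : H) := by
      intro x
      simp [hP, ContinuousLinearMap.sum_apply]
    have hPc : IsCompactOperator P := by
      have h1 : ∀ s : Finset (Fin (Module.finrank ℝ W)),
          IsCompactOperator (∑ i ∈ s, (innerSL ℝ (S (b i : H))).smulRight (b i : H) : H →L[ℝ] H) := by
        intro s
        induction s using Finset.induction_on with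
        | empty => simpa using isCompactOperator_zero
        | insert i s hi ih =>
          rw [Finset.sum_insert hi]
          have h2 : IsCompactOperator ((innerSL ℝ (S (b i : H))).smulRight (b i : H) : H →L[ℝ] H) := by
            have h3' : IsCompactOperator
                ((ContinuousLinearMap.id ℝ ℝ).smulRight (b i : H) : ℝ →L[ℝ] H) :=
              isCompactOperator_of_locallyCompactSpace_rng _
            have h4' := h3'.comp_clm (innerSL ℝ (S (b i : H)))
            exact h4'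
          exact h2.add ih
      exact h1 Finset.univ
    have hspan : ∀ w ∈ W, (∀ i, ⟪S (b i : H), w⟫ = 0) → w = 0 := by
      intro w hw h0
      apply hp1
      have h1 : (w : H) = ∑ i, (b.repr ⟨w, hw⟩ i) • (b i : H) := by
        have := congrArg (W.subtype) (b.sum_repr ⟨w, hw⟩)
        rw [map_sum] at this
        simpa using this.symm
      have h2 : ⟪w, S w⟫ = ∑ i, (b.repr ⟨w, hw⟩ i) * ⟪(b i : H), S w⟫ := by
        conv_lhs => rw [h1]
        rw [sum_inner]
        refine Finset.sum_congr rfl fun i _ => ?_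
        rw [inner_smul_left]
        rw [← h1]
        simp
      rw [h2]
      refine Finset.sum_eq_zero fun i _ => ?_
      rw [hS, h0 i, mul_zero]
    have hinjP : ∀ x, B x + P x = 0 → x = 0 := by
      intro x hx
      have h1 : ⟪x, S (B x)⟫ + ∑ i, ⟪S (b i : H), x⟫ ^ 2 = 0 := by
        have h2 : ⟪S x, B x + P x⟫ = 0 := by rw [hx, inner_zero_right]
        rw [inner_add_right, hPx, inner_sum, ← hS] at h2
        rw [← h2]
        congr 1
        refine Finset.sum_congr rfl fun i _ => ?_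
        have e : ⟪S x, (b i : H)⟫ = ⟪S (b i : H), x⟫ := by rw [← hS, real_inner_comm]
        rw [inner_smul_right, e]
        ring
      have hbx : 0 ≤ ⟪x, S (B x)⟫ := by rw [hBx]; exact hb x
      have hsum : 0 ≤ ∑ i, ⟪S (b i : H), x⟫ ^ 2 := Finset.sum_nonneg fun i _ => sq_nonneg _
      have hs0 : ∑ i, ⟪S (b i : H), x⟫ ^ 2 = 0 := by linarith
      have hs1 : ∀ i, ⟪S (b i : H), x⟫ = 0 := by
        intro i
        have := (Finset.sum_eq_zero_iff_of_nonneg (fun i _ => sq_nonneg (⟪S (b i : H), x⟫))).1 hs0 i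
          (Finset.mem_univ i)
        exact pow_eq_zero_iff (two_ne_zero) |>.1 this
      have hPx0 : P x = 0 := by
        rw [hPx]
        exact Finset.sum_eq_zero fun i _ => by rw [hs1 i, zero_smul]
      rw [hPx0, add_zero] at hx
      exact hspan x hx hs1
    have hcomp : IsCompactOperator (K - P) := hK.sub hPc
    have hbij : ∀ y, ∃ x, B x + P x = y := by
      rcases hcomp.hasEigenvalue_or_mem_resolventSet (show (1 / 2 : ℝ) ≠ 0 by norm_num) with h | h
      · exfalso
        obtain ⟨v, hv⟩ := h.exists_hasEigenvector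
        have h1 : (K - P) v = (1 / 2 : ℝ) • v := hv.apply_eq_smul
        refine hv.2 (hinjP v ?_)
        rw [hBx, ← h1]
        simp
      · rw [spectrum.mem_resolventSet_iff] at h
        obtain ⟨u, hu⟩ := h
        intro y
        refine ⟨(↑u⁻¹ : H →L[ℝ] H) y, ?_⟩
        have h1 : (u : H →L[ℝ] H) * (↑u⁻¹ : H →L[ℝ] H) = 1 := u.mul_inv
        rw [hu] at h1
        have h2 := congrArg (fun T : H →L[ℝ] H => T y) h1
        simp only [ContinuousLinearMap.mul_apply, ContinuousLinearMap.one_apply,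
          ContinuousLinearMap.sub_apply, Algebra.algebraMap_eq_smul_one,
          ContinuousLinearMap.smul_apply] at h2
        rw [hBx]
        rw [← h2]
        rw [h2]
        have h3' := h2
        rw [← sub_eq_zero] at h3' ⊢
        rw [← h3']
        abel
    intro e
    obtain ⟨ψ, hψ⟩ := hbij (n e)
    have hPW : P ψ ∈ W := by
      rw [hPx]
      exact W.sum_mem fun i _ => W.smul_mem _ (b i).2
    have hP0 : P ψ = 0 := by
      apply hspan _ hPW
      intro j
      have hBj : B (b j : H) = 0 := (b j).2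
      have h1 : ⟪S (b j : H), B ψ⟫ = 0 := by
        rw [← hS, hBsym, hBj, inner_zero_left]
      have h2 : ⟪S (b j : H), n e⟫ = 0 := by
        have h3' := h3 e (b j : H)
        rw [← hBx, hBj, map_zero, inner_zero_right, mul_zero] at h3'
        have : ⟪(b j : H), S (n e)⟫ = 0 := by nlinarith [sq_nonneg (⟪(b j : H), S (n e)⟫)]
        rw [← hS]
        exact this
      rw [← hψ, inner_add_right, h1, zero_add] at h2
      exact h2
    exact ⟨ψ, by rw [← hψ, hP0, add_zero]⟩
  choose ψ hψ using hsolve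
  have hval : ∀ e, ⟪ψ e, S (D (ψ e))⟫ = ⟪n e, S (n e)⟫ - (1 / 3) * V := by
    intro e
    rw [hDx, map_sub, map_smul, inner_sub_right, inner_smul_right, hBsym, hψ]
    have h1 := h4 e (ψ e)
    rw [← hBx, hψ, h5 e] at h1
    have h2 : ⟪ψ e, S (n e)⟫ = V := by rw [real_inner_comm, ← h1]
    have h3' : ⟪B (ψ e), S (B (ψ e))⟫ = ⟪n e, S (n e)⟫ := by rw [hψ]
    rw [h2]
  have hsum : ∑ e, ⟪ψ e, S (D (ψ e))⟫ = 0 := by
    simp_rw [hval]
    rw [Finset.sum_sub_distrib, h6]
    simp
  have hzero : ∀ e, ⟪ψ e, S (D (ψ e))⟫ = 0 := fun e =>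
    (Finset.sum_eq_zero_iff_of_nonneg (fun e _ => hpos (ψ e))).1 hsum e (Finset.mem_univ e)
  intro e
  have hTs : ∀ x y : H, ⟪x, (S.comp D) y⟫ = ⟪(S.comp D) x, y⟫ := by
    intro x y
    rw [ContinuousLinearMap.comp_apply, ContinuousLinearMap.comp_apply, hDsym, hS]
  have h1 := cs (S.comp D) hTs hpos (D (ψ e)) (ψ e)
  have h2 : ⟪D (ψ e), (S.comp D) (ψ e)⟫ = 0 := by
    have h3' : ⟪ψ e, (S.comp D) (ψ e)⟫ = 0 := hzero e
    rw [h3', mul_zero] at h1
    exact pow_eq_zero_iff (two_ne_zero) |>.1 (le_antisymm h1 (sq_nonneg _))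
  have h3' : D (ψ e) = 0 := hp1 _ h2
  rw [hDx, hψ, hBx] at h3'
  have : K (n e) = (1 / 2 : ℝ) • n e - (1 / 3 : ℝ) • n e := by
    rw [← sub_eq_zero, ← neg_eq_zero, ← h3']
    module
  rw [this]
  module

end Pool.Agent.H934R3.NP.Abs
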