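import Pool.Agent.H934R3.NP.Stmts2
import Pool.Agent.H934R3.NP.Abs

set_option autoImplicit false
set_option maxHeartbeats 4000000

open MeasureTheory Set Filter Topology
open scoped ENNReal NNReal

namespace Pool.Agent.H934R3.NP

theorem assembly (a1 : TaskA1) (a2 : TaskA2) (a3 : TaskA3) (a4 : TaskA4) (b1 : TaskB1)
    (b2 : TaskB2) (b3 : TaskB3) (b4 : TaskB4) (c1 : TaskC1) (c2 : TaskC2) (c3 : TaskC3)
    (c4 : TaskC4) (d1 : TaskD1) (d3 : TaskD3) (d4 : TaskD4) (d5 : TaskD5) (d6 : TaskD6)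
    (f1 : TaskF1) (f2 : TaskF2) (f3 : TaskF3) (f4 : TaskF4) (h1 : TaskH1) (h2 : TaskH2)
    (h3 : TaskH3) (j1 : TaskJ1) (j2 : TaskJ2) (m1 : TaskM1) (m2 : TaskM2) (m3 : TaskM3)
    (m4 : TaskM4) (m5 : TaskM5) (m6 : TaskM6) (m7 : TaskM7) (m8 : TaskM8) (m9 : TaskM9)
    (m10 : TaskM10) (m11 : TaskM11) :
    ∀ g : EuclideanSpace ℝ (Fin 3) → ℝ,
      ContDiff ℝ ((⊤ : ℕ∞) : WithTop ℕ∞) g →
      (∀ x, g x = 0 → gradient g x ≠ 0) →
      (∃ R : ℝ, ∀ x, R ≤ ‖x‖ → 0 < g x) →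
      Set.Nonempty {x | g x = 0} →
      SimplyConnectedSpace {x | g x = 0} →
      ∀ σ : Measure (EuclideanSpace ℝ (Fin 3)),
        σ = (ENNReal.ofReal (4 * Real.pi) /
              Measure.hausdorffMeasure 2 (Metric.sphere (0 : EuclideanSpace ℝ (Fin 3)) 1)) •
            (Measure.hausdorffMeasure 2).restrict {x | g x = 0} →
      ∀ P : ℝ → Prop,
        (∀ t : ℝ, P t ↔ ∃ φ : EuclideanSpace ℝ (Fin 3) → ℝ,
            MemLp φ 2 σ ∧ ¬ Filter.EventuallyEq (ae σ) φ 0 ∧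
            ∀ᵐ x ∂σ, (1 / (4 * Real.pi)) *
                (∫ y, inner ℝ (x - y) (gradient g x) /
                    (‖gradient g x‖ * ‖x - y‖ ^ 3) * φ y ∂σ) = t * φ x) →
        (∃ t : ℝ, P t ∧ t ≠ 1 / 2 ∧ 1 / 6 ≤ t) ∧
        ((∀ t : ℝ, P t → t ≠ 1 / 2 → t ≤ 1 / 6) ↔
          ∃ c : EuclideanSpace ℝ (Fin 3), ∃ r : ℝ, 0 < r ∧ {x | g x = 0} = Metric.sphere c r) := by
  intro g hsm hreg hpos hne hsc σ hσ P hP
  have hg : Surf g := ⟨hsm, hreg, hpos, hne⟩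
  have hσ' : σ = sig g := hσ
  subst hσ'
  have gg : GG := m2 (a4 a1 a2 a3)
  have sb : ∀ g : E → ℝ, Surf g → SurfBd g := fun g hg => m9 b2 b3 g hg (b1 a3 g hg)
  have green : ∀ g : E → ℝ, Surf g → GREEN g := fun g hg => d3 gg d1 b4 g hg (sb g hg)
  have divk : ∀ g : E → ℝ, Surf g → DIVK g := fun g hg => d4 gg b4 g hg (sb g hg)
  have gin : GIN g := d5 gg d1 g hg (sb g hg)
  have ki : KI g := d6 b4 g hg (sb g hg) (green g hg)
  have en : ENERGY g := f1 b4 g hg (sb g hg) ki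
  have fl : FLUX g := f2 b4 g hg (sb g hg) (divk g hg)
  obtain ⟨S, Ks, K, ops⟩ := m1 c1 c2 c3 g hg (sb g hg)
  obtain ⟨n, X, vec⟩ := m6 g hg (sb g hg).1
  obtain ⟨q3, qb, qsym⟩ := m3 g hg (sb g hg) en fl S Ks K ops n X vec
  have q4 := m4 g hg (sb g hg) (green g hg) (divk g hg) S Ks K ops n X vec
  obtain ⟨q5, q6, qV⟩ := m5 gg g hg (sb g hg) en fl gin S Ks K ops n X vec
  have pos := m11 c4 g hg (sb g hg) S Ks K ops
  have hPt : ∀ t, P t ↔ ∃ φ : Lp ℝ 2 (sig g), φ ≠ 0 ∧ Ks φ = t • φ := fun t =>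
    (hP t).trans (m10 g hg S Ks K ops t)
  have key : (∀ t : ℝ, 1 / 6 < t → t < 1 / 2 → ∀ x : Lp ℝ 2 (sig g), Ks x = t • x → x = 0) →
      ∀ e, Ks (n e) = (1 / 6 : ℝ) • n e := fun hno =>
    Abs.abs S Ks ops.symS pos ops.cpt qsym qb n X (Vol g) q3 q4 q5 q6 hno
  have hn0 : ∃ e, n e ≠ 0 := by
    by_contra hcon
    push Not at hcon
    have : ∑ i, inner ℝ (n i) (S (n i)) = 0 := by
      refine Finset.sum_eq_zero fun i _ => ?_
      rw [hcon i, inner_zero_left]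
    rw [this] at q6
    linarith
  constructor
  · by_contra hcon
    push Not at hcon
    have hno : ∀ t : ℝ, 1 / 6 < t → t < 1 / 2 → ∀ x : Lp ℝ 2 (sig g), Ks x = t • x → x = 0 := by
      intro t ht1 ht2 x hx
      by_contra hx0
      have := hcon t ((hPt t).2 ⟨x, hx0, hx⟩) ht2.ne
      linarith
    obtain ⟨e, he⟩ := hn0
    have h6 := hcon (1 / 6) ((hPt (1 / 6)).2 ⟨n e, he, key hno e⟩) (by norm_num)
    linarith
  · constructor
    · intro hle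
      have hno : ∀ t : ℝ, 1 / 6 < t → t < 1 / 2 → ∀ x : Lp ℝ 2 (sig g), Ks x = t • x → x = 0 := by
        intro t ht1 ht2 x hx
        by_contra hx0
        have := hle t ((hPt t).2 ⟨x, hx0, hx⟩) ht2.ne
        linarith
      have hk := key hno
      have hconn : IsPreconnected (Sg g) := by
        have h1 : PathConnectedSpace {x | g x = 0} := inferInstance
        have h2 : PreconnectedSpace {x | g x = 0} := inferInstance
        exact isPreconnected_iff_preconnectedSpace.2 h2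
      obtain ⟨c, hc⟩ := m7 f3 f4 h1 b4 g hg (sb g hg) hconn en gin (divk g hg) S Ks K ops n X vec
        q6 hk
      obtain ⟨r, hr, hS⟩ := h2 (h3 green divk sb) b4 g hg c hc
      exact ⟨c, r, hr, hS⟩
    · rintro ⟨c, r, hr, hS⟩ t hPt' ht
      obtain ⟨φ, hφ, hKφ⟩ := (hPt t).1 hPt'
      exact m8 c1 j1 j2 g hg (sb g hg) (green g hg) (divk g hg) S Ks K ops c r hr hS t φ hφ hKφ ht

end Pool.Agent.H934R3.NP
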