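import Mathlib
import Pool.Agent.H934R3.NP.Stmts

set_option autoImplicit false

open MeasureTheory Set Filter Topology

namespace Pool.Agent.H934R3.NP.D1H110

open Pool.Agent.H934R3.NP

lemma De_nonneg (ε : ℝ) (z : E) : 0 ≤ De ε z := by unfold De; positivity

lemma De_cont {ε : ℝ} (hε : 0 < ε) : Continuous (De ε) := by
  unfold De
  refine Continuous.div continuous_const (by fun_prop) ?_
  intro z
  have : 0 < Real.sqrt (‖z‖ ^ 2 + ε ^ 2) := Real.sqrt_pos.2 (by positivity)
  positivity

lemma De_scale {ε : ℝ} (hε : 0 < ε) (w : E) : ε ^ 3 * De ε (ε • w) = De 1 w := by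
  unfold De
  have h1 : ‖ε • w‖ ^ 2 + ε ^ 2 = ε ^ 2 * (‖w‖ ^ 2 + 1 ^ 2) := by
    rw [norm_smul, Real.norm_eq_abs, mul_pow, sq_abs]; ring
  rw [h1, Real.sqrt_mul (sq_nonneg ε), Real.sqrt_sq hε.le]
  have h2 : 0 < Real.sqrt (‖w‖ ^ 2 + 1 ^ 2) := Real.sqrt_pos.2 (by positivity)
  have := Real.pi_pos
  field_simp

lemma De_neg (ε : ℝ) (w : E) : De ε (-w) = De ε w := by
  unfold De; rw [norm_neg]

lemma De_one_eq (w : E) : De 1 w = 3 / (4 * Real.pi) * ((1:ℝ) + ‖w‖ ^ 2) ^ (-(5:ℝ) / 2) := by
  unfold De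
  have h0 : (0:ℝ) ≤ 1 + ‖w‖ ^ 2 := by positivity
  have h1 : Real.sqrt (‖w‖ ^ 2 + 1 ^ 2) ^ 5 = ((1:ℝ) + ‖w‖ ^ 2) ^ ((5:ℝ) / 2) := by
    rw [one_pow, add_comm, Real.sqrt_eq_rpow, ← Real.rpow_natCast, ← Real.rpow_mul h0]
    norm_num
  rw [h1, neg_div, Real.rpow_neg h0]
  have : 0 < ((1:ℝ) + ‖w‖ ^ 2) ^ ((5:ℝ) / 2) := Real.rpow_pos_of_pos (by positivity) _
  have := Real.pi_pos
  field_simp

lemma De_one_int : Integrable (De 1) (volume : Measure E) := by
  have h := (integrable_rpow_neg_one_add_norm_sq (E := E) (μ := volume) (r := 5) (by simp; norm_num)).const_mul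
    (3 / (4 * Real.pi))
  refine h.congr (Eventually.of_forall fun w => ?_)
  exact (De_one_eq w).symm

lemma hd (y : ℝ) : HasDerivAt (fun y : ℝ => 1 / (4 * Real.pi) * (y / Real.sqrt (y ^ 2 + 1)) ^ 3)
    (y ^ 2 * (3 / (4 * Real.pi * Real.sqrt (y ^ 2 + 1) ^ 5))) y := by
  have hp : 0 < y ^ 2 + 1 := by positivity
  have hs : 0 < Real.sqrt (y ^ 2 + 1) := Real.sqrt_pos.2 hp
  have h1 : HasDerivAt (fun y : ℝ => y ^ 2 + 1) (2 * y) y := by
    simpa using ((hasDerivAt_id y).pow 2).add_const 1
  have h2 := h1.sqrt hp.ne'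
  have h3 : HasDerivAt (fun y : ℝ => (y / Real.sqrt (y ^ 2 + 1)) ^ 3)
      (((3 : ℕ) : ℝ) * (y / Real.sqrt (y ^ 2 + 1)) ^ (3 - 1) *
        ((1 * Real.sqrt (y ^ 2 + 1) - y * (2 * y / (2 * Real.sqrt (y ^ 2 + 1)))) / Real.sqrt (y ^ 2 + 1) ^ 2)) y :=
    ((hasDerivAt_id y).div h2 hs.ne').pow 3
  refine (h3.const_mul (1 / (4 * Real.pi))).congr_deriv ?_
  have hsq : Real.sqrt (y ^ 2 + 1) ^ 2 = y ^ 2 + 1 := Real.sq_sqrt hp.le
  have hpi := Real.pi_pos
  generalize Real.sqrt (y ^ 2 + 1) = s at *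
  have hs' : s ^ 2 - y ^ 2 = 1 := by linarith
  have e : 1 * s - y * (2 * y / (2 * s)) = 1 / s := by
    field_simp
    linarith
  rw [e]
  norm_num
  field_simp

lemma lim1 : Tendsto (fun y : ℝ => 1 / (4 * Real.pi) * (y / Real.sqrt (y ^ 2 + 1)) ^ 3) atTop
    (𝓝 (1 / (4 * Real.pi))) := by
  have h1 : Tendsto (fun y : ℝ => y ^ 2 + 1) atTop atTop :=
    tendsto_atTop_add_const_right _ _ (tendsto_pow_atTop (by norm_num))
  have h2 : Tendsto (fun y : ℝ => Real.sqrt (1 - (y ^ 2 + 1)⁻¹)) atTop (𝓝 1) := by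
    have := (tendsto_const_nhds (x := (1:ℝ))).sub h1.inv_tendsto_atTop
    have h3 := this.sqrt
    simpa using h3
  have h3 : Tendsto (fun y : ℝ => y / Real.sqrt (y ^ 2 + 1)) atTop (𝓝 1) := by
    refine h2.congr' ?_
    filter_upwards [eventually_ge_atTop 0] with y hy
    have hp : 0 < y ^ 2 + 1 := by positivity
    have e : 1 - (y ^ 2 + 1)⁻¹ = y ^ 2 / (y ^ 2 + 1) := by field_simp; ring
    rw [e, Real.sqrt_div (sq_nonneg y), Real.sqrt_sq hy]
  have h4 := (h3.pow 3).const_mul (1 / (4 * Real.pi))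
  simpa using h4

lemma De_one_mass : ∫ w : E, De 1 w = 1 := by
  have h := integral_fun_norm_addHaar (E := E) volume (fun r : ℝ => 3 / (4 * Real.pi * Real.sqrt (r ^ 2 + 1) ^ 5))
  have e : ∀ w : E, De 1 w = (fun r : ℝ => 3 / (4 * Real.pi * Real.sqrt (r ^ 2 + 1) ^ 5)) ‖w‖ := by
    intro w; unfold De; norm_num
  simp_rw [e]
  rw [h]
  have hI : ∫ (y : ℝ) in Ioi 0, y ^ (Module.finrank ℝ E - 1) • (3 / (4 * Real.pi * Real.sqrt (y ^ 2 + 1) ^ 5)) =
      1 / (4 * Real.pi) := by
    have hf : Module.finrank ℝ E - 1 = 2 := by simp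
    rw [hf]
    have := integral_Ioi_of_hasDerivAt_of_nonneg' (a := 0)
      (g := fun y : ℝ => 1 / (4 * Real.pi) * (y / Real.sqrt (y ^ 2 + 1)) ^ 3)
      (g' := fun y : ℝ => y ^ 2 * (3 / (4 * Real.pi * Real.sqrt (y ^ 2 + 1) ^ 5)))
      (fun x _ => hd x) (fun x _ => by positivity) lim1
    simp only [smul_eq_mul]
    rw [this]
    simp
  rw [hI]
  have hv : (volume : Measure E).real (Metric.ball 0 1) = Real.pi * 4 / 3 := by
    rw [measureReal_def, EuclideanSpace.volume_ball_fin_three]
    rw [ENNReal.toReal_mul]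
    have : 0 ≤ Real.pi * 4 / 3 := by positivity
    simp [ENNReal.toReal_ofReal this]
  rw [hv]
  have hpi := Real.pi_pos
  simp
  field_simp

lemma null_plane {a : E} (ha : a ≠ 0) : volume {w : E | inner ℝ a w = 0} = 0 := by
  have h := Measure.addHaar_submodule (volume : Measure E) (LinearMap.ker (innerSL ℝ a).toLinearMap) (by
    intro h
    have : a ∈ LinearMap.ker (innerSL ℝ a).toLinearMap := by rw [h]; trivial
    rw [LinearMap.mem_ker] at this
    simp at this
    exact ha this)
  convert h using 2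
  ext w
  simp [LinearMap.mem_ker]

lemma half_mass {a : E} (ha : a ≠ 0) :
    ∫ w : E, indicator {w : E | inner ℝ a w < 0} (De 1) w = 1 / 2 := by
  have mA : MeasurableSet {w : E | inner ℝ a w < 0} :=
    (isOpen_lt (by fun_prop) continuous_const).measurableSet
  have mB : MeasurableSet {w : E | 0 < inner ℝ a w} :=
    (isOpen_lt continuous_const (by fun_prop)).measurableSet
  have h1 : ∫ w : E, indicator {w : E | inner ℝ a w < 0} (De 1) w =
      ∫ w : E, indicator {w : E | 0 < inner ℝ a w} (De 1) w := by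
    rw [← integral_neg_eq_self (fun w : E => indicator {w : E | inner ℝ a w < 0} (De 1) w) volume]
    congr 1
    funext w
    simp only [indicator, mem_ofPred_eq, inner_neg_right, De_neg, Left.neg_neg_iff]
  have h2 : ∫ w : E, De 1 w = ∫ w : E, (indicator {w : E | inner ℝ a w < 0} (De 1) w +
      indicator {w : E | 0 < inner ℝ a w} (De 1) w) := by
    apply integral_congr_ae
    have hn : ∀ᵐ w : E ∂volume, ¬ (inner ℝ a w = 0) := by
      rw [ae_iff]; simpa using null_plane ha
    filter_upwards [hn] with w hw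
    simp only [indicator, mem_ofPred_eq]
    rcases lt_or_gt_of_ne hw with h | h
    · rw [if_pos h, if_neg (not_lt.2 h.le), add_zero]
    · rw [if_neg (not_lt.2 h.le), if_pos h, zero_add]
  rw [integral_add (De_one_int.indicator mA) (De_one_int.indicator mB), De_one_mass, ← h1] at h2
  linarith

lemma Om_open {g : E → ℝ} (hg : Continuous g) : IsOpen (Om g) := isOpen_lt hg continuous_const

/-- the substitution -/
lemma subst {g h : E → ℝ} (hg : Continuous g) {ε : ℝ} (hε : 0 < ε) (y : E) :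
    ∫ z in Om g, h z * De ε (z - y) = ∫ w : E, indicator (Om g) h (y + ε • w) * De 1 w := by
  have mO : MeasurableSet (Om g) := (Om_open hg).measurableSet
  rw [← integral_indicator mO]
  have e1 : ∀ z, indicator (Om g) (fun z => h z * De ε (z - y)) z = indicator (Om g) h z * De ε (z - y) := by
    intro z
    by_cases hz : z ∈ Om g
    · rw [indicator_of_mem hz, indicator_of_mem hz]
    · rw [indicator_of_notMem hz, indicator_of_notMem hz, zero_mul]
  simp_rw [e1]
  rw [← integral_add_left_eq_self (fun z => indicator (Om g) h z * De ε (z - y)) y]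
  have h1 := Measure.integral_comp_smul (volume : Measure E)
    (fun z => indicator (Om g) h (y + z) * De ε (y + z - y)) ε
  have hf : Module.finrank ℝ E = 3 := by simp
  rw [hf, abs_of_pos (by positivity), smul_eq_mul] at h1
  have h2 : ∫ z : E, indicator (Om g) h (y + z) * De ε (y + z - y) =
      ε ^ 3 * ∫ w : E, indicator (Om g) h (y + ε • w) * De ε (y + ε • w - y) := by
    rw [h1]; field_simp
  rw [h2, ← integral_const_mul]
  congr 1
  funext w
  rw [add_sub_cancel_left, ← De_scale hε w]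
  ring

lemma bdd {g h : E → ℝ} (hS : Surf g) (hh : Continuous h) : ∃ M : ℝ, 0 ≤ M ∧ ∀ z, |indicator (Om g) h z| ≤ M := by
  obtain ⟨R, hR⟩ := hS.pos
  obtain ⟨M, hM⟩ := (isCompact_closedBall (0:E) R).exists_bound_of_continuousOn hh.continuousOn
  refine ⟨max M 0, le_max_right _ _, fun z => ?_⟩
  by_cases hz : z ∈ Om g
  · rw [indicator_of_mem hz]
    refine le_trans ?_ (le_max_left _ _)
    apply hM
    rw [mem_closedBall_zero_iff]
    by_contra hcon
    have := hR z (not_le.1 hcon).le
    exact absurd hz (not_lt.2 this.le)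
  · rw [indicator_of_notMem hz, abs_zero]; exact le_max_right _ _

lemma dom_conv {g h : E → ℝ} (hS : Surf g) (hh : Continuous h) (y : E) (f : E → ℝ)
    (hlim : ∀ᵐ w : E ∂volume, Tendsto (fun ε : ℝ => indicator (Om g) h (y + ε • w) * De 1 w) (𝓝[>] 0) (𝓝 (f w))) :
    Tendsto (fun ε : ℝ => ∫ z in Om g, h z * De ε (z - y)) (𝓝[>] 0) (𝓝 (∫ w, f w)) := by
  have hgc : Continuous g := hS.smooth.continuous
  obtain ⟨M, hM0, hM⟩ := bdd hS hh
  have mO : MeasurableSet (Om g) := (Om_open hgc).measurableSet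
  have key : Tendsto (fun ε : ℝ => ∫ w : E, indicator (Om g) h (y + ε • w) * De 1 w) (𝓝[>] 0) (𝓝 (∫ w, f w)) := by
    apply tendsto_integral_filter_of_dominated_convergence (fun w => M * De 1 w)
    · refine Eventually.of_forall fun ε => ?_
      apply Measurable.aestronglyMeasurable
      exact ((hh.measurable.indicator mO).comp (by fun_prop)).mul (De_cont one_pos).measurable
    · refine Eventually.of_forall fun ε => Eventually.of_forall fun w => ?_
      rw [Real.norm_eq_abs, abs_mul, abs_of_nonneg (De_nonneg 1 w)]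
      exact mul_le_mul_of_nonneg_right (hM _) (De_nonneg 1 w)
    · exact De_one_int.const_mul M
    · exact hlim
  refine key.congr' ?_
  filter_upwards [self_mem_nhdsWithin] with ε hε
  exact (subst hgc hε y).symm

lemma tendsto_pt (y w : E) : Tendsto (fun ε : ℝ => y + ε • w) (𝓝[>] 0) (𝓝 y) := by
  have : Continuous fun ε : ℝ => y + ε • w := by fun_prop
  have h := this.tendsto 0
  simp only [zero_smul, add_zero] at h
  exact h.mono_left nhdsWithin_le_nhds

lemma slope_lim {g : E → ℝ} (hS : Surf g) {y : E} (hy : g y = 0) (w : E) :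
    Tendsto (fun ε : ℝ => ε⁻¹ * g (y + ε • w)) (𝓝[>] 0) (𝓝 (inner ℝ (gradient g y) w)) := by
  have hdg : DifferentiableAt ℝ g y := (hS.smooth.differentiable (by simp)).differentiableAt
  have h1 : HasFDerivAt g (InnerProductSpace.toDual ℝ E (gradient g y)) y := hdg.hasGradientAt.hasFDerivAt
  have h2 : HasDerivAt (fun ε : ℝ => y + ε • w) w 0 := by
    simpa using ((hasDerivAt_id (0:ℝ)).smul_const w).const_add y
  have h1' : HasFDerivAt g (InnerProductSpace.toDual ℝ E (gradient g y)) (y + (0:ℝ) • w) := by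
    simpa using h1
  have h3 := h1'.comp_hasDerivAt (0:ℝ) h2
  have h4 := (hasDerivAt_iff_tendsto_slope.1 h3).mono_left (nhdsWithin_mono (0:ℝ) (fun x (hx : x ∈ Ioi (0:ℝ)) =>
    (ne_of_gt hx : x ≠ 0)))
  refine h4.congr' ?_ |>.trans ?_
  · filter_upwards with ε
    simp [slope, hy]
  · simp

theorem t : TaskD1 := by
  intro g hS h hh
  have hgc : Continuous g := hS.smooth.continuous
  constructor
  · intro y hy
    have hy0 : g y = 0 := hy
    have ha := hS.reg y hy0
    have hlim : ∀ᵐ w : E ∂volume, Tendsto (fun ε : ℝ => indicator (Om g) h (y + ε • w) * De 1 w) (𝓝[>] 0)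
        (𝓝 (h y * indicator {w : E | inner ℝ (gradient g y) w < 0} (De 1) w)) := by
      have hn : ∀ᵐ w : E ∂volume, ¬ (inner ℝ (gradient g y) w = 0) := by
        rw [ae_iff]; simpa using null_plane ha
      filter_upwards [hn] with w hw
      have hs := slope_lim hS hy0 w
      rcases lt_or_gt_of_ne hw with hlt | hgt
      · have hev : ∀ᶠ ε : ℝ in 𝓝[>] 0, y + ε • w ∈ Om g := by
          filter_upwards [hs.eventually (gt_mem_nhds hlt), self_mem_nhdsWithin] with ε h1 h2
          have h2' : (0:ℝ) < ε := h2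
          have : g (y + ε • w) < 0 := by
            by_contra hcon
            have h3 : 0 ≤ ε⁻¹ * g (y + ε • w) := mul_nonneg (inv_pos.2 h2').le (not_lt.1 hcon)
            linarith
          exact this
        rw [indicator_of_mem (show w ∈ {w : E | inner ℝ (gradient g y) w < 0} from hlt)]
        refine Tendsto.mul_const _ ?_
        have h5 : Tendsto (fun ε : ℝ => h (y + ε • w)) (𝓝[>] 0) (𝓝 (h y)) :=
          (hh.tendsto y).comp (tendsto_pt y w)
        refine h5.congr' ?_
        filter_upwards [hev] with ε he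
        rw [indicator_of_mem he]
      · have hev : ∀ᶠ ε : ℝ in 𝓝[>] 0, y + ε • w ∉ Om g := by
          filter_upwards [hs.eventually (lt_mem_nhds hgt), self_mem_nhdsWithin] with ε h1 h2
          have h2' : (0:ℝ) < ε := h2
          intro hcon
          have hcon' : g (y + ε • w) < 0 := hcon
          have h3 : ε⁻¹ * g (y + ε • w) ≤ 0 := mul_nonpos_of_nonneg_of_nonpos (inv_pos.2 h2').le hcon'.le
          linarith
        have hnm : w ∉ {w : E | inner ℝ (gradient g y) w < 0} := not_lt.2 hgt.le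
        rw [indicator_of_notMem hnm, mul_zero]
        refine tendsto_const_nhds.congr' ?_
        filter_upwards [hev] with ε he
        rw [indicator_of_notMem he, zero_mul]
    have := dom_conv hS hh y _ hlim
    rw [integral_const_mul, half_mass ha] at this
    convert this using 2
    ring
  · intro y hy
    have hlim : ∀ᵐ w : E ∂volume, Tendsto (fun ε : ℝ => indicator (Om g) h (y + ε • w) * De 1 w) (𝓝[>] 0)
        (𝓝 (h y * De 1 w)) := by
      refine Eventually.of_forall fun w => ?_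
      refine Tendsto.mul_const _ ?_
      have hev : ∀ᶠ ε : ℝ in 𝓝[>] 0, y + ε • w ∈ Om g :=
        (tendsto_pt y w).eventually ((Om_open hgc).mem_nhds hy)
      have h5 : Tendsto (fun ε : ℝ => h (y + ε • w)) (𝓝[>] 0) (𝓝 (h y)) :=
        (hh.tendsto y).comp (tendsto_pt y w)
      refine h5.congr' ?_
      filter_upwards [hev] with ε he
      rw [indicator_of_mem he]
    have := dom_conv hS hh y _ hlim
    rw [integral_const_mul, De_one_mass, mul_one] at this
    exact this

end Pool.Agent.H934R3.NP.D1H110
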