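import Pool.Agent.H934R3.NP.Stmts

set_option autoImplicit false
set_option maxHeartbeats 4000000

open MeasureTheory Set Filter Topology
open scoped ENNReal NNReal

namespace Pool.Agent.H934R3.NP.D3h835

/-- radial factor of `dGe` -/
noncomputable def rc (ε : ℝ) (w : E) : ℝ := -(1 / (4 * Real.pi * Real.sqrt (‖w‖ ^ 2 + ε ^ 2) ^ 3))

lemma dGe_eq (ε : ℝ) (w : E) : dGe ε w = rc ε w • w := rfl

lemma s_pos {ε : ℝ} (hε : 0 < ε) (w : E) : 0 < Real.sqrt (‖w‖ ^ 2 + ε ^ 2) :=
  Real.sqrt_pos.2 (by positivity)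

lemma norm_le_s (ε : ℝ) (w : E) : ‖w‖ ≤ Real.sqrt (‖w‖ ^ 2 + ε ^ 2) :=
  Real.le_sqrt_of_sq_le (by nlinarith [sq_nonneg ε])

lemma contDiff_rc {ε : ℝ} (hε : 0 < ε) : ContDiff ℝ 1 (rc ε) := by
  unfold rc
  have h1 : ContDiff ℝ 1 (fun w : E => ‖w‖ ^ 2 + ε ^ 2) := (contDiff_norm_sq ℝ).add contDiff_const
  have h2 : ContDiff ℝ 1 (fun w : E => Real.sqrt (‖w‖ ^ 2 + ε ^ 2)) :=
    h1.sqrt (fun w => by positivity)
  have h3 : ContDiff ℝ 1 (fun w : E => 4 * Real.pi * Real.sqrt (‖w‖ ^ 2 + ε ^ 2) ^ 3) :=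
    contDiff_const.mul (h2.pow 3)
  refine ContDiff.neg (contDiff_const.div h3 (fun w => ?_))
  have := s_pos hε w
  positivity

/-- radial derivative of `rc` -/
lemma fderiv_rc_self {ε : ℝ} (hε : 0 < ε) (w : E) :
    fderiv ℝ (rc ε) w w = 3 * ‖w‖ ^ 2 / (4 * Real.pi * Real.sqrt (‖w‖ ^ 2 + ε ^ 2) ^ 5) := by
  have hd : DifferentiableAt ℝ (rc ε) w := (contDiff_rc hε).differentiable (by norm_num) w
  have hline : HasDerivAt (fun t : ℝ => w + (t - 1) • w) w 1 := by
    have := ((hasDerivAt_id (1 : ℝ)).sub_const 1).smul_const w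
    simpa using this.const_add w
  have h1 : HasDerivAt (fun t : ℝ => rc ε (w + (t - 1) • w)) (fderiv ℝ (rc ε) w w) 1 := by
    have h := hd.hasFDerivAt
    have e : w + ((1 : ℝ) - 1) • w = w := by simp
    exact HasFDerivAt.comp_hasDerivAt (f := fun t : ℝ => w + (t - 1) • w) 1 (by rw [e]; exact h) hline
  have hn : ∀ t : ℝ, ‖w + (t - 1) • w‖ ^ 2 = t ^ 2 * ‖w‖ ^ 2 := by
    intro t
    have : w + (t - 1) • w = t • w := by rw [sub_smul, one_smul]; abel
    rw [this, norm_smul, mul_pow, Real.norm_eq_abs, sq_abs]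
  have h2 : HasDerivAt (fun t : ℝ => rc ε (w + (t - 1) • w))
      (3 * ‖w‖ ^ 2 / (4 * Real.pi * Real.sqrt (‖w‖ ^ 2 + ε ^ 2) ^ 5)) 1 := by
    have hfun : (fun t : ℝ => rc ε (w + (t - 1) • w)) =
        fun t : ℝ => -(1 / (4 * Real.pi * Real.sqrt (t ^ 2 * ‖w‖ ^ 2 + ε ^ 2) ^ 3)) := by
      funext t; unfold rc; rw [hn]
    rw [hfun]
    have ha : HasDerivAt (fun t : ℝ => t ^ 2 * ‖w‖ ^ 2 + ε ^ 2) (2 * ‖w‖ ^ 2) 1 := by
      have := (((hasDerivAt_id (1 : ℝ)).pow 2).mul_const (‖w‖ ^ 2)).add_const (ε ^ 2)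
      simpa using this
    have hpos : (0 : ℝ) < (1 : ℝ) ^ 2 * ‖w‖ ^ 2 + ε ^ 2 := by positivity
    have hb := ha.sqrt hpos.ne'
    have hc := (hb.pow 3).const_mul (4 * Real.pi)
    have hs : 0 < Real.sqrt ((1 : ℝ) ^ 2 * ‖w‖ ^ 2 + ε ^ 2) := Real.sqrt_pos.2 hpos
    have hne : (4 * Real.pi * Real.sqrt ((1 : ℝ) ^ 2 * ‖w‖ ^ 2 + ε ^ 2) ^ 3) ≠ 0 := by positivity
    have hd2 := (hc.inv (by simpa using hne)).neg
    have hs' := s_pos hε w
    have hpi := Real.pi_pos
    have hd3 := hd2.congr_of_eventuallyEq (f₁ := fun t : ℝ =>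
      -(1 / (4 * Real.pi * Real.sqrt (t ^ 2 * ‖w‖ ^ 2 + ε ^ 2) ^ 3)))
      (Eventually.of_forall fun t => by simp [one_div])
    refine hd3.congr_deriv ?_
    simp only [one_pow, one_mul, Pi.pow_apply]
    generalize hS : Real.sqrt (‖w‖ ^ 2 + ε ^ 2) = S at *
    have hS0 : S ≠ 0 := hs'.ne'
    field_simp
    ring
  exact h1.unique h2


lemma rc_eq {ε : ℝ} (hε : 0 < ε) (w : E) : fderiv ℝ (rc ε) w w + 3 * rc ε w = - De ε w := by
  rw [fderiv_rc_self hε]
  unfold rc De
  have hs := s_pos hε w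
  have hsq : Real.sqrt (‖w‖ ^ 2 + ε ^ 2) ^ 2 = ‖w‖ ^ 2 + ε ^ 2 := Real.sq_sqrt (by positivity)
  generalize Real.sqrt (‖w‖ ^ 2 + ε ^ 2) = S at *
  have hS0 : S ≠ 0 := hs.ne'
  have hpi := Real.pi_pos.ne'
  have : ‖w‖ ^ 2 = S ^ 2 - ε ^ 2 := by linarith
  rw [this]
  field_simp
  ring

/-- the vector field components -/
noncomputable def Fi (h : E → ℝ) (ε : ℝ) (y : E) (i : Fin 3) (z : E) : ℝ :=
  h z * (rc ε (z - y) * (z - y) i)

noncomputable def bb (i : Fin 3) : E := EuclideanSpace.single i (1 : ℝ)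

lemma contDiff_Fi {h : E → ℝ} (hh : ContDiff ℝ 1 h) {ε : ℝ} (hε : 0 < ε) (y : E) (i : Fin 3) :
    ContDiff ℝ 1 (Fi h ε y i) := by
  unfold Fi
  have h1 : ContDiff ℝ 1 (fun z : E => z - y) := contDiff_id.sub contDiff_const
  have h2 : ContDiff ℝ 1 (fun z : E => (z - y) i) := by
    have : ContDiff ℝ 1 (fun w : E => w i) :=
      (EuclideanSpace.proj i : E →L[ℝ] ℝ).contDiff
    exact this.comp h1
  exact hh.mul (((contDiff_rc hε).comp h1).mul h2)

lemma fderiv_Fi {h : E → ℝ} (hh : ContDiff ℝ 1 h) {ε : ℝ} (hε : 0 < ε) (y : E) (i : Fin 3) (z : E) :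
    fderiv ℝ (Fi h ε y i) z (bb i) =
      fderiv ℝ h z (bb i) * (rc ε (z - y) * (z - y) i) +
      h z * (fderiv ℝ (rc ε) (z - y) (bb i) * (z - y) i + rc ε (z - y)) := by
  have hh' := (hh.differentiable (by norm_num) z).hasFDerivAt
  have hr' := ((contDiff_rc hε).differentiable (by norm_num) (z - y)).hasFDerivAt
  have h1 : HasFDerivAt (fun z : E => z - y) (ContinuousLinearMap.id ℝ E) z :=
    (hasFDerivAt_id z).sub_const y
  have h2 : HasFDerivAt (fun z : E => (z - y) i) (EuclideanSpace.proj i : E →L[ℝ] ℝ) z := by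
    have : HasFDerivAt (fun w : E => w i) (EuclideanSpace.proj i : E →L[ℝ] ℝ) (z - y) :=
      (EuclideanSpace.proj i : E →L[ℝ] ℝ).hasFDerivAt
    have := this.comp z h1
    rw [ContinuousLinearMap.comp_id] at this
    exact this
  have h3 : HasFDerivAt (fun z : E => rc ε (z - y)) (fderiv ℝ (rc ε) (z - y)) z := by
    have := hr'.comp z h1
    rw [ContinuousLinearMap.comp_id] at this
    exact this
  have h4 := hh'.mul (h3.mul h2)
  have h5 : fderiv ℝ (Fi h ε y i) z = _ := h4.fderiv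
  rw [h5]
  simp [bb]
  ring

lemma sum_repr (w : E) : ∑ i : Fin 3, w i • bb i = w := by
  ext j
  simp [bb, Fin.sum_univ_three]
  fin_cases j <;> simp

lemma clm_repr (L : E →L[ℝ] ℝ) (w : E) : L w = ∑ i : Fin 3, w i * L (bb i) := by
  conv_lhs => rw [← sum_repr w]
  rw [map_sum]
  simp only [map_smul, smul_eq_mul]

lemma sum_fderiv_Fi {h : E → ℝ} (hh : ContDiff ℝ 1 h) {ε : ℝ} (hε : 0 < ε) (y : E) (z : E) :
    ∑ i : Fin 3, fderiv ℝ (Fi h ε y i) z (bb i) =
      fderiv ℝ h z (dGe ε (z - y)) - h z * De ε (z - y) := by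
  simp_rw [fderiv_Fi hh hε]
  rw [Finset.sum_add_distrib, ← Finset.mul_sum, Finset.sum_add_distrib]
  have e1 : ∑ i : Fin 3, fderiv ℝ h z (bb i) * (rc ε (z - y) * (z - y) i) =
      fderiv ℝ h z (dGe ε (z - y)) := by
    rw [dGe_eq, map_smul, clm_repr _ (z - y), smul_eq_mul, Finset.mul_sum]
    refine Finset.sum_congr rfl fun i _ => ?_
    ring
  have e2 : ∑ i : Fin 3, fderiv ℝ (rc ε) (z - y) (bb i) * (z - y) i =
      fderiv ℝ (rc ε) (z - y) (z - y) := by
    rw [clm_repr (fderiv ℝ (rc ε) (z - y)) (z - y)]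
    refine Finset.sum_congr rfl fun i _ => ?_
    ring
  have e3 : ∑ i : Fin 3, rc ε (z - y) = 3 * rc ε (z - y) := by simp
  rw [e1, e2, e3, rc_eq hε]
  ring

/-! ### the domain -/

lemma Om_sub {g : E → ℝ} {R : ℝ} (hR : ∀ x, R ≤ ‖x‖ → 0 < g x) : Om g ⊆ Metric.closedBall 0 R := by
  intro x hx
  rw [mem_closedBall_zero_iff]
  by_contra hc
  have := hR x (not_le.1 hc).le
  have h2 : g x < 0 := hx
  linarith

lemma Sg_sub {g : E → ℝ} {R : ℝ} (hR : ∀ x, R ≤ ‖x‖ → 0 < g x) : Sg g ⊆ Metric.closedBall 0 R := by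
  intro x hx
  rw [mem_closedBall_zero_iff]
  by_contra hc
  have := hR x (not_le.1 hc).le
  have h2 : g x = 0 := hx
  linarith

lemma integrableOn_Om {g : E → ℝ} (hg : Surf g) {f : E → ℝ} (hf : Continuous f) :
    IntegrableOn f (Om g) := by
  obtain ⟨R, hR⟩ := hg.pos
  exact (hf.continuousOn.integrableOn_compact (isCompact_closedBall (0 : E) R)).mono_set (Om_sub hR)

lemma measurableSet_Sg {g : E → ℝ} (hg : Surf g) : MeasurableSet (Sg g) :=
  (isClosed_eq hg.smooth.continuous continuous_const).measurableSet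

lemma measurableSet_Om {g : E → ℝ} (hg : Surf g) : MeasurableSet (Om g) :=
  (isOpen_lt hg.smooth.continuous continuous_const).measurableSet

lemma ae_mem_Sg {g : E → ℝ} (hg : Surf g) : ∀ᵐ z ∂(sig g), z ∈ Sg g := by
  unfold sig
  refine Measure.ae_smul_measure ?_ _
  exact ae_restrict_mem (measurableSet_Sg hg)

lemma continuous_gradient {g : E → ℝ} (hg : Surf g) : Continuous (gradient g) := by
  have : Continuous (fderiv ℝ g) := hg.smooth.continuous_fderiv (by simp)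
  exact (InnerProductSpace.toDual ℝ E).symm.continuous.comp this

lemma measurable_nu {g : E → ℝ} (hg : Surf g) : Measurable (nu g) := by
  have h := (continuous_gradient hg).measurable
  exact (h.norm.inv).smul h

lemma norm_nu_le (g : E → ℝ) (z : E) : ‖nu g z‖ ≤ 1 := by
  unfold nu
  rw [norm_smul, norm_inv, norm_norm]
  by_cases h : ‖gradient g z‖ = 0
  · simp [h]
  · rw [inv_mul_cancel₀ h]

lemma bdd_on_Sg {g : E → ℝ} (hg : Surf g) {f : E → ℝ} (hf : Continuous f) :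
    ∃ M : ℝ, 0 ≤ M ∧ ∀ z ∈ Sg g, |f z| ≤ M := by
  obtain ⟨R, hR⟩ := hg.pos
  obtain ⟨M, hM⟩ := (isCompact_closedBall (0 : E) R).exists_bound_of_continuousOn hf.continuousOn
  exact ⟨max M 0, le_max_right _ _, fun z hz => (hM z (Sg_sub hR hz)).trans (le_max_left _ _)⟩

lemma bdd_on_Om {g : E → ℝ} (hg : Surf g) {F : Type*} [NormedAddCommGroup F] {f : E → F}
    (hf : Continuous f) :
    ∃ M : ℝ, 0 ≤ M ∧ ∀ z ∈ Om g, ‖f z‖ ≤ M := by
  obtain ⟨R, hR⟩ := hg.pos
  obtain ⟨M, hM⟩ := (isCompact_closedBall (0 : E) R).exists_bound_of_continuousOn hf.continuousOn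
  exact ⟨max M 0, le_max_right _ _, fun z hz => (hM z (Om_sub hR hz)).trans (le_max_left _ _)⟩

lemma integrable_bdry {g : E → ℝ} (hg : Surf g) (hfin : IsFiniteMeasure (sig g)) {f : E → ℝ}
    (hf : Continuous f) (v : E) : Integrable (fun z => f z * inner ℝ (nu g z) v) (sig g) := by
  obtain ⟨M, hM0, hM⟩ := bdd_on_Sg hg hf
  refine Integrable.of_bound (C := M * ‖v‖) ?_ ?_
  · exact (hf.measurable.mul ((measurable_nu hg).inner measurable_const)).aestronglyMeasurable
  · filter_upwards [ae_mem_Sg hg] with z hz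
    rw [norm_mul]
    refine mul_le_mul (hM z hz) ?_ (norm_nonneg _) hM0
    refine (norm_inner_le_norm _ _).trans ?_
    calc ‖nu g z‖ * ‖v‖ ≤ 1 * ‖v‖ := by gcongr; exact norm_nu_le g z
      _ = ‖v‖ := one_mul _

/-- the regularised identity -/
lemma green_eps (hGG : GG) {g : E → ℝ} (hg : Surf g) (hfin : IsFiniteMeasure (sig g)) {h : E → ℝ}
    (hh : ContDiff ℝ 1 h) {ε : ℝ} (hε : 0 < ε) (y : E) :
    (∫ z in Om g, fderiv ℝ h z (dGe ε (z - y))) - ∫ z in Om g, h z * De ε (z - y) =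
      ∫ z, h z * inner ℝ (nu g z) (dGe ε (z - y)) ∂(sig g) := by
  have hGGi : ∀ i : Fin 3, ∫ z in Om g, fderiv ℝ (Fi h ε y i) z (bb i) =
      ∫ z, Fi h ε y i z * inner ℝ (nu g z) (bb i) ∂(sig g) := fun i =>
    hGG g hg _ (contDiff_Fi hh hε y i) (bb i)
  have hsum : ∑ i : Fin 3, ∫ z in Om g, fderiv ℝ (Fi h ε y i) z (bb i) =
      ∑ i : Fin 3, ∫ z, Fi h ε y i z * inner ℝ (nu g z) (bb i) ∂(sig g) :=
    Finset.sum_congr rfl fun i _ => hGGi i
  rw [← integral_finsetSum, ← integral_finsetSum] at hsum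
  · have hl : ∀ z, ∑ i : Fin 3, fderiv ℝ (Fi h ε y i) z (bb i) =
        fderiv ℝ h z (dGe ε (z - y)) - h z * De ε (z - y) := sum_fderiv_Fi hh hε y
    simp_rw [hl] at hsum
    rw [integral_sub] at hsum
    · rw [hsum]
      refine integral_congr_ae (Eventually.of_forall fun z => ?_)
      simp only [Fi]
      rw [dGe_eq, inner_smul_right]
      have : inner ℝ (nu g z) (z - y) = ∑ i : Fin 3, (z - y) i * inner ℝ (nu g z) (bb i) :=
        clm_repr (innerSL ℝ (nu g z)) (z - y)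
      rw [this, Finset.mul_sum, Finset.mul_sum]
      refine Finset.sum_congr rfl fun i _ => ?_
      ring
    · refine integrableOn_Om hg ?_
      have h1 : Continuous (fderiv ℝ h) := hh.continuous_fderiv (by simp)
      have h2 : Continuous (fun z : E => dGe ε (z - y)) := by
        simp_rw [dGe_eq]
        have : Continuous (fun z : E => z - y) := by fun_prop
        exact (((contDiff_rc hε).continuous.comp this).smul this)
      exact h1.clm_apply h2
    · refine integrableOn_Om hg ?_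
      refine hh.continuous.mul ?_
      unfold De
      refine Continuous.div (by fun_prop) (by fun_prop) (fun z => ?_)
      have := s_pos hε (z - y)
      positivity
  · intro i _
    exact integrable_bdry hg hfin (contDiff_Fi hh hε y i).continuous (bb i)
  · intro i _
    refine integrableOn_Om hg ?_
    exact ((contDiff_Fi hh hε y i).continuous_fderiv (by simp)).clm_apply continuous_const

/-! ### limits -/

lemma abs_rc_le {ε : ℝ} (w : E) (hw : w ≠ 0) : |rc ε w| ≤ 1 / (4 * Real.pi * ‖w‖ ^ 3) := by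
  unfold rc
  rw [abs_neg, abs_of_nonneg (by positivity)]
  have hw' : 0 < ‖w‖ := norm_pos_iff.2 hw
  have := norm_le_s ε w
  have hpi := Real.pi_pos
  gcongr

lemma norm_dGe_le (ε : ℝ) (w : E) : ‖dGe ε w‖ ≤ 1 / (4 * Real.pi) * (1 / ‖w‖ ^ 2) := by
  by_cases hw : w = 0
  · subst hw
    simp [dGe]
  · rw [dGe_eq, norm_smul, Real.norm_eq_abs]
    have hw' : 0 < ‖w‖ := norm_pos_iff.2 hw
    calc |rc ε w| * ‖w‖ ≤ 1 / (4 * Real.pi * ‖w‖ ^ 3) * ‖w‖ := by
          gcongr
          exact abs_rc_le w hw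
      _ = 1 / (4 * Real.pi) * (1 / ‖w‖ ^ 2) := by
          have hpi := Real.pi_pos.ne'
          field_simp

lemma tendsto_dGe (w : E) : Tendsto (fun ε : ℝ => dGe ε w) (𝓝[>] 0) (𝓝 (dG w)) := by
  by_cases hw : w = 0
  · subst hw
    have e : (fun ε : ℝ => dGe ε (0 : E)) = fun _ => dG 0 := by
      funext ε; simp [dGe, dG]
    rw [e]
    exact tendsto_const_nhds
  · have hw' : 0 < ‖w‖ := norm_pos_iff.2 hw
    have hone : ContinuousAt (fun _ : ℝ => (1 : ℝ)) 0 := continuousAt_const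
    have hden : ContinuousAt (fun ε : ℝ => 4 * Real.pi * Real.sqrt (‖w‖ ^ 2 + ε ^ 2) ^ 3) 0 := by
      fun_prop
    have hne : 4 * Real.pi * Real.sqrt (‖w‖ ^ 2 + 0 ^ 2) ^ 3 ≠ 0 := by
      have : 0 < Real.sqrt (‖w‖ ^ 2 + 0 ^ 2) := Real.sqrt_pos.2 (by positivity)
      have hpi := Real.pi_pos
      positivity
    have hrc : ContinuousAt (fun ε : ℝ => (-(1 / (4 * Real.pi * Real.sqrt (‖w‖ ^ 2 + ε ^ 2) ^ 3)))) 0 :=
      (hone.div hden hne).neg
    have hw2 : ContinuousAt (fun _ : ℝ => w) 0 := continuousAt_const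
    have hc : ContinuousAt (fun ε : ℝ => (-(1 / (4 * Real.pi * Real.sqrt (‖w‖ ^ 2 + ε ^ 2) ^ 3))) • w) 0 :=
      hrc.smul hw2
    have h2 := hc.tendsto
    have e : Real.sqrt (‖w‖ ^ 2 + 0 ^ 2) = ‖w‖ := by
      rw [zero_pow two_ne_zero, add_zero, Real.sqrt_sq (norm_nonneg _)]
    rw [e] at h2
    exact h2.mono_left nhdsWithin_le_nhds

lemma ks_eq (g : E → ℝ) (z y : E) : ks g z y = - inner ℝ (nu g z) (dG (z - y)) := by
  unfold ks nu dG
  rw [inner_smul_left, inner_smul_right, real_inner_comm]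
  simp only [RCLike.conj_to_real]
  ring

lemma abs_inner_dGe_le (g : E → ℝ) (ε : ℝ) (z y : E) :
    |inner ℝ (nu g z) (dGe ε (z - y))| ≤ |ks g z y| := by
  by_cases hw : z - y = 0
  · rw [hw]
    simp [dGe]
  · rw [ks_eq, abs_neg, dGe_eq, inner_smul_right, abs_mul]
    unfold dG
    rw [inner_smul_right, abs_mul]
    refine mul_le_mul_of_nonneg_right ?_ (abs_nonneg _)
    rw [abs_neg]
    exact (abs_rc_le _ hw).trans (le_abs_self _)

lemma inv_le_one_add (t : ℝ) (ht : 0 ≤ t) : 1 / t ≤ 1 + t ^ (-(3 / 2) : ℝ) := by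
  have h0 : 0 ≤ t ^ (-(3 / 2) : ℝ) := Real.rpow_nonneg ht _
  rcases ht.eq_or_lt with h | h
  · subst h
    simp
  · by_cases h1 : 1 ≤ t
    · have : 1 / t ≤ 1 := by
        rw [div_le_one h]; exact h1
      linarith
    · have h2 : t ^ (-1 : ℝ) ≤ t ^ (-(3 / 2) : ℝ) :=
        Real.rpow_le_rpow_of_exponent_ge h (not_le.1 h1).le (by norm_num)
      rw [Real.rpow_neg_one] at h2
      rw [one_div]
      linarith

lemma integrable_rpow {g : E → ℝ} (hb : SurfBd g) (y : E) :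
    Integrable (fun z => ‖z - y‖ ^ (-(3 / 2) : ℝ)) (sig g) := by
  obtain ⟨hfin, C, hC, h1, -⟩ := hb
  refine ⟨?_, ?_⟩
  · have : Measurable (fun z : E => ‖z - y‖ ^ (-(3 / 2) : ℝ)) :=
      (measurable_id.sub_const y).norm.pow_const _
    exact this.aestronglyMeasurable
  · rw [hasFiniteIntegral_iff_ofReal (Eventually.of_forall fun z => Real.rpow_nonneg (norm_nonneg _) _)]
    have := h1 y
    simp_rw [norm_sub_rev y] at this
    exact this.trans_lt ENNReal.ofReal_lt_top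

lemma integrable_inv {g : E → ℝ} (hb : SurfBd g) (y : E) :
    Integrable (fun z => 1 / ‖z - y‖) (sig g) := by
  have hfin := hb.1
  have h1 : Integrable (fun z => 1 + ‖z - y‖ ^ (-(3 / 2) : ℝ)) (sig g) :=
    (integrable_const 1).add (integrable_rpow hb y)
  refine h1.mono' ?_ (Eventually.of_forall fun z => ?_)
  · have : Measurable (fun z : E => 1 / ‖z - y‖) :=
      measurable_const.div (measurable_id.sub_const y).norm
    exact this.aestronglyMeasurable
  · rw [Real.norm_of_nonneg (by positivity)]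
    exact inv_le_one_add _ (norm_nonneg _)

lemma integrableOn_inv_sq (hB4 : TaskB4) {g : E → ℝ} (hg : Surf g) (y : E) :
    IntegrableOn (fun z => 1 / ‖z - y‖ ^ 2) (Om g) := by
  obtain ⟨R, hR⟩ := hg.pos
  obtain ⟨C, hC, h⟩ := hB4.1 R
  refine IntegrableOn.mono_set ?_ (Om_sub hR)
  refine ⟨?_, ?_⟩
  · have : Measurable (fun z : E => 1 / ‖z - y‖ ^ 2) :=
      measurable_const.div ((measurable_id.sub_const y).norm.pow_const 2)
    exact this.aestronglyMeasurable
  · rw [hasFiniteIntegral_iff_ofReal (Eventually.of_forall fun z => by positivity)]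
    exact (h y).trans_lt ENNReal.ofReal_lt_top

lemma measurable_dGe (ε : ℝ) (y : E) : Measurable (fun z : E => dGe ε (z - y)) := by
  unfold dGe
  have h1 : Measurable (fun z : E => z - y) := measurable_id.sub_const y
  have h2 : Measurable (fun z : E => -(1 / (4 * Real.pi * √(‖z - y‖ ^ 2 + ε ^ 2) ^ 3))) := by
    have h3 : Measurable (fun z : E => 4 * Real.pi * √(‖z - y‖ ^ 2 + ε ^ 2) ^ 3) := by fun_prop
    exact (measurable_const.div h3).neg
  exact h2.smul h1

/-- interior limit -/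
lemma lim_int (hB4 : TaskB4) {g : E → ℝ} (hg : Surf g) {h : E → ℝ} (hh : ContDiff ℝ 1 h) (y : E) :
    Tendsto (fun ε : ℝ => ∫ z in Om g, fderiv ℝ h z (dGe ε (z - y))) (𝓝[>] 0)
      (𝓝 (∫ z in Om g, fderiv ℝ h z (dG (z - y)))) := by
  have hc : Continuous (fderiv ℝ h) := hh.continuous_fderiv (by simp)
  obtain ⟨M, hM0, hM⟩ := bdd_on_Om hg hc
  refine tendsto_integral_filter_of_dominated_convergence
    (fun z => M * (1 / (4 * Real.pi) * (1 / ‖z - y‖ ^ 2))) ?_ ?_ ?_ ?_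
  · refine Eventually.of_forall fun ε => ?_
    have : Measurable (fun z => fderiv ℝ h z (dGe ε (z - y))) := by
      have h2 := measurable_dGe ε y
      have e : (fun z => fderiv ℝ h z (dGe ε (z - y))) =
          fun z => ∑ i : Fin 3, (dGe ε (z - y)) i * fderiv ℝ h z (bb i) := by
        funext z
        exact clm_repr _ _
      rw [e]
      refine Finset.measurable_sum _ fun i _ => ?_
      refine Measurable.mul ?_ (hc.clm_apply continuous_const).measurable
      exact (EuclideanSpace.proj i : E →L[ℝ] ℝ).measurable.comp h2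
    exact this.aestronglyMeasurable
  · refine Eventually.of_forall fun ε => ?_
    filter_upwards [ae_restrict_mem (measurableSet_Om hg)] with z hz
    refine (ContinuousLinearMap.le_opNorm _ _).trans ?_
    exact mul_le_mul (hM z hz) (norm_dGe_le _ _) (norm_nonneg _) hM0
  · exact ((integrableOn_inv_sq hB4 hg y).const_mul _).const_mul _
  · refine Eventually.of_forall fun z => ?_
    exact ((fderiv ℝ h z).continuous.tendsto _).comp (tendsto_dGe (z - y))

/-- boundary limit -/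
lemma lim_bdry {g : E → ℝ} (hg : Surf g) (hb : SurfBd g) {h : E → ℝ} (hh : Continuous h)
    {y : E} (hy : y ∈ Sg g) :
    Tendsto (fun ε : ℝ => ∫ z, h z * inner ℝ (nu g z) (dGe ε (z - y)) ∂(sig g)) (𝓝[>] 0)
      (𝓝 (∫ z, h z * inner ℝ (nu g z) (dG (z - y)) ∂(sig g))) := by
  obtain ⟨M, hM0, hM⟩ := bdd_on_Sg hg hh
  obtain ⟨hfin, C, hC, h1, h2⟩ := id hb
  refine tendsto_integral_filter_of_dominated_convergence
    (fun z => M * (C * (1 / ‖z - y‖))) ?_ ?_ ?_ ?_
  · refine Eventually.of_forall fun ε => ?_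
    exact (hh.measurable.mul ((measurable_nu hg).inner (measurable_dGe ε y))).aestronglyMeasurable
  · refine Eventually.of_forall fun ε => ?_
    filter_upwards [ae_mem_Sg hg] with z hz
    rw [norm_mul]
    refine mul_le_mul (hM z hz) ?_ (norm_nonneg _) hM0
    rw [Real.norm_eq_abs]
    refine (abs_inner_dGe_le g ε z y).trans ((h2 z hz y hy).trans_eq ?_)
    ring
  · exact ((integrable_inv hb y).const_mul _).const_mul _
  · refine Eventually.of_forall fun z => ?_
    have hcont : Continuous fun v : E => h z * inner ℝ (nu g z) v := by fun_prop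
    exact (hcont.tendsto _).comp (tendsto_dGe (z - y))

theorem taskD3 : TaskD3 := by
  intro hGG hD1 hB4 g hg hb h hh y hy
  have hfin := hb.1
  have l1 := lim_int hB4 hg hh y
  have l2 := (hD1 g hg h hh.continuous).1 y hy
  have l3 := lim_bdry hg hb hh.continuous hy
  have l4 := l1.sub l2
  have l5 : Tendsto (fun ε : ℝ => ∫ z, h z * inner ℝ (nu g z) (dGe ε (z - y)) ∂(sig g)) (𝓝[>] 0)
      (𝓝 ((∫ z in Om g, fderiv ℝ h z (dG (z - y))) - h y / 2)) := by
    refine l4.congr' ?_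
    filter_upwards [self_mem_nhdsWithin] with ε hε
    exact green_eps hGG hg hfin hh hε y
  have key := tendsto_nhds_unique l3 l5
  have e : ∫ z, h z * inner ℝ (nu g z) (dG (z - y)) ∂(sig g) = - ∫ z, h z * ks g z y ∂(sig g) := by
    rw [← integral_neg]
    refine integral_congr_ae (Eventually.of_forall fun z => ?_)
    simp only [ks_eq]
    ring
  rw [e] at key
  linarith

end Pool.Agent.H934R3.NP.D3h835

namespace Pool.Agent.H934R3.NP

theorem taskD3 : TaskD3 := D3h835.taskD3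

end Pool.Agent.H934R3.NP
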