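import Pool.Agent.H934R3.NP.Stmts

set_option autoImplicit false
set_option maxHeartbeats 4000000

open MeasureTheory Set Filter Topology
open scoped ENNReal NNReal

namespace Pool.Agent.H934R3.NP.F1

/-- Schur finiteness. -/
theorem schur_finite {α : Type*} [MeasurableSpace α] (μ : Measure α) [SFinite μ]
    (κ : α → α → ℝ≥0∞) (hκ : Measurable (Function.uncurry κ)) (C : ℝ≥0∞) (hC : C ≠ ⊤)
    (h1 : ∀ᵐ x ∂μ, ∫⁻ y, κ x y ∂μ ≤ C) (h2 : ∀ᵐ y ∂μ, ∫⁻ x, κ x y ∂μ ≤ C)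
    (a b : α → ℝ≥0∞) (ha : Measurable a) (hb : Measurable b)
    (ha2 : ∫⁻ x, a x ^ 2 ∂μ ≠ ⊤) (hb2 : ∫⁻ x, b x ^ 2 ∂μ ≠ ⊤) :
    ∫⁻ x, ∫⁻ y, a x * b y * κ x y ∂μ ∂μ ≠ ⊤ := by
  have key : ∀ x y, a x * b y * κ x y ≤ a x ^ 2 * κ x y + b y ^ 2 * κ x y := by
    intro x y
    rw [← add_mul]
    gcongr
    rcases le_total (a x) (b y) with h | h
    · calc a x * b y ≤ b y * b y := by gcongr
        _ = b y ^ 2 := by ring
        _ ≤ _ := le_add_self
    · calc a x * b y ≤ a x * a x := by gcongr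
        _ = a x ^ 2 := by ring
        _ ≤ _ := le_self_add
  have hI1 : ∫⁻ x, ∫⁻ y, a x ^ 2 * κ x y ∂μ ∂μ ≤ (∫⁻ x, a x ^ 2 ∂μ) * C := by
    rw [← lintegral_mul_const _ (ha.pow_const 2)]
    apply lintegral_mono_ae
    filter_upwards [h1] with x hx
    have hm2 : Measurable fun y => κ x y := hκ.comp measurable_prodMk_left
    rw [lintegral_const_mul _ hm2]
    exact mul_le_mul_right hx _
  have hI2 : ∫⁻ x, ∫⁻ y, b y ^ 2 * κ x y ∂μ ∂μ ≤ (∫⁻ x, b x ^ 2 ∂μ) * C := by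
    have hm : Measurable (Function.uncurry fun x y => b y ^ 2 * κ x y) :=
      ((hb.comp measurable_snd).pow_const 2).mul hκ
    rw [lintegral_lintegral_swap hm.aemeasurable]
    rw [← lintegral_mul_const _ (hb.pow_const 2)]
    apply lintegral_mono_ae
    filter_upwards [h2] with y hy
    have hm2 : Measurable fun x => κ x y := hκ.comp (measurable_id.prodMk measurable_const)
    rw [lintegral_const_mul _ hm2]
    exact mul_le_mul_right hy _
  refine ne_top_of_le_ne_top ?_ ((lintegral_mono fun x => lintegral_mono fun y => key x y))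
  have hm1 : Measurable (Function.uncurry fun x y => a x ^ 2 * κ x y) :=
      ((ha.comp measurable_fst).pow_const 2).mul hκ
  have : ∫⁻ x, ∫⁻ y, (a x ^ 2 * κ x y + b y ^ 2 * κ x y) ∂μ ∂μ
      = ∫⁻ x, ∫⁻ y, a x ^ 2 * κ x y ∂μ ∂μ + ∫⁻ x, ∫⁻ y, b y ^ 2 * κ x y ∂μ ∂μ := by
    have hm1' : Measurable fun x => ∫⁻ y, a x ^ 2 * κ x y ∂μ :=
      Measurable.lintegral_prod_right' hm1
    rw [← lintegral_add_left hm1']
    apply lintegral_congr
    intro x
    have hm1'' : Measurable fun y => a x ^ 2 * κ x y := hm1.comp measurable_prodMk_left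
    rw [lintegral_add_left hm1'']
  rw [this]
  exact ENNReal.add_ne_top.2 ⟨ne_top_of_le_ne_top (ENNReal.mul_ne_top ha2 hC) hI1,
    ne_top_of_le_ne_top (ENNReal.mul_ne_top hb2 hC) hI2⟩

/-- Triple Fubini. -/
theorem triple {α : Type*} [MeasurableSpace α] (μ : Measure α) [SFinite μ]
    (Φ : α → α → α → ℝ) (hΦ : Measurable fun q : α × α × α => Φ q.1 q.2.1 q.2.2)
    (hfin : ∫⁻ x, ∫⁻ y, ∫⁻ z, ‖Φ x y z‖ₑ ∂μ ∂μ ∂μ ≠ ⊤) :
    Integrable (fun p : α × α => ∫ z, Φ p.1 p.2 z ∂μ) (μ.prod μ) ∧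
    ∫ p : α × α, ∫ z, Φ p.1 p.2 z ∂μ ∂(μ.prod μ) = ∫ p : α × α, ∫ y, Φ p.1 y p.2 ∂μ ∂(μ.prod μ) := by
  have hen : Measurable fun q : α × α × α => ‖Φ q.1 q.2.1 q.2.2‖ₑ := hΦ.enorm
  -- inner two variables
  have hin : ∀ x, Measurable fun p : α × α => Φ x p.1 p.2 := fun x =>
    hΦ.comp (measurable_const.prodMk measurable_id)
  have hae : ∀ᵐ x ∂μ, Integrable (Function.uncurry (Φ x)) (μ.prod μ) := by
    have hm : Measurable fun x => ∫⁻ y, ∫⁻ z, ‖Φ x y z‖ₑ ∂μ ∂μ := by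
      have e1 : Measurable fun p : α × α => ∫⁻ z, ‖Φ p.1 p.2 z‖ₑ ∂μ := by
        apply Measurable.lintegral_prod_right' (f := fun q : (α × α) × α => ‖Φ q.1.1 q.1.2 q.2‖ₑ)
        exact hen.comp ((measurable_fst.comp measurable_fst).prodMk
          ((measurable_snd.comp measurable_fst).prodMk measurable_snd))
      exact Measurable.lintegral_prod_right' e1
    filter_upwards [ae_lt_top hm hfin] with x hx
    refine ⟨(hin x).aestronglyMeasurable, ?_⟩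
    show ∫⁻ p : α × α, ‖Φ x p.1 p.2‖ₑ ∂(μ.prod μ) < ⊤
    rw [lintegral_prod _ (hin x).enorm.aemeasurable]
    exact hx
  have hmP : Measurable fun q : (α × α) × α => Φ q.1.1 q.1.2 q.2 :=
    hΦ.comp ((measurable_fst.comp measurable_fst).prodMk
          ((measurable_snd.comp measurable_fst).prodMk measurable_snd))
  have hmP' : Measurable fun q : (α × α) × α => Φ q.1.1 q.2 q.1.2 :=
    hΦ.comp ((measurable_fst.comp measurable_fst).prodMk
          (measurable_snd.prodMk (measurable_snd.comp measurable_fst)))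
  have hI : Integrable (fun q : (α × α) × α => Φ q.1.1 q.1.2 q.2) ((μ.prod μ).prod μ) := by
    refine ⟨hmP.aestronglyMeasurable, ?_⟩
    unfold HasFiniteIntegral
    rw [lintegral_prod _ hmP.enorm.aemeasurable,
      lintegral_prod _ (Measurable.lintegral_prod_right' hmP.enorm).aemeasurable]
    exact lt_top_iff_ne_top.2 hfin
  have hI' : Integrable (fun q : (α × α) × α => Φ q.1.1 q.2 q.1.2) ((μ.prod μ).prod μ) := by
    refine ⟨hmP'.aestronglyMeasurable, ?_⟩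
    unfold HasFiniteIntegral
    rw [lintegral_prod _ hmP'.enorm.aemeasurable,
      lintegral_prod _ (Measurable.lintegral_prod_right' hmP'.enorm).aemeasurable]
    refine lt_top_iff_ne_top.2 (ne_of_eq_of_ne ?_ hfin)
    apply lintegral_congr
    intro x
    exact lintegral_lintegral_swap (f := fun z y => ‖Φ x y z‖ₑ)
      ((hin x).enorm.comp measurable_swap).aemeasurable
  refine ⟨hI.integral_prod_left, ?_⟩
  rw [integral_prod _ hI.integral_prod_left, integral_prod _ hI'.integral_prod_left]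
  apply integral_congr_ae
  filter_upwards [hae] with x hx
  exact integral_integral_swap hx

theorem norm_dG (w : E) : ‖dG w‖ = 1 / (4 * Real.pi * ‖w‖ ^ 2) := by
  unfold dG
  rw [norm_smul, norm_neg, Real.norm_eq_abs, abs_of_nonneg (by positivity)]
  by_cases h : ‖w‖ = 0
  · simp [h]
  · field_simp

theorem measurable_dG : Measurable dG := by
  unfold dG
  exact Measurable.fun_smul
    ((measurable_const).div (measurable_const.mul (measurable_norm.pow_const 3))).neg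
    measurable_id

theorem measurable_G : Measurable G := by
  unfold G
  exact (measurable_const).div (measurable_const.mul measurable_norm)

theorem four_pi_ge : (1 : ℝ) ≤ 4 * Real.pi := by
  have := Real.pi_gt_three
  linarith

theorem norm_dG_le (w : E) : ‖dG w‖ ≤ 1 / ‖w‖ ^ 2 := by
  rw [norm_dG]
  by_cases h : ‖w‖ = 0
  · simp [h]
  · have h1 : 0 < ‖w‖ ^ 2 := by positivity
    apply one_div_le_one_div_of_le h1
    nlinarith [four_pi_ge]

theorem abs_G_le (w : E) : |G w| ≤ 1 / ‖w‖ := by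
  unfold G
  rw [abs_of_nonneg (by positivity)]
  by_cases h : ‖w‖ = 0
  · simp [h]
  · have h1 : 0 < ‖w‖ := by positivity
    apply one_div_le_one_div_of_le h1
    nlinarith [four_pi_ge]

theorem measurable_ks (g : E → ℝ) (hg : Surf g) :
    Measurable (Function.uncurry (ks g)) := by
  have hgr : Continuous (gradient g) := by
    have h1 : Continuous (fderiv ℝ g) := hg.smooth.continuous_fderiv (by simp)
    unfold gradient
    exact (InnerProductSpace.toDual ℝ E).symm.continuous.comp h1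
  have h1 : Measurable fun p : E × E => gradient g p.1 := hgr.measurable.comp measurable_fst
  have h2 : Measurable fun p : E × E => p.1 - p.2 := measurable_fst.sub measurable_snd
  unfold ks Function.uncurry
  exact measurable_const.mul ((h2.inner h1).div (h1.norm.mul (h2.norm.pow_const 3)))

/-- composed kernel -/
theorem comp_bound {α : Type*} [MeasurableSpace α] (μ : Measure α) [SFinite μ]
    (κ : α → α → ℝ≥0∞) (hκ : Measurable (Function.uncurry κ)) (D : ℝ≥0∞)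
    (h1 : ∀ᵐ x ∂μ, ∫⁻ y, κ x y ∂μ ≤ D) :
    ∀ᵐ x ∂μ, ∫⁻ y, ∫⁻ z, κ x z * κ z y ∂μ ∂μ ≤ D * D := by
  filter_upwards [h1] with x hx
  have hm : Measurable (Function.uncurry fun y z => κ x z * κ z y) :=
    (hκ.comp (measurable_const.prodMk measurable_snd)).mul
      (hκ.comp (measurable_snd.prodMk measurable_fst))
  rw [lintegral_lintegral_swap hm.aemeasurable]
  calc ∫⁻ z, ∫⁻ y, κ x z * κ z y ∂μ ∂μ ≤ ∫⁻ z, κ x z * D ∂μ := by
        apply lintegral_mono_ae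
        filter_upwards [h1] with z hz
        have hm2 : Measurable fun y => κ z y := hκ.comp measurable_prodMk_left
        rw [lintegral_const_mul _ hm2]
        exact mul_le_mul_right hz _
    _ = (∫⁻ z, κ x z ∂μ) * D := by
        have hm2 : Measurable fun y => κ x y := hκ.comp measurable_prodMk_left
        rw [lintegral_mul_const _ hm2]
    _ ≤ D * D := mul_le_mul_left hx _

theorem pot_le (t D : ℝ) (ht : 0 ≤ t) (htD : t ≤ D) (hD : 1 ≤ D) :
    1 / t ≤ D * t ^ (-(3 / 2) : ℝ) := by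
  rcases ht.eq_or_lt with rfl | h0
  · rw [Real.zero_rpow (by norm_num)]; simp
  · have h1 : 1 / t = t ^ (1 / 2 : ℝ) * t ^ (-(3 / 2) : ℝ) := by
      rw [← Real.rpow_add h0, one_div, ← Real.rpow_neg_one]
      norm_num
    rw [h1]
    have h2 : t ^ (1 / 2 : ℝ) ≤ D := by
      calc t ^ (1 / 2 : ℝ) ≤ D ^ (1 / 2 : ℝ) := Real.rpow_le_rpow ht htD (by norm_num)
        _ ≤ D ^ (1 : ℝ) := Real.rpow_le_rpow_of_exponent_le hD (by norm_num)
        _ = D := Real.rpow_one D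
    gcongr

/-- pointwise product formula for the inner product of the two fields -/
theorem inner_uu (μ : Measure E) [IsFiniteMeasure μ] (φ ψ : E → ℝ) (z : E)
    (h1 : Integrable (fun y => φ y • dG (z - y)) μ) (h2 : Integrable (fun y => ψ y • dG (z - y)) μ) :
    inner ℝ (uu μ φ z) (uu μ ψ z) =
      ∫ p : E × E, φ p.1 * ψ p.2 * inner ℝ (dG (z - p.1)) (dG (z - p.2)) ∂(μ.prod μ) := by
  have hc : ∀ (f : E → E), Integrable f μ → ∀ i : Fin 3, (∫ y, f y ∂μ) i = ∫ y, f y i ∂μ := by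
    intro f hf i
    exact ((EuclideanSpace.proj i : E →L[ℝ] ℝ).integral_comp_comm hf).symm
  have hci : ∀ (f : E → E), Integrable f μ → ∀ i : Fin 3, Integrable (fun y => f y i) μ := by
    intro f hf i
    exact (EuclideanSpace.proj i : E →L[ℝ] ℝ).integrable_comp hf
  have hL : inner ℝ (uu μ φ z) (uu μ ψ z) = ∑ i : Fin 3,
      (∫ y, (φ y • dG (z - y)) i ∂μ) * (∫ y, (ψ y • dG (z - y)) i ∂μ) := by
    rw [PiLp.inner_apply]
    apply Finset.sum_congr rfl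
    intro i _
    simp only [uu]
    rw [hc _ h1 i, hc _ h2 i]
    simp [mul_comm]
  rw [hL]
  have h3 : ∀ i : Fin 3, (∫ y, (φ y • dG (z - y)) i ∂μ) * (∫ y, (ψ y • dG (z - y)) i ∂μ) =
      ∫ p : E × E, (φ p.1 • dG (z - p.1)) i * (ψ p.2 • dG (z - p.2)) i ∂(μ.prod μ) := fun i =>
    (integral_prod_mul (μ := μ) (ν := μ) (fun y => (φ y • dG (z - y)) i)
      (fun y => (ψ y • dG (z - y)) i)).symm
  rw [Finset.sum_congr rfl fun i _ => h3 i, ← integral_finset_sum]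
  · apply integral_congr_ae
    refine Filter.Eventually.of_forall fun p => ?_
    simp only []
    rw [PiLp.inner_apply, Finset.mul_sum]
    apply Finset.sum_congr rfl
    intro i _
    simp
    ring
  · intro i _
    exact (hci _ h1 i).mul_prod (hci _ h2 i)

theorem lp_sq (μ : Measure E) (φ : Lp ℝ 2 μ) : ∫⁻ x, ‖φ x‖ₑ ^ 2 ∂μ ≠ ⊤ := by
  have h := (Lp.memLp φ).integrable_sq.hasFiniteIntegral
  unfold HasFiniteIntegral at h
  simp only [enorm_pow] at h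
  exact h.ne

theorem sig_singleton (g : E → ℝ) (x : E) : sig g {x} = 0 := by
  have hna : NullSingletonClass (Measure.hausdorffMeasure 2 : Measure E) :=
    Measure.nullSingletonClass_hausdorff E (by norm_num)
  simp [sig]

theorem sig_compl (g : E → ℝ) (hg : Surf g) : ∀ᵐ x ∂(sig g), x ∈ Sg g := by
  have hcl : IsClosed (Sg g) := isClosed_eq hg.smooth.continuous continuous_const
  rw [ae_iff]
  show sig g (Sg g)ᶜ = 0
  have : (Sg g)ᶜ ∩ {x | g x = 0} = ∅ := by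
    ext x; simp [Sg]
  simp [sig, Measure.restrict_apply hcl.measurableSet.compl, this]

/-- the kernel `1/|x-y|` -/
noncomputable def kap (x y : E) : ℝ≥0∞ := ENNReal.ofReal (1 / ‖x - y‖)

theorem kap_meas : Measurable (Function.uncurry kap) :=
  ENNReal.measurable_ofReal.comp (measurable_const.div (measurable_fst.sub measurable_snd).norm)

theorem kap_meas2 {α : Type*} [MeasurableSpace α] {f g : α → E} (hf : Measurable f)
    (hg : Measurable g) : Measurable fun a => kap (f a) (g a) :=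
  ENNReal.measurable_ofReal.comp (measurable_const.div (hf.sub hg).norm)

theorem k_meas2 {α : Type*} [MeasurableSpace α] {k : E → E → ℝ}
    (hk : Measurable (Function.uncurry k)) {f g : α → E} (hf : Measurable f)
    (hg : Measurable g) : Measurable fun a => k (f a) (g a) :=
  hk.comp (hf.prodMk hg)

theorem kap_symm (x y : E) : kap x y = kap y x := by
  simp only [kap, norm_sub_rev]

theorem kap_bound (μ : Measure E) (Sf : Set E) (R0 : ℝ) (hR0 : 0 ≤ R0)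
    (hR : ∀ x ∈ Sf, ‖x‖ ≤ R0) (hsupp : ∀ᵐ x ∂μ, x ∈ Sf) (C : ℝ)
    (hC1 : ∀ x : E, ∫⁻ y, ENNReal.ofReal (‖x - y‖ ^ (-(3 / 2) : ℝ)) ∂μ ≤ ENNReal.ofReal C) :
    ∃ D : ℝ≥0∞, D ≠ ⊤ ∧ ∀ᵐ x ∂μ, ∫⁻ y, kap x y ∂μ ≤ D := by
  set D0 : ℝ := 2 * R0 + 1 with hD0
  have hD01 : 1 ≤ D0 := by linarith
  refine ⟨ENNReal.ofReal D0 * ENNReal.ofReal C,
    ENNReal.mul_ne_top ENNReal.ofReal_ne_top ENNReal.ofReal_ne_top, ?_⟩
  filter_upwards [hsupp] with x hx
  calc ∫⁻ y, kap x y ∂μ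
      ≤ ∫⁻ y, ENNReal.ofReal D0 * ENNReal.ofReal (‖x - y‖ ^ (-(3 / 2) : ℝ)) ∂μ := by
        apply lintegral_mono_ae
        filter_upwards [hsupp] with y hy
        unfold kap
        rw [← ENNReal.ofReal_mul (by linarith)]
        apply ENNReal.ofReal_le_ofReal
        apply pot_le _ _ (norm_nonneg _) _ hD01
        have := norm_sub_le x y
        have := hR x hx
        have := hR y hy
        linarith
    _ = ENNReal.ofReal D0 * ∫⁻ y, ENNReal.ofReal (‖x - y‖ ^ (-(3 / 2) : ℝ)) ∂μ := by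
        rw [lintegral_const_mul' _ _ ENNReal.ofReal_ne_top]
    _ ≤ ENNReal.ofReal D0 * ENNReal.ofReal C := mul_le_mul_right (hC1 x) _

theorem diag_null (μ : Measure E) [SFinite μ] (h : ∀ x, μ {x} = 0) :
    ∀ᵐ p ∂(μ.prod μ), p.1 ≠ p.2 := by
  rw [ae_iff]
  have hset : {p : E × E | ¬ p.1 ≠ p.2} = {p : E × E | p.1 = p.2} := by ext p; simp
  rw [hset]
  have hms : MeasurableSet {p : E × E | p.1 = p.2} :=
    measurableSet_eq_fun measurable_fst measurable_snd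
  rw [Measure.prod_apply hms]
  have : ∀ x : E, μ (Prod.mk x ⁻¹' {p : E × E | p.1 = p.2}) = 0 := by
    intro x
    have h2 : Prod.mk x ⁻¹' {p : E × E | p.1 = p.2} = {x} := by
      ext y; simp [eq_comm]
    rw [h2, h x]
  rw [lintegral_congr this, lintegral_zero]

theorem sch (μ : Measure E) [SFinite μ] (D : ℝ≥0∞) (hDt : D ≠ ⊤)
    (hκ1 : ∀ᵐ x ∂μ, ∫⁻ y, kap x y ∂μ ≤ D) (φ ψ : E → ℝ) (hφ : Measurable φ) (hψ : Measurable ψ)
    (hφ2 : ∫⁻ x, ‖φ x‖ₑ ^ 2 ∂μ ≠ ⊤) (hψ2 : ∫⁻ x, ‖ψ x‖ₑ ^ 2 ∂μ ≠ ⊤) :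
    ∫⁻ x, ∫⁻ y, ‖φ x‖ₑ * ‖ψ y‖ₑ * kap x y ∂μ ∂μ ≠ ⊤ := by
  have hκ2 : ∀ᵐ y ∂μ, ∫⁻ x, kap x y ∂μ ≤ D := by
    filter_upwards [hκ1] with x hx
    simpa only [kap_symm] using hx
  exact schur_finite μ kap kap_meas D hDt hκ1 hκ2 _ _ hφ.enorm hψ.enorm hφ2 hψ2

theorem enorm_G_le (x y : E) : ‖G (x - y)‖ₑ ≤ kap x y := by
  rw [Real.enorm_eq_ofReal_abs]
  exact ENNReal.ofReal_le_ofReal (abs_G_le _)

/-- integrability of `phi(x) G(x-y) psi(y)` -/
theorem int_G (μ : Measure E) [SFinite μ] (D : ℝ≥0∞) (hDt : D ≠ ⊤)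
    (hκ1 : ∀ᵐ x ∂μ, ∫⁻ y, kap x y ∂μ ≤ D) (φ ψ : E → ℝ) (hφ : Measurable φ) (hψ : Measurable ψ)
    (hφ2 : ∫⁻ x, ‖φ x‖ₑ ^ 2 ∂μ ≠ ⊤) (hψ2 : ∫⁻ x, ‖ψ x‖ₑ ^ 2 ∂μ ≠ ⊤) :
    Integrable (fun p : E × E => φ p.1 * (G (p.1 - p.2) * ψ p.2)) (μ.prod μ) := by
  have hm : Measurable fun p : E × E => φ p.1 * (G (p.1 - p.2) * ψ p.2) :=
    (hφ.comp measurable_fst).mul
      ((measurable_G.comp (measurable_fst.sub measurable_snd)).mul (hψ.comp measurable_snd))
  refine ⟨hm.aestronglyMeasurable, ?_⟩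
  unfold HasFiniteIntegral
  rw [lintegral_prod _ hm.enorm.aemeasurable]
  refine lt_of_le_of_lt ?_ (lt_top_iff_ne_top.2 (sch μ D hDt hκ1 φ ψ hφ hψ hφ2 hψ2))
  apply lintegral_mono
  intro x
  apply lintegral_mono
  intro y
  simp only [enorm_mul]
  calc ‖φ x‖ₑ * (‖G (x - y)‖ₑ * ‖ψ y‖ₑ) = ‖φ x‖ₑ * ‖ψ y‖ₑ * ‖G (x - y)‖ₑ := by ring
    _ ≤ _ := mul_le_mul_right (enorm_G_le x y) _

/-- composed kernel with a constant -/
noncomputable def kap3 (μ : Measure E) (C : ℝ) (x y : E) : ℝ≥0∞ :=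
  ENNReal.ofReal C * ∫⁻ z, kap x z * kap z y ∂μ

theorem kap3_meas (μ : Measure E) [SFinite μ] (C : ℝ) :
    Measurable (Function.uncurry (kap3 μ C)) := by
  have hκκ : Measurable fun q : (E × E) × E => kap q.1.1 q.2 * kap q.2 q.1.2 :=
    Measurable.fun_mul (kap_meas2 (measurable_fst.comp measurable_fst) measurable_snd)
      (kap_meas2 measurable_snd (measurable_snd.comp measurable_fst))
  have h1 : Measurable fun p : E × E => ∫⁻ z, kap p.1 z * kap z p.2 ∂μ :=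
    Measurable.lintegral_prod_right' hκκ
  exact Measurable.fun_mul measurable_const h1

theorem kap3_symm (μ : Measure E) (C : ℝ) (x y : E) : kap3 μ C x y = kap3 μ C y x := by
  unfold kap3
  congr 1
  apply lintegral_congr
  intro z
  rw [kap_symm x z, kap_symm z y, mul_comm]

theorem kap3_bound (μ : Measure E) [SFinite μ] (C : ℝ) (D : ℝ≥0∞)
    (hκ1 : ∀ᵐ x ∂μ, ∫⁻ y, kap x y ∂μ ≤ D) :
    ∀ᵐ x ∂μ, ∫⁻ y, kap3 μ C x y ∂μ ≤ ENNReal.ofReal C * (D * D) := by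
  filter_upwards [comp_bound μ kap kap_meas D hκ1] with x hx
  unfold kap3
  rw [lintegral_const_mul' _ _ ENNReal.ofReal_ne_top]
  exact mul_le_mul_right hx _

/-- the triple kernel -/
theorem tri (μ : Measure E) [SFinite μ] (D : ℝ≥0∞) (hDt : D ≠ ⊤)
    (hκ1 : ∀ᵐ x ∂μ, ∫⁻ y, kap x y ∂μ ≤ D) (φ ψ : E → ℝ) (hφ : Measurable φ) (hψ : Measurable ψ)
    (hφ2 : ∫⁻ x, ‖φ x‖ₑ ^ 2 ∂μ ≠ ⊤) (hψ2 : ∫⁻ x, ‖ψ x‖ₑ ^ 2 ∂μ ≠ ⊤)
    (k : E → E → ℝ) (hk : Measurable (Function.uncurry k)) (C : ℝ) (hC : 0 < C)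
    (hkb : ∀ᵐ y ∂μ, ∀ᵐ z ∂μ, |k z y| ≤ C / ‖z - y‖) :
      Integrable (fun p : E × E => ∫ z, φ p.1 * ψ p.2 * (G (p.1 - z) * k z p.2) ∂μ) (μ.prod μ) ∧
      ∫ p : E × E, ∫ z, φ p.1 * ψ p.2 * (G (p.1 - z) * k z p.2) ∂μ ∂(μ.prod μ) =
      ∫ p : E × E, ∫ y, φ p.1 * ψ y * (G (p.1 - p.2) * k p.2 y) ∂μ ∂(μ.prod μ) := by
  have hm : Measurable fun q : E × E × E =>
      φ q.1 * ψ q.2.1 * (G (q.1 - q.2.2) * k q.2.2 q.2.1) := by
    apply Measurable.mul
    · exact (hφ.comp measurable_fst).mul (hψ.comp (measurable_fst.comp measurable_snd))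
    · apply Measurable.mul
      · exact measurable_G.comp (measurable_fst.sub (measurable_snd.comp measurable_snd))
      · exact k_meas2 hk (measurable_snd.comp measurable_snd) (measurable_fst.comp measurable_snd)
  refine triple μ (fun x y z => φ x * ψ y * (G (x - z) * k z y)) hm ?_
  have hb2 : ∀ᵐ y ∂μ, ∫⁻ x, kap3 μ C x y ∂μ ≤ ENNReal.ofReal C * (D * D) := by
    filter_upwards [kap3_bound μ C D hκ1] with x hx
    simp_rw [kap3_symm μ C _ x]
    exact hx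
  have hS3 := schur_finite μ (kap3 μ C) (kap3_meas μ C) (ENNReal.ofReal C * (D * D))
    (ENNReal.mul_ne_top ENNReal.ofReal_ne_top (ENNReal.mul_ne_top hDt hDt))
    (kap3_bound μ C D hκ1) hb2 _ _
    hφ.enorm hψ.enorm hφ2 hψ2
  refine ne_top_of_le_ne_top hS3 ?_
  apply lintegral_mono
  intro x
  apply lintegral_mono_ae
  filter_upwards [hkb] with y hy
  have hcm : Measurable fun z => kap x z * kap z y :=
    Measurable.fun_mul (kap_meas2 measurable_const measurable_id)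
      (kap_meas2 measurable_id measurable_const)
  calc ∫⁻ z, ‖φ x * ψ y * (G (x - z) * k z y)‖ₑ ∂μ
      ≤ ∫⁻ z, (‖φ x‖ₑ * ‖ψ y‖ₑ * ENNReal.ofReal C) * (kap x z * kap z y) ∂μ := by
        apply lintegral_mono_ae
        filter_upwards [hy] with z hz
        simp only [enorm_mul]
        have e2 : ‖k z y‖ₑ ≤ ENNReal.ofReal C * kap z y := by
          rw [Real.enorm_eq_ofReal_abs]
          unfold kap
          rw [← ENNReal.ofReal_mul hC.le, mul_one_div]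
          exact ENNReal.ofReal_le_ofReal hz
        calc ‖φ x‖ₑ * ‖ψ y‖ₑ * (‖G (x - z)‖ₑ * ‖k z y‖ₑ)
            ≤ ‖φ x‖ₑ * ‖ψ y‖ₑ * (kap x z * (ENNReal.ofReal C * kap z y)) := by
              gcongr
              exact enorm_G_le x z
          _ = _ := by ring
    _ = (‖φ x‖ₑ * ‖ψ y‖ₑ * ENNReal.ofReal C) * ∫⁻ z, kap x z * kap z y ∂μ := by
        rw [lintegral_const_mul _ hcm]
    _ = ‖φ x‖ₑ * ‖ψ y‖ₑ * kap3 μ C x y := by
        unfold kap3; ring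

/-- the energy kernel -/
theorem int_F (μ ν : Measure E) [SFinite μ] [SFinite ν] (hν : ν ≤ volume) (D : ℝ≥0∞) (hDt : D ≠ ⊤)
    (hκ1 : ∀ᵐ x ∂μ, ∫⁻ y, kap x y ∂μ ≤ D) (hPd : ∀ᵐ p ∂(μ.prod μ), p.1 ≠ p.2)
    (C4 : ℝ) (hC4 : 0 < C4) (hB : ∀ x y : E, x ≠ y →
    ∫⁻ z : E, ENNReal.ofReal (1 / (‖z - x‖ ^ 2 * ‖z - y‖ ^ 2)) ≤ ENNReal.ofReal (C4 / ‖x - y‖))
    (φ ψ : E → ℝ) (hφ : Measurable φ) (hψ : Measurable ψ)
    (hφ2 : ∫⁻ x, ‖φ x‖ₑ ^ 2 ∂μ ≠ ⊤) (hψ2 : ∫⁻ x, ‖ψ x‖ₑ ^ 2 ∂μ ≠ ⊤) :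
    Integrable (fun q : E × E × E =>
      φ q.2.1 * ψ q.2.2 * inner ℝ (dG (q.1 - q.2.1)) (dG (q.1 - q.2.2))) (ν.prod (μ.prod μ)) := by
  have hm : Measurable fun q : E × E × E =>
      φ q.2.1 * ψ q.2.2 * inner ℝ (dG (q.1 - q.2.1)) (dG (q.1 - q.2.2)) := by
    apply Measurable.mul
    · exact (hφ.comp (measurable_fst.comp measurable_snd)).mul
        (hψ.comp (measurable_snd.comp measurable_snd))
    · exact (measurable_dG.comp (measurable_fst.sub (measurable_fst.comp measurable_snd))).inner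
        (measurable_dG.comp (measurable_fst.sub (measurable_snd.comp measurable_snd)))
  refine ⟨hm.aestronglyMeasurable, ?_⟩
  unfold HasFiniteIntegral
  rw [lintegral_prod_symm _ hm.enorm.aemeasurable]
  have hle : ∫⁻ p : E × E, ∫⁻ z, ‖φ p.1 * ψ p.2 * inner ℝ (dG (z - p.1)) (dG (z - p.2))‖ₑ ∂ν
      ∂(μ.prod μ) ≤ ∫⁻ p : E × E, ENNReal.ofReal C4 * (‖φ p.1‖ₑ * ‖ψ p.2‖ₑ * kap p.1 p.2)
      ∂(μ.prod μ) := by
    apply lintegral_mono_ae
    filter_upwards [hPd] with p hp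
    calc ∫⁻ z, ‖φ p.1 * ψ p.2 * inner ℝ (dG (z - p.1)) (dG (z - p.2))‖ₑ ∂ν
        ≤ ∫⁻ z, ‖φ p.1 * ψ p.2 * inner ℝ (dG (z - p.1)) (dG (z - p.2))‖ₑ :=
          lintegral_mono' hν le_rfl
      _ ≤ ∫⁻ z, (‖φ p.1‖ₑ * ‖ψ p.2‖ₑ) *
            ENNReal.ofReal (1 / (‖z - p.1‖ ^ 2 * ‖z - p.2‖ ^ 2)) := by
          apply lintegral_mono
          intro z
          simp only [enorm_mul]
          have e1 : ‖(inner ℝ (dG (z - p.1)) (dG (z - p.2)) : ℝ)‖ₑ ≤
              ENNReal.ofReal (1 / (‖z - p.1‖ ^ 2 * ‖z - p.2‖ ^ 2)) := by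
            rw [Real.enorm_eq_ofReal_abs]
            apply ENNReal.ofReal_le_ofReal
            calc |inner ℝ (dG (z - p.1)) (dG (z - p.2))|
                ≤ ‖dG (z - p.1)‖ * ‖dG (z - p.2)‖ := abs_real_inner_le_norm _ _
              _ ≤ (1 / ‖z - p.1‖ ^ 2) * (1 / ‖z - p.2‖ ^ 2) :=
                  mul_le_mul (norm_dG_le _) (norm_dG_le _) (norm_nonneg _) (by positivity)
              _ = _ := by rw [one_div_mul_one_div]
          exact mul_le_mul_right e1 _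
      _ = (‖φ p.1‖ₑ * ‖ψ p.2‖ₑ) *
            ∫⁻ z, ENNReal.ofReal (1 / (‖z - p.1‖ ^ 2 * ‖z - p.2‖ ^ 2)) := by
          rw [lintegral_const_mul' _ _ (ENNReal.mul_ne_top enorm_ne_top enorm_ne_top)]
      _ ≤ (‖φ p.1‖ₑ * ‖ψ p.2‖ₑ) * ENNReal.ofReal (C4 / ‖p.1 - p.2‖) :=
          mul_le_mul_right (hB _ _ hp) _
      _ = ENNReal.ofReal C4 * (‖φ p.1‖ₑ * ‖ψ p.2‖ₑ * kap p.1 p.2) := by
          unfold kap
          rw [← mul_one_div C4, ENNReal.ofReal_mul hC4.le]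
          ring
  refine lt_of_le_of_lt hle ?_
  have hm2 : Measurable fun p : E × E => ‖φ p.1‖ₑ * ‖ψ p.2‖ₑ * kap p.1 p.2 :=
    ((hφ.enorm.comp measurable_fst).mul (hψ.enorm.comp measurable_snd)).mul kap_meas
  rw [lintegral_const_mul _ hm2, lintegral_prod _ hm2.aemeasurable]
  exact ENNReal.mul_lt_top ENNReal.ofReal_lt_top
    (lt_top_iff_ne_top.2 (sch μ D hDt hκ1 φ ψ hφ hψ hφ2 hψ2))

/-- the field is an absolutely convergent integral off the surface -/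
theorem int_field (μ : Measure E) (Sf : Set E) (hcl : IsClosed Sf)
    (hsupp : ∀ᵐ x ∂μ, x ∈ Sf) (z : E) (hzS : z ∉ Sf) (φ : E → ℝ) (hφ : Measurable φ)
    (hφi : Integrable φ μ) : Integrable (fun y => φ y • dG (z - y)) μ := by
  obtain ⟨δ, hδ, hball⟩ := Metric.isOpen_iff.1 hcl.isOpen_compl z hzS
  have hmeas : Measurable fun y => φ y • dG (z - y) :=
    Measurable.fun_smul hφ (measurable_dG.comp (measurable_const.sub measurable_id))
  refine Integrable.mono' (hφi.norm.mul_const (1 / δ ^ 2)) hmeas.aestronglyMeasurable ?_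
  filter_upwards [hsupp] with y hy
  rw [norm_smul]
  have h1 : δ ≤ ‖z - y‖ := by
    by_contra h
    push Not at h
    have : y ∈ Metric.ball z δ := by
      rw [Metric.mem_ball, dist_comm, dist_eq_norm]
      exact h
    exact hball this hy
  have h2 : ‖dG (z - y)‖ ≤ 1 / δ ^ 2 := by
    refine (norm_dG_le _).trans ?_
    apply one_div_le_one_div_of_le (by positivity)
    gcongr
  gcongr

/-- abstract energy identity -/
theorem energy (μ : Measure E) [IsFiniteMeasure μ] (Sf O : Set E) (hcl : IsClosed Sf)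
    (hO : MeasurableSet O) (hOS : ∀ z ∈ O, z ∉ Sf) (hsupp : ∀ᵐ x ∂μ, x ∈ Sf)
    (hsing : ∀ x, μ {x} = 0) (D : ℝ≥0∞) (hDt : D ≠ ⊤)
    (hκ1 : ∀ᵐ x ∂μ, ∫⁻ y, kap x y ∂μ ≤ D)
    (k : E → E → ℝ) (hk : Measurable (Function.uncurry k)) (C : ℝ) (hC : 0 < C)
    (hkb : ∀ z ∈ Sf, ∀ y ∈ Sf, |k z y| ≤ C / ‖z - y‖)
    (C4 : ℝ) (hC4 : 0 < C4) (hB : ∀ x y : E, x ≠ y →
    ∫⁻ z : E, ENNReal.ofReal (1 / (‖z - x‖ ^ 2 * ‖z - y‖ ^ 2)) ≤ ENNReal.ofReal (C4 / ‖x - y‖))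
    (hKI : ∀ x ∈ Sf, ∀ y ∈ Sf, x ≠ y →
      ∫ z in O, inner ℝ (dG (z - x)) (dG (z - y)) = G (x - y) / 2 - ∫ z, G (x - z) * k z y ∂μ)
    (S Ks : Lp ℝ 2 μ →L[ℝ] Lp ℝ 2 μ) (hRS : Rep μ (fun x y => G (x - y)) S) (hRK : Rep μ k Ks)
    (φ ψ : Lp ℝ 2 μ) :
    IntegrableOn (fun z => ‖uu μ φ z‖ ^ 2) O ∧
    ∫ z in O, inner ℝ (uu μ φ z) (uu μ ψ z) = inner ℝ φ (S ((1 / 2 : ℝ) • ψ - Ks ψ)) := by
  have hφm : ∀ φ : Lp ℝ 2 μ, Measurable (φ : E → ℝ) := fun φ =>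
    (Lp.stronglyMeasurable φ).measurable
  have hP1 : ∀ᵐ p ∂(μ.prod μ), p.1 ∈ Sf := Measure.quasiMeasurePreserving_fst.ae hsupp
  have hP2 : ∀ᵐ p ∂(μ.prod μ), p.2 ∈ Sf := Measure.quasiMeasurePreserving_snd.ae hsupp
  have hPd := diag_null μ hsing
  have hF : ∀ φ ψ : Lp ℝ 2 μ, Integrable (fun q : E × E × E =>
      φ q.2.1 * ψ q.2.2 * inner ℝ (dG (q.1 - q.2.1)) (dG (q.1 - q.2.2)))
      ((volume.restrict O).prod (μ.prod μ)) := fun φ ψ =>
    int_F μ (volume.restrict O) Measure.restrict_le_self D hDt hκ1 hPd C4 hC4 hB φ ψ (hφm φ)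
      (hφm ψ) (lp_sq μ φ) (lp_sq μ ψ)
  have hIG : ∀ φ ψ : Lp ℝ 2 μ, Integrable (fun p : E × E => φ p.1 * (G (p.1 - p.2) * ψ p.2))
      (μ.prod μ) := fun φ ψ =>
    int_G μ D hDt hκ1 φ ψ (hφm φ) (hφm ψ) (lp_sq μ φ) (lp_sq μ ψ)
  have hkb' : ∀ᵐ y ∂μ, ∀ᵐ z ∂μ, |k z y| ≤ C / ‖z - y‖ := by
    filter_upwards [hsupp] with y hy
    filter_upwards [hsupp] with z hz
    exact hkb z hz y hy
  have hTri := tri μ D hDt hκ1 φ ψ (hφm φ) (hφm ψ) (lp_sq μ φ) (lp_sq μ ψ) k hk C hC hkb'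
  have hinner : ∀ φ ψ : Lp ℝ 2 μ, ∀ z ∈ O, inner ℝ (uu μ φ z) (uu μ ψ z) =
      ∫ p : E × E, φ p.1 * ψ p.2 * inner ℝ (dG (z - p.1)) (dG (z - p.2)) ∂(μ.prod μ) :=
    fun φ ψ z hzz => inner_uu μ φ ψ z
      (int_field μ Sf hcl hsupp z (hOS z hzz) φ (hφm φ) ((Lp.memLp φ).integrable one_le_two))
      (int_field μ Sf hcl hsupp z (hOS z hzz) ψ (hφm ψ) ((Lp.memLp ψ).integrable one_le_two))
  constructor
  · have h1 := (hF φ φ).integral_prod_left
    refine Integrable.congr h1 ?_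
    filter_upwards [ae_restrict_mem hO] with z hzz
    rw [← real_inner_self_eq_norm_sq, hinner φ φ z hzz]
  · have hL1 : ∫ z in O, inner ℝ (uu μ φ z) (uu μ ψ z) =
        ∫ z in O, (∫ p : E × E, φ p.1 * ψ p.2 * inner ℝ (dG (z - p.1)) (dG (z - p.2))
          ∂(μ.prod μ)) :=
      setIntegral_congr_fun hO fun z hzz => hinner φ ψ z hzz
    rw [hL1, integral_integral_swap (hF φ ψ)]
    have hA : ∫ p : E × E, (∫ z in O, φ p.1 * ψ p.2 * inner ℝ (dG (z - p.1)) (dG (z - p.2)))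
        ∂(μ.prod μ) = ∫ p : E × E, ((1 / 2 : ℝ) * (φ p.1 * (G (p.1 - p.2) * ψ p.2)) -
          ∫ z, φ p.1 * ψ p.2 * (G (p.1 - z) * k z p.2) ∂μ) ∂(μ.prod μ) := by
      apply integral_congr_ae
      filter_upwards [hP1, hP2, hPd] with p h1 h2 h3
      rw [integral_const_mul, integral_const_mul, hKI p.1 h1 p.2 h2 h3]
      ring
    rw [hA, integral_sub ((hIG φ ψ).const_mul _) hTri.1, hTri.2]
    set χ : Lp ℝ 2 μ := (1 / 2 : ℝ) • ψ - Ks ψ with hχ
    have hχae : ∀ᵐ z ∂μ, χ z = (1 / 2 : ℝ) * ψ z - ∫ y, k z y * ψ y ∂μ := by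
      filter_upwards [Lp.coeFn_sub ((1 / 2 : ℝ) • ψ) (Ks ψ), Lp.coeFn_smul (1 / 2 : ℝ) ψ, hRK ψ]
        with z h1 h2 h3
      rw [hχ, h1, Pi.sub_apply, h2, h3, Pi.smul_apply, smul_eq_mul]
    have hR1 : inner ℝ φ (S χ) = ∫ p : E × E, φ p.1 * (G (p.1 - p.2) * χ p.2) ∂(μ.prod μ) := by
      rw [L2.inner_def, integral_prod _ (hIG φ χ)]
      apply integral_congr_ae
      filter_upwards [hRS χ] with x hx
      rw [hx, integral_const_mul]
      simp [mul_comm]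
    have hin : ∀ p : E × E, ∫ y, φ p.1 * ψ y * (G (p.1 - p.2) * k p.2 y) ∂μ =
        φ p.1 * G (p.1 - p.2) * ∫ y, k p.2 y * ψ y ∂μ := by
      intro p
      rw [← integral_const_mul]
      apply integral_congr_ae
      refine Filter.Eventually.of_forall fun y => ?_
      simp only []
      ring
    have hI2 : Integrable (fun p : E × E => ∫ y, φ p.1 * ψ y * (G (p.1 - p.2) * k p.2 y) ∂μ)
        (μ.prod μ) := by
      have h1 := ((hIG φ ψ).const_mul (1 / 2 : ℝ)).sub (hIG φ χ)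
      refine h1.congr ?_
      filter_upwards [Measure.quasiMeasurePreserving_snd.ae hχae] with p hp
      simp only [Pi.sub_apply]
      rw [hp, hin p]
      ring
    rw [hR1, ← integral_sub ((hIG φ ψ).const_mul _) hI2]
    apply integral_congr_ae
    filter_upwards [Measure.quasiMeasurePreserving_snd.ae hχae] with p hp
    rw [hp, hin p]
    ring

theorem t : TaskF1 := by
  intro hB4 g hg hS hKI S Ks hRS hRK φ ψ
  obtain ⟨hfin, C, hC, hC1, hC2⟩ := hS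
  obtain ⟨-, C4, hC4, hB⟩ := hB4
  obtain ⟨R, hR⟩ := hg.pos
  have hSgR : ∀ x ∈ Sg g, ‖x‖ ≤ |R| := by
    intro x hx
    by_contra h
    push Not at h
    have := hR x ((le_abs_self R).trans h.le)
    have hx' : g x = 0 := hx
    linarith
  obtain ⟨D, hDt, hκ1⟩ := kap_bound (sig g) (Sg g) |R| (abs_nonneg R) hSgR (sig_compl g hg) C hC1
  refine energy (sig g) (Sg g) (Om g)
    (isClosed_eq hg.smooth.continuous continuous_const)
    (isOpen_lt hg.smooth.continuous continuous_const).measurableSet ?_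
    (sig_compl g hg) (sig_singleton g) D hDt hκ1 (ks g) (measurable_ks g hg) C hC hC2 C4 hC4 hB
    hKI S Ks hRS hRK φ ψ
  intro z hz h
  have h1 : g z = 0 := h
  have h2 : g z < 0 := hz
  linarith

end Pool.Agent.H934R3.NP.F1
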