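import Mathlib
import Pool.Agent.Helper843.SphA
import Pool.Agent.Helper843.SphB
import Pool.Agent.Helper843.Law
import Pool.Agent.H934R3.NP.Stmts

set_option autoImplicit false

open MeasureTheory Set
open scoped MeasureTheory ENNReal NNReal Pointwise

namespace Pool.Agent.H934R3.NP.J1

open Pool.Agent.Helper843 (SphB.cone_ratio)
open Pool.Agent.Helper843.SphA (Sp muSp_lt_top muSp_pos)

abbrev E := EuclideanSpace ℝ (Fin 3)

lemma finrankE : Module.finrank ℝ E = 2 + 1 := by simp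

lemma lint_sin (b : ℝ) (hb0 : 0 ≤ b) (hb : b ≤ Real.pi) :
    ∫⁻ θ in Ioo (0 : ℝ) b, ENNReal.ofReal (Real.sin θ) = ENNReal.ofReal (1 - Real.cos b) := by
  have h1 : ∫ θ in (0 : ℝ)..b, Real.sin θ = 1 - Real.cos b := by
    rw [integral_sin, Real.cos_zero]
  rw [intervalIntegral.integral_of_le hb0] at h1
  rw [← h1, ← restrict_Ioo_eq_restrict_Ioc]
  refine (ofReal_integral_eq_lintegral_ofReal ?_ ?_).symm
  · have : IntegrableOn Real.sin (Icc 0 b) := Real.continuous_sin.integrableOn_Icc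
    exact this.mono_set Ioo_subset_Icc_self
  · rw [Filter.EventuallyLE, ae_restrict_iff' measurableSet_Ioo]
    refine Filter.Eventually.of_forall fun θ hθ => ?_
    exact Real.sin_nonneg_of_nonneg_of_le_pi hθ.1.le (hθ.2.le.trans hb)

/-- the closed cone -/
def W (u : E) (t : ℝ) : Set E := {z : E | t ≤ inner ℝ u z / ‖z‖}

lemma meas_W (u : E) (t : ℝ) : MeasurableSet (W u t) := by
  refine measurableSet_le measurable_const ?_
  exact Measurable.div (by fun_prop) measurable_norm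

lemma cap_volume (u : E) (hu : ‖u‖ = 1) (t : ℝ) (h1 : -1 ≤ t) (h2 : t ≤ 1) :
    2 * volume (W u t ∩ Metric.ball (0 : E) 1)
      = ENNReal.ofReal (1 - t) * volume (Metric.ball (0 : E) 1) := by
  have hV : Module.finrank ℝ E = 1 + 2 := by simp
  set a := Real.arccos t with ha
  have hca : Real.cos a = t := Real.cos_arccos h1 h2
  have ha0 : 0 ≤ a := Real.arccos_nonneg t
  have hapi : a ≤ Real.pi := Real.arccos_le_pi t
  set h : ℝ → ℝ≥0∞ := (Ici t).indicator (fun _ => 1) with hh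
  have hm : Measurable h := measurable_const.indicator measurableSet_Ici
  have l1 := Pool.Agent.Helper843.Law.law_aux hV u hm
  have l2 := Pool.Agent.Helper843.Law.law_aux hV u (h := fun _ => 1) measurable_const
  have e1 : ∫⁻ z in Metric.ball (0 : E) 1, h (inner ℝ u z / ‖z‖)
      = volume (W u t ∩ Metric.ball (0 : E) 1) := by
    have e0 : ∀ z : E, h (inner ℝ u z / ‖z‖) = (W u t).indicator (fun _ => 1) z := by
      intro z
      by_cases hz : z ∈ W u t
      · rw [indicator_of_mem hz, hh, indicator_of_mem (show inner ℝ u z / ‖z‖ ∈ Ici t from hz)]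
      · rw [indicator_of_notMem hz, hh,
          indicator_of_notMem (show inner ℝ u z / ‖z‖ ∉ Ici t from fun h => hz h)]
    simp_rw [e0]
    have hms := meas_W u t
    have h1 := lintegral_indicator_const (μ := (volume : Measure E).restrict (Metric.ball (0 : E) 1)) hms (1 : ℝ≥0∞)
    rw [h1, one_mul, Measure.restrict_apply hms]
  have e2 : ∫⁻ θ in Ioo (0 : ℝ) Real.pi, ENNReal.ofReal (Real.sin θ ^ 1) * h (‖u‖ * Real.cos θ)
      = ENNReal.ofReal (1 - t) := by
    have e3 : (fun θ => ENNReal.ofReal (Real.sin θ ^ 1) * h (‖u‖ * Real.cos θ))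
        =ᵐ[volume.restrict (Ioo (0 : ℝ) Real.pi)]
          (Ioo (0 : ℝ) a).indicator (fun θ => ENNReal.ofReal (Real.sin θ)) := by
      have hne : ∀ᵐ θ ∂(volume.restrict (Ioo (0 : ℝ) Real.pi)), θ ≠ a := by
        apply ae_restrict_of_ae
        rw [ae_iff]
        simp
      filter_upwards [ae_restrict_mem measurableSet_Ioo, hne] with θ hθ hθa
      rw [hu, one_mul, pow_one]
      by_cases hc : θ < a
      · rw [indicator_of_mem (show θ ∈ Ioo (0 : ℝ) a from ⟨hθ.1, hc⟩), hh, indicator_of_mem, mul_one]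
        show t ≤ Real.cos θ
        rw [← hca]
        exact (Real.strictAntiOn_cos ⟨hθ.1.le, hθ.2.le⟩ ⟨ha0, hapi⟩ hc).le
      · rw [indicator_of_notMem (show θ ∉ Ioo (0 : ℝ) a from fun h => hc h.2), hh,
          indicator_of_notMem, mul_zero]
        show ¬ (t ≤ Real.cos θ)
        rw [← hca, not_le]
        have : a < θ := lt_of_le_of_ne (not_lt.1 hc) (Ne.symm hθa)
        exact Real.strictAntiOn_cos ⟨ha0, hapi⟩ ⟨hθ.1.le, hθ.2.le⟩ this
    rw [lintegral_congr_ae e3, lintegral_indicator measurableSet_Ioo,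
      Measure.restrict_restrict measurableSet_Ioo]
    have : Ioo (0 : ℝ) a ∩ Ioo 0 Real.pi = Ioo 0 a := by
      apply inter_eq_left.2
      exact Ioo_subset_Ioo_right hapi
    rw [this, lint_sin _ ha0 hapi, hca]
  have e3 : ∫⁻ θ in Ioo (0 : ℝ) Real.pi, ENNReal.ofReal (Real.sin θ ^ 1) * 1 = 2 := by
    simp only [pow_one, mul_one]
    rw [lint_sin _ Real.pi_pos.le le_rfl, Real.cos_pi]
    norm_num
  rw [e1, e2] at l1
  rw [e3] at l2
  simp only [lintegral_const, Measure.restrict_apply MeasurableSet.univ, univ_inter, one_mul] at l2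
  rw [l1, l2]
  ring

lemma cap_set (u : E) (hu : ‖u‖ = 1) (s : ℝ) (hs : 0 ≤ s) :
    Metric.sphere (0 : E) 1 ∩ Metric.closedBall u s = W u (1 - s ^ 2 / 2) ∩ Sp := by
  ext z
  simp only [mem_inter_iff, mem_sphere_zero_iff_norm, Metric.mem_closedBall, dist_eq_norm, W, Sp,
    Set.mem_ofPred_eq]
  rw [and_comm]
  refine and_congr_left fun hz => ?_
  rw [hz, div_one]
  have h : ‖z - u‖ ^ 2 = 2 - 2 * inner ℝ u z := by
    rw [norm_sub_sq_real, hz, hu, real_inner_comm]
    ring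
  constructor
  · intro h1
    nlinarith [norm_nonneg (z - u)]
  · intro h1
    apply le_of_sq_le_sq _ hs
    linarith

lemma unit_cap (u : E) (hu : ‖u‖ = 1) (s : ℝ) (hs0 : 0 ≤ s) (hs2 : s ≤ 2) :
    4 * μH[2] (Metric.sphere (0 : E) 1 ∩ Metric.closedBall u s)
      = ENNReal.ofReal (s ^ 2) * μH[2] Sp := by
  set t := 1 - s ^ 2 / 2 with ht
  have h1 := SphB.cone_ratio finrankE 2 Sp rfl muSp_lt_top (W u t) (meas_W u t)
    (fun r z hr => by
      show t ≤ inner ℝ u (r • z) / ‖r • z‖ ↔ t ≤ inner ℝ u z / ‖z‖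
      rw [inner_smul_right, norm_smul, Real.norm_of_nonneg hr.le, mul_div_mul_left _ _ hr.ne']) u hu
  have h2 := cap_volume u hu t (by nlinarith) (by nlinarith)
  rw [cap_set u hu s hs0, ← ht]
  have hv0 : volume (Metric.ball (0 : E) 1) ≠ 0 := (Metric.measure_ball_pos volume (0 : E) one_pos).ne'
  have hv1 : volume (Metric.ball (0 : E) 1) ≠ ⊤ := measure_ball_lt_top.ne
  apply (ENNReal.mul_left_inj hv0 hv1).1
  have h3 : (2 : ℝ≥0∞) * ENNReal.ofReal (1 - t) = ENNReal.ofReal (s ^ 2) := by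
    rw [show (2 : ℝ≥0∞) = ENNReal.ofReal 2 by norm_num, ← ENNReal.ofReal_mul (by norm_num)]
    congr 1
    rw [ht]; ring
  calc 4 * μH[2] (W u t ∩ Sp) * volume (Metric.ball (0 : E) 1)
      = 4 * (μH[2] (W u t ∩ Sp) * volume (Metric.ball (0 : E) 1)) := by ring
    _ = 2 * (2 * volume (W u t ∩ Metric.ball (0 : E) 1)) * μH[2] Sp := by rw [h1]; ring
    _ = 2 * ENNReal.ofReal (1 - t) * μH[2] Sp * volume (Metric.ball (0 : E) 1) := by rw [h2]; ring
    _ = _ := by rw [h3]

lemma Sp_eq : Metric.sphere (0 : E) 1 = Sp := by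
  ext z
  simp [Sp]

/-- the image of the unit cap under the homothety -/
lemma image_cap (c : E) (r : ℝ) (hr : 0 < r) (x : E) (ρ : ℝ) :
    Metric.sphere c r ∩ Metric.closedBall x ρ =
      (IsometryEquiv.addLeft c) '' (r • (Metric.sphere (0 : E) 1 ∩
        Metric.closedBall (r⁻¹ • (x - c)) (ρ / r))) := by
  ext z
  constructor
  · rintro ⟨hz1, hz2⟩
    rw [mem_sphere_iff_norm] at hz1
    rw [mem_closedBall_iff_norm] at hz2
    refine ⟨z - c, ?_, by simp⟩
    refine ⟨r⁻¹ • (z - c), ⟨?_, ?_⟩, ?_⟩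
    · rw [mem_sphere_zero_iff_norm, norm_smul, hz1, norm_inv, Real.norm_of_nonneg hr.le,
        inv_mul_cancel₀ hr.ne']
    · rw [mem_closedBall_iff_norm, ← smul_sub, norm_smul, norm_inv, Real.norm_of_nonneg hr.le,
        show z - c - (x - c) = z - x by abel, inv_mul_eq_div]
      gcongr
    · show r • r⁻¹ • (z - c) = z - c
      rw [smul_inv_smul₀ hr.ne']
  · rintro ⟨w, ⟨y, ⟨hy1, hy2⟩, rfl⟩, rfl⟩
    rw [mem_sphere_zero_iff_norm] at hy1
    rw [mem_closedBall_iff_norm] at hy2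
    constructor
    · rw [mem_sphere_iff_norm]
      show ‖c + r • y - c‖ = r
      rw [add_sub_cancel_left, norm_smul, hy1, mul_one, Real.norm_of_nonneg hr.le]
    · rw [mem_closedBall_iff_norm]
      show ‖c + r • y - x‖ ≤ ρ
      have e : c + r • y - x = r • (y - r⁻¹ • (x - c)) := by
        rw [smul_sub, smul_inv_smul₀ hr.ne']; abel
      rw [e, norm_smul, Real.norm_of_nonneg hr.le]
      calc r * ‖y - r⁻¹ • (x - c)‖ ≤ r * (ρ / r) := by gcongr
        _ = ρ := by field_simp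

theorem taskJ1 : TaskJ1 := by
  intro c r hr x hx ρ hρ0 hρ
  have hu : ‖r⁻¹ • (x - c)‖ = 1 := by
    rw [mem_sphere_iff_norm] at hx
    rw [norm_smul, hx, norm_inv, Real.norm_of_nonneg hr.le, inv_mul_cancel₀ hr.ne']
  have h1 := unit_cap (r⁻¹ • (x - c)) hu (ρ / r) (by positivity) (by rw [div_le_iff₀ hr]; linarith)
  rw [image_cap c r hr x ρ, IsometryEquiv.hausdorffMeasure_image,
    Measure.hausdorffMeasure_smul₀ (by norm_num) hr.ne', Sp_eq]
  rw [Sp_eq] at h1
  have hp : μH[2] Sp ≠ 0 := muSp_pos.ne'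
  have ht : μH[2] Sp ≠ ⊤ := muSp_lt_top.ne
  have hr2 : ((‖r‖₊ ^ (2 : ℝ) : ℝ≥0) : ℝ≥0∞) = ENNReal.ofReal (r ^ 2) := by
    rw [ENNReal.ofReal_eq_coe_nnreal (sq_nonneg r)]
    congr 1
    apply NNReal.eq
    simp
  have h4 : ENNReal.ofReal (4 * Real.pi) = 4 * ENNReal.ofReal Real.pi := by
    rw [ENNReal.ofReal_mul (by norm_num)]
    norm_num
  rw [ENNReal.smul_def, hr2, smul_eq_mul, h4]
  rw [show ENNReal.ofReal (Real.pi * ρ ^ 2)
    = ENNReal.ofReal Real.pi * (ENNReal.ofReal (r ^ 2) * ENNReal.ofReal ((ρ / r) ^ 2)) by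
      rw [← ENNReal.ofReal_mul (by positivity), ← ENNReal.ofReal_mul (by positivity)]
      congr 1
      field_simp]
  calc 4 * ENNReal.ofReal Real.pi / μH[2] Sp * (ENNReal.ofReal (r ^ 2) *
        μH[2] (Sp ∩ Metric.closedBall (r⁻¹ • (x - c)) (ρ / r)))
      = ENNReal.ofReal Real.pi * ENNReal.ofReal (r ^ 2) *
        (4 * μH[2] (Sp ∩ Metric.closedBall (r⁻¹ • (x - c)) (ρ / r))) * (μH[2] Sp)⁻¹ := by
        rw [div_eq_mul_inv]; ring
    _ = ENNReal.ofReal Real.pi * ENNReal.ofReal (r ^ 2) * ENNReal.ofReal ((ρ / r) ^ 2) *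
        (μH[2] Sp * (μH[2] Sp)⁻¹) := by rw [h1]; ring
    _ = _ := by rw [ENNReal.mul_inv_cancel hp ht]; ring

end Pool.Agent.H934R3.NP.J1

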