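import Pool.Agent.H934R3.NP.Stmts2

set_option autoImplicit false
set_option maxHeartbeats 4000000

open MeasureTheory Set Filter Topology
open scoped ENNReal NNReal

namespace Pool.Agent.H934R3.NP

theorem taskM10 : TaskM10 := by
  intro g hg S Ks K hO t
  have hrep := hO.repKs
  constructor
  · rintro ⟨φ, hφ, hne, hx⟩
    refine ⟨hφ.toLp φ, ?_, ?_⟩
    · intro h0
      apply hne
      have h1 := hφ.coeFn_toLp
      rw [h0] at h1
      have h2 := Lp.coeFn_zero ℝ 2 (sig g)
      exact h1.symm.trans h2
    · apply Lp.ext
      have h1 := hφ.coeFn_toLp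
      have h3 := Lp.coeFn_smul t (hφ.toLp φ)
      filter_upwards [hrep (hφ.toLp φ), h1, h3, hx] with x e1 e2 e3 e4
      rw [e1, e3, Pi.smul_apply, e2, smul_eq_mul, ← e4, ← integral_const_mul]
      apply integral_congr_ae
      filter_upwards [h1] with y hy
      simp only [ks]
      rw [hy]
      ring
  · rintro ⟨φ, hne, he⟩
    refine ⟨φ, Lp.memLp φ, ?_, ?_⟩
    · intro h0
      apply hne
      exact (Lp.eq_zero_iff_ae_eq_zero).2 h0
    · have h3 := Lp.coeFn_smul t φ
      have h4 := hrep φ
      rw [he] at h4
      filter_upwards [h4, h3] with x e1 e2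
      rw [e2] at e1
      rw [Pi.smul_apply, smul_eq_mul] at e1
      rw [e1, ← integral_const_mul]
      apply integral_congr_ae
      filter_upwards with y
      simp only [ks]
      ring

end Pool.Agent.H934R3.NP
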