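import Pool.Agent.H934R3.NP.Stmts2

set_option autoImplicit false

open MeasureTheory Set Filter Topology
open scoped ENNReal NNReal

namespace Pool.Agent.H934R3.NP.M4H128

open Pool.Agent.H934R3.NP

lemma inner_EE (w : E) (i : Fin 3) : inner ℝ w (EE i) = w i := by
  unfold EE
  rw [EuclideanSpace.inner_single_right]
  simp

lemma G_even (z : E) : G (-z) = G z := by
  unfold G; rw [norm_neg]

lemma ae_mem (g : E → ℝ) (hg : Surf g) : ∀ᵐ y ∂(sig g), y ∈ Sg g := by
  unfold sig
  refine Measure.ae_smul_measure ?_ _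
  have hm : MeasurableSet {x | g x = 0} :=
    (isClosed_singleton.preimage hg.smooth.continuous).measurableSet
  exact ae_restrict_mem hm

theorem key (g : E → ℝ) (hGr : GREEN g) (hD : DIVK g) (i : Fin 3) (y : E) (hy : y ∈ Sg g) :
    ∫ z, G (z - y) * inner ℝ (nu g z) (EE i) ∂(sig g) =
      y i / 2 - ∫ z, z i * ks g z y ∂(sig g) := by
  have h1 := hGr (fun z => z i) (by fun_prop) y hy
  have h2 := hD y (EE i)
  rw [← h2, ← h1]
  congr 1
  funext z
  rw [inner_EE]
  have hf : fderiv ℝ (fun z : E => z i) z = (EuclideanSpace.proj i : E →L[ℝ] ℝ) :=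
    (EuclideanSpace.proj i : E →L[ℝ] ℝ).fderiv
  rw [hf]
  rfl

theorem t : TaskM4 := by
  intro g hg hS hGr hD S Ks K ops n X vec i φ
  have hmain : S (n i) = (1 / 2 : ℝ) • X i - K (X i) := by
    apply Lp.ext
    have e1 := ops.repS (n i)
    have e2 := ops.repK (X i)
    have e3 := vec.hX i
    have e4 := vec.hn i
    have e5 := Lp.coeFn_sub ((1 / 2 : ℝ) • X i) (K (X i))
    have e6 := Lp.coeFn_smul (1 / 2 : ℝ) (X i)
    filter_upwards [e1, e2, e3, e5, e6, ae_mem g hg] with y h1 h2 h3 h5 h6 hy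
    rw [h1, h5, Pi.sub_apply, h6, Pi.smul_apply, h2, h3]
    have i1 : ∫ z, G (y - z) * (n i) z ∂(sig g) =
        ∫ z, G (z - y) * inner ℝ (nu g z) (EE i) ∂(sig g) := by
      refine integral_congr_ae ?_
      filter_upwards [e4] with z hz
      rw [hz, ← G_even (y - z), neg_sub]
    have i2 : ∫ z, ks g z y * (X i) z ∂(sig g) = ∫ z, z i * ks g z y ∂(sig g) := by
      refine integral_congr_ae ?_
      filter_upwards [e3] with z hz
      rw [hz, mul_comm]
    rw [i1, i2, key g hGr hD i y hy]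
    simp only [smul_eq_mul]
    ring
  rw [hmain, inner_sub_left, inner_sub_right, inner_smul_left, inner_smul_right, ops.adj φ (X i)]
  simp

end Pool.Agent.H934R3.NP.M4H128
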