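import Pool.Agent.H934R3.NP.Stmts2

set_option autoImplicit false
set_option maxHeartbeats 4000000

open MeasureTheory Set Filter Topology
open scoped ENNReal NNReal

namespace Pool.Agent.H934R3.NP.M5h151

open Pool.Agent.H934R3.NP

lemma Om_open {g : E → ℝ} (hg : Surf g) : IsOpen (Om g) :=
  isOpen_lt hg.smooth.continuous continuous_const

lemma Sg_closed {g : E → ℝ} (hg : Surf g) : IsClosed (Sg g) :=
  isClosed_eq hg.smooth.continuous continuous_const

lemma Om_fin {g : E → ℝ} (hg : Surf g) : volume (Om g) < ∞ := by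
  obtain ⟨R, hR⟩ := hg.pos
  have hsub : Om g ⊆ Metric.closedBall (0:E) R := by
    intro x hx
    rw [mem_closedBall_zero_iff]
    by_contra h
    push Not at h
    exact absurd (hR x h.le) (not_lt.mpr (le_of_lt hx))
  exact lt_of_le_of_lt (measure_mono hsub) measure_closedBall_lt_top

lemma Om_ne {g : E → ℝ} (hg : Surf g) : (Om g).Nonempty := by
  obtain ⟨p, hp⟩ := hg.ne
  by_contra h
  rw [not_nonempty_iff_eq_empty] at h
  have hp' : g p = 0 := hp
  have hmin : IsLocalMin g p := Filter.Eventually.of_forall (fun x => by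
    have : x ∉ Om g := by rw [h]; exact notMem_empty x
    show g p ≤ g x
    rw [hp']; exact not_lt.mp this)
  have h2 := hmin.fderiv_eq_zero
  apply hg.reg p hp
  simp [gradient, h2]

lemma Vol_pos {g : E → ℝ} (hg : Surf g) : 0 < Vol g := by
  unfold Vol
  exact ENNReal.toReal_pos ((Om_open hg).measure_pos volume (Om_ne hg)).ne' (Om_fin hg).ne

lemma sig_ae {g : E → ℝ} (hg : Surf g) : ∀ᵐ y ∂(sig g), y ∈ Sg g := by
  unfold sig
  apply Measure.ae_smul_measure
  exact ae_restrict_mem (Sg_closed hg).measurableSet

lemma meas_dG : Measurable dG := by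
  unfold dG
  fun_prop

lemma norm_dG_le (z : E) : ‖dG z‖ ≤ 1 / (4 * Real.pi * ‖z‖ ^ 2) := by
  unfold dG
  rw [norm_smul, norm_neg, Real.norm_eq_abs, abs_of_nonneg (by positivity)]
  by_cases hz : ‖z‖ = 0
  · simp [hz]
  · apply le_of_eq
    have := Real.pi_pos
    field_simp

/-- integrability of the kernel against an `L²` function, away from the surface -/
lemma int_kernel {g : E → ℝ} (hg : Surf g) [IsFiniteMeasure (sig g)] (φ : Lp ℝ 2 (sig g)) {z : E}
    (hz : z ∈ Om g) : Integrable (fun y => φ y • dG (z - y)) (sig g) := by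
  have hzS : z ∉ Sg g := fun h => by
    have h1 : g z = 0 := h
    have h2 : g z < 0 := hz
    linarith
  have hopen : IsOpen (Sg g)ᶜ := (Sg_closed hg).isOpen_compl
  obtain ⟨δ, hδ, hball⟩ := Metric.isOpen_iff.mp hopen z hzS
  have hφ : Integrable (fun y => φ y) (sig g) := (Lp.memLp φ).integrable (by norm_num)
  have hb : ∀ᵐ y ∂(sig g), ‖dG (z - y)‖ ≤ 1 / (4 * Real.pi * δ ^ 2) := by
    filter_upwards [sig_ae hg] with y hy
    refine le_trans (norm_dG_le _) ?_
    have hd : δ ≤ ‖z - y‖ := by
      by_contra h
      push Not at h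
      have : y ∈ Metric.ball z δ := by
        rw [Metric.mem_ball, dist_comm, dist_eq_norm]; exact h
      exact hball this hy
    have := Real.pi_pos
    gcongr
  refine hφ.smul_bdd (1 / (4 * Real.pi * δ ^ 2)) ?_ hb
  exact (meas_dG.comp (measurable_const.sub measurable_id)).aestronglyMeasurable

lemma uu_sm {g : E → ℝ} [IsFiniteMeasure (sig g)] (φ : Lp ℝ 2 (sig g)) :
    StronglyMeasurable (uu (sig g) φ) := by
  unfold uu
  have h : StronglyMeasurable (fun p : E × E => (φ p.2) • dG (p.1 - p.2)) := by
    have h1 : StronglyMeasurable (fun p : E × E => φ p.2) :=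
      (Lp.stronglyMeasurable φ).comp_measurable measurable_snd
    have h2 : StronglyMeasurable (fun p : E × E => dG (p.1 - p.2)) :=
      (meas_dG.comp (measurable_fst.sub measurable_snd)).stronglyMeasurable
    exact h1.smul h2
  exact h.integral_prod_right'

lemma EE_inner (x : E) (i : Fin 3) : inner ℝ x (EE i) = x i := by
  unfold EE
  simp [EuclideanSpace.inner_single_right]

theorem t : TaskM5 := by
  intro hGG g hg hbd hEN hFL hGI S Ks K hop n X hv
  have : IsFiniteMeasure (sig g) := hbd.1
  refine ⟨?_, ?_, Vol_pos hg⟩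
  · intro i
    rw [L2.inner_def]
    have h1 : ∫ a, inner ℝ (X i a) (n i a) ∂(sig g) =
        ∫ y, (y i) * inner ℝ (nu g y) (EE i) ∂(sig g) := by
      apply integral_congr_ae
      filter_upwards [hv.hn i, hv.hX i] with y h1 h2
      rw [h1, h2]
      simp [mul_comm]
    rw [h1]
    have hF : ContDiff ℝ 1 (fun y : E => y i) := (EuclideanSpace.proj (𝕜 := ℝ) i).contDiff
    rw [← hGG g hg (fun y => y i) hF (EE i)]
    have h2 : ∀ z : E, fderiv ℝ (fun y : E => y i) z (EE i) = 1 := by
      intro z
      have : fderiv ℝ (fun y : E => y i) z = (EuclideanSpace.proj (𝕜 := ℝ) i : E →L[ℝ] ℝ) :=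
        (EuclideanSpace.proj (𝕜 := ℝ) i : E →L[ℝ] ℝ).fderiv
      rw [this]
      simp [EE]
    simp only [h2]
    rw [setIntegral_const]
    simp [Vol, Measure.real]
  · have h1 : ∀ i, inner ℝ (n i) (S (n i)) = ∫ z in Om g, inner ℝ (uu (sig g) (n i) z) (EE i) :=
      fun i => (hFL S hop.repS (EE i) (n i) (n i) (hv.hn i)).symm
    simp only [h1]
    have hint : ∀ i, Integrable (fun z => inner ℝ (uu (sig g) (n i) z) (EE i))
        (volume.restrict (Om g)) := by
      intro i
      have : IsFiniteMeasure (volume.restrict (Om g)) :=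
        ⟨by rw [Measure.restrict_apply_univ]; exact Om_fin hg⟩
      have h2 := (hEN S Ks hop.repS hop.repKs (n i) (n i)).1
      have h3 : MemLp (uu (sig g) (n i)) 2 (volume.restrict (Om g)) :=
        (memLp_two_iff_integrable_sq_norm (uu_sm (n i)).aestronglyMeasurable).mpr h2
      have h4 : Integrable (uu (sig g) (n i)) (volume.restrict (Om g)) :=
        h3.integrable (by norm_num)
      exact h4.inner_const (EE i)
    rw [← integral_finsetSum _ (fun i _ => hint i)]
    have h5 : ∀ z ∈ Om g, ∑ i, inner ℝ (uu (sig g) (n i) z) (EE i) = 1 := by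
      intro z hz
      rw [← hGI z hz]
      have h6 : ∀ i, inner ℝ (uu (sig g) (n i) z) (EE i) =
          ∫ y, (nu g y i) * (dG (z - y) i) ∂(sig g) := by
        intro i
        have h7 := int_kernel hg (n i) hz
        unfold uu
        rw [real_inner_comm, ← integral_inner h7 (EE i)]
        apply integral_congr_ae
        filter_upwards [hv.hn i] with y hy
        rw [real_inner_comm, EE_inner]
        rw [hy, EE_inner]
        simp
      have h8 : ∀ i, Integrable (fun y => (nu g y i) * (dG (z - y) i)) (sig g) := by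
        intro i
        have h7 := Integrable.inner_const (𝕜 := ℝ) (int_kernel hg (n i) hz) (EE i)
        refine h7.congr ?_
        filter_upwards [hv.hn i] with y hy
        rw [EE_inner, hy, EE_inner]
        simp
      simp only [h6]
      rw [← integral_finsetSum _ (fun i _ => h8 i)]
      apply integral_congr_ae
      filter_upwards with y
      rw [real_inner_comm]
      simp [PiLp.inner_apply, mul_comm]
    rw [setIntegral_congr_fun (Om_open hg).measurableSet h5, setIntegral_const]
    simp [Vol, Measure.real]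

end Pool.Agent.H934R3.NP.M5h151
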