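import Pool.Agent.H934R3.NP.Stmts2

set_option autoImplicit false

/-! Task M7 of the NP project (helper133): rigidity in the case of equality. -/

namespace Pool.Agent.H934R3.NP.M7

open MeasureTheory Set Filter Topology
open scoped ENNReal NNReal
open Pool.Agent.H934R3.NP

lemma inner_EE (x : E) (i : Fin 3) : inner ℝ x (EE i) = x i := by
  simp [EE, EuclideanSpace.inner_single_right]

lemma norm_EE (i : Fin 3) : ‖EE i‖ = 1 := by
  simp [EE]

lemma inner_sum (x v : E) : inner ℝ x v = ∑ i, v i * x i := by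
  simp [PiLp.inner_apply]

lemma dG_meas : Measurable dG := by
  unfold dG
  fun_prop

lemma G_meas : Measurable G := by
  unfold G
  fun_prop

lemma grad_cont {g : E → ℝ} (hg : Surf g) : Continuous (gradient g) := by
  have h := hg.smooth.continuous_fderiv (by simp)
  exact (InnerProductSpace.toDual ℝ E).symm.continuous.comp h

lemma g_cont {g : E → ℝ} (hg : Surf g) : Continuous g := hg.smooth.continuous

lemma nu_meas {g : E → ℝ} (hg : Surf g) : Measurable (nu g) := by
  have := (grad_cont hg).measurable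
  unfold nu
  fun_prop

lemma nu_le (g : E → ℝ) (x : E) : ‖nu g x‖ ≤ 1 := by
  unfold nu
  rw [norm_smul, norm_inv, norm_norm]
  by_cases h : ‖gradient g x‖ = 0
  · rw [h]; simp
  · rw [inv_mul_cancel₀ h]

lemma closed_Sg {g : E → ℝ} (hg : Surf g) : IsClosed (Sg g) :=
  isClosed_eq (g_cont hg) continuous_const

lemma open_Om {g : E → ℝ} (hg : Surf g) : IsOpen (Om g) :=
  isOpen_lt (g_cont hg) continuous_const

lemma vol_Om {g : E → ℝ} (hg : Surf g) : volume (Om g) < ∞ := by
  obtain ⟨R, hR⟩ := hg.pos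
  refine lt_of_le_of_lt (measure_mono (t := Metric.closedBall (0 : E) R) ?_)
    (measure_closedBall_lt_top)
  intro x hx
  rw [mem_closedBall_zero_iff]
  by_contra h
  have := hR x (not_le.1 h).le
  have hx' : g x < 0 := hx
  linarith

lemma sig_ae {g : E → ℝ} (hg : Surf g) : ∀ᵐ y ∂(sig g), y ∈ Sg g := by
  unfold sig
  exact Measure.ae_smul_measure (ae_restrict_mem (closed_Sg hg).measurableSet) _

lemma dG_norm (w : E) : ‖dG w‖ = 1 / (4 * Real.pi * ‖w‖ ^ 3) * ‖w‖ := by
  unfold dG
  rw [norm_smul, norm_neg, Real.norm_eq_abs, abs_of_nonneg (by positivity)]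

lemma int_dG {g : E → ℝ} (hg : Surf g) {z : E} (hz : z ∉ Sg g) {φ : E → ℝ}
    (hφ : Integrable φ (sig g)) : Integrable (fun y => φ y • dG (z - y)) (sig g) := by
  have hop : IsOpen (Sg g)ᶜ := (closed_Sg hg).isOpen_compl
  obtain ⟨δ, hδ, hball⟩ := Metric.isOpen_iff.1 hop z hz
  have hδ' : ∀ y ∈ Sg g, δ ≤ ‖z - y‖ := by
    intro y hy
    by_contra h
    have : y ∈ Metric.ball z δ := by
      rw [Metric.mem_ball, dist_comm, dist_eq_norm]
      exact not_le.1 h
    exact hball this hy
  refine Integrable.mono' (g := fun y => (1 / (4 * Real.pi * δ ^ 2)) * ‖φ y‖)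
    (hφ.norm.const_mul _) ?_ ?_
  · exact hφ.aestronglyMeasurable.smul
      (dG_meas.comp (measurable_const.sub measurable_id)).aestronglyMeasurable
  · filter_upwards [sig_ae hg] with y hy
    have h1 := hδ' y hy
    have h2 : 0 < ‖z - y‖ := lt_of_lt_of_le hδ h1
    rw [norm_smul, dG_norm, mul_comm]
    gcongr
    calc 1 / (4 * Real.pi * ‖z - y‖ ^ 3) * ‖z - y‖ = 1 / (4 * Real.pi * ‖z - y‖ ^ 2) := by
          field_simp
      _ ≤ 1 / (4 * Real.pi * δ ^ 2) := by gcongr

lemma int_G {g : E → ℝ} (hg : Surf g) (hb : SurfBd g) (x : E) :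
    Integrable (fun y => G (x - y)) (sig g) := by
  obtain ⟨hfin, C, hC, h1, h2⟩ := hb
  have := hfin
  have h3 : Integrable (fun y => ‖x - y‖ ^ (-(3 / 2) : ℝ)) (sig g) := by
    refine ⟨?_, ?_⟩
    · apply Measurable.aestronglyMeasurable
      fun_prop
    · rw [hasFiniteIntegral_iff_norm]
      refine lt_of_le_of_lt (le_trans (le_of_eq ?_) (h1 x)) ENNReal.ofReal_lt_top
      refine lintegral_congr fun y => ?_
      rw [Real.norm_eq_abs, abs_of_nonneg (by positivity)]
  have h4 : Integrable (fun y => (1 / (4 * Real.pi)) * (1 + ‖x - y‖ ^ (-(3 / 2) : ℝ))) (sig g) :=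
    ((integrable_const _).add h3).const_mul _
  refine Integrable.mono' h4 ?_ ?_
  · exact (G_meas.comp (measurable_const.sub measurable_id)).aestronglyMeasurable
  · refine Eventually.of_forall fun y => ?_
    unfold G
    rw [Real.norm_eq_abs, abs_of_nonneg (by positivity)]
    have h5 : 1 / (4 * Real.pi * ‖x - y‖) = 1 / (4 * Real.pi) * (1 / ‖x - y‖) := by
      rw [one_div_mul_one_div]
    rw [h5]
    gcongr
    rcases eq_or_lt_of_le (norm_nonneg (x - y)) with h | h
    · rw [← h]; simp
    · by_cases h6 : 1 ≤ ‖x - y‖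
      · have : 1 / ‖x - y‖ ≤ 1 := by
          rw [div_le_one h]; exact h6
        have h7 : 0 ≤ ‖x - y‖ ^ (-(3 / 2) : ℝ) := by positivity
        linarith
      · have h6' := (not_le.1 h6).le
        have h7 : ‖x - y‖ ^ (-1 : ℝ) ≤ ‖x - y‖ ^ (-(3 / 2) : ℝ) :=
          Real.rpow_le_rpow_of_exponent_ge h h6' (by norm_num)
        rw [Real.rpow_neg_one] at h7
        rw [one_div]
        linarith

/-- Task M7 -/
theorem t : TaskM7 := by
  intro hF3 hF4 hH1 _ g hg hb hconn hE hGIN hDIVK S Ks K hops n X hvec hsum hKs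
  have hfin : IsFiniteMeasure (sig g) := hb.1
  -- the components as integrable functions
  have hnint : ∀ i, Integrable (fun y => n i y) (sig g) := fun i =>
    (Lp.memLp (n i)).integrable one_le_two
  set ν : Fin 3 → E → ℝ := fun i y => inner ℝ (nu g y) (EE i) with hν
  have hνm : ∀ i, Measurable (ν i) := fun i => by
    have := nu_meas hg
    simp only [hν]
    fun_prop
  have hν1 : ∀ i y, |ν i y| ≤ 1 := fun i y => by
    have h1 := abs_real_inner_le_norm (nu g y) (EE i)
    rw [norm_EE, mul_one] at h1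
    exact h1.trans (nu_le g y)
  -- `U i`
  set U : Fin 3 → E → E := fun i z => uu (sig g) (n i) z with hU
  have hUG : ∀ i, ∀ z ∉ Sg g, HasGradientAt (fun z => ∫ y, G (z - y) * n i y ∂(sig g)) (U i z) z ∧
      ContinuousAt (U i) z := fun i z hz => hF3 g hg hfin _ (hnint i) z hz
  have hOmSg : ∀ z ∈ Om g, z ∉ Sg g := fun z hz h => by
    have h1 : g z < 0 := hz
    have h2 : g z = 0 := h
    linarith
  have hUcont : ∀ i, ContinuousOn (U i) (Om g) := fun i z hz =>
    ((hUG i z (hOmSg z hz)).2).continuousWithinAt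
  -- energies
  have hEn : ∀ i, IntegrableOn (fun z => ‖U i z‖ ^ 2) (Om g) ∧
      ∫ z in Om g, ‖U i z‖ ^ 2 = (1 / 3) * inner ℝ (n i) (S (n i)) := by
    intro i
    obtain ⟨h1, h2⟩ := hE S Ks hops.repS hops.repKs (n i) (n i)
    refine ⟨h1, ?_⟩
    have h3 : ∫ z in Om g, ‖U i z‖ ^ 2 =
        ∫ z in Om g, inner ℝ (uu (sig g) (n i) z) (uu (sig g) (n i) z) := by
      refine integral_congr_ae (Eventually.of_forall fun z => ?_)
      simp only [hU]
      rw [real_inner_self_eq_norm_sq]
    rw [h3, h2, hKs i, ← sub_smul, map_smul, real_inner_smul_right]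
    norm_num
  have hSum : ∑ i, ∫ z in Om g, ‖U i z‖ ^ 2 = (1 / 3) * Vol g := by
    rw [← hsum, Finset.mul_sum]
    exact Finset.sum_congr rfl fun i _ => (hEn i).2
  -- Gauss
  have hdiv : ∀ z ∈ Om g, ∑ i, inner ℝ (U i z) (EE i) = 1 := by
    intro z hz
    have h1 : ∀ i, inner ℝ (U i z) (EE i) = ∫ y, n i y * (dG (z - y)) i ∂(sig g) := by
      intro i
      simp only [hU]
      unfold uu
      rw [real_inner_comm, ← integral_inner (int_dG hg (hOmSg z hz) (hnint i))]
      refine integral_congr_ae (Eventually.of_forall fun y => ?_)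
      simp only
      rw [real_inner_smul_right, real_inner_comm, inner_EE]
    have h2 : ∀ i, Integrable (fun y => n i y * (dG (z - y)) i) (sig g) := by
      intro i
      have h3 := (int_dG hg (hOmSg z hz) (hnint i)).const_inner (𝕜 := ℝ) (EE i)
      refine h3.congr (Eventually.of_forall fun y => ?_)
      simp only
      rw [real_inner_smul_right, real_inner_comm, inner_EE]
    simp_rw [h1]
    rw [← integral_finset_sum _ (fun i _ => h2 i), ← hGIN z hz]
    refine integral_congr_ae ?_
    filter_upwards [hvec.hn 0, hvec.hn 1, hvec.hn 2] with y h3 h4 h5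
    rw [inner_sum, Fin.sum_univ_three, Fin.sum_univ_three, h3, h4, h5]
    simp only [inner_EE]
  -- the defect
  set H : E → ℝ := fun z => ∑ i, ‖U i z - (1 / 3 : ℝ) • EE i‖ ^ 2 with hH
  have hH0 : ∀ z, 0 ≤ H z := fun z => Finset.sum_nonneg fun i _ => by positivity
  have hHeq : ∀ z ∈ Om g, H z = ∑ i, ‖U i z‖ ^ 2 - 1 / 3 := by
    intro z hz
    have h1 : ∀ i, ‖U i z - (1 / 3 : ℝ) • EE i‖ ^ 2 =
        ‖U i z‖ ^ 2 - (2 / 3) * inner ℝ (U i z) (EE i) + 1 / 9 := by
      intro i
      rw [norm_sub_sq_real, real_inner_smul_right, norm_smul, norm_EE]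
      norm_num
      ring
    simp only [hH]
    simp_rw [h1]
    rw [Finset.sum_add_distrib, Finset.sum_sub_distrib, ← Finset.mul_sum, hdiv z hz]
    simp
    ring
  have hOmm : MeasurableSet (Om g) := (open_Om hg).measurableSet
  have hvolfin : volume (Om g) ≠ ∞ := (vol_Om hg).ne
  have hHint : IntegrableOn H (Om g) := by
    have h1 : IntegrableOn (fun z => ∑ i, ‖U i z‖ ^ 2 - 1 / 3) (Om g) :=
      (integrable_finset_sum _ fun i _ => (hEn i).1).sub (integrableOn_const hvolfin)
    exact h1.congr_fun (fun z hz => (hHeq z hz).symm) hOmm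
  have hHzero : ∫ z in Om g, H z = 0 := by
    rw [setIntegral_congr_fun hOmm hHeq, integral_sub
      (integrable_finset_sum _ fun i _ => (hEn i).1) (integrableOn_const hvolfin),
      integral_finset_sum _ (fun i _ => (hEn i).1), hSum, setIntegral_const]
    unfold Vol
    rw [Measure.real, smul_eq_mul]
    ring
  have hHae : H =ᵐ[volume.restrict (Om g)] 0 :=
    (setIntegral_eq_zero_iff_of_nonneg_ae (Eventually.of_forall hH0) hHint).1 hHzero
  have hHcont : ContinuousOn H (Om g) := by
    simp only [hH]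
    refine continuousOn_finset_sum _ fun i _ => ?_
    exact ((hUcont i).sub continuousOn_const).norm.pow 2
  have hHall : EqOn H 0 (Om g) :=
    Measure.eqOn_open_of_ae_eq hHae (open_Om hg) hHcont continuousOn_const
  have hUeq : ∀ i, ∀ z ∈ Om g, U i z = (1 / 3 : ℝ) • EE i := by
    intro i z hz
    have h1 := hHall hz
    have h2 : ∑ i, ‖U i z - (1 / 3 : ℝ) • EE i‖ ^ 2 = 0 := h1
    rw [Finset.sum_eq_zero_iff_of_nonneg (fun i _ => by positivity)] at h2
    have h3 := h2 i (Finset.mem_univ i)
    rw [sq_eq_zero_iff, norm_eq_zero, sub_eq_zero] at h3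
    exact h3
  -- the potentials
  have hPhi : ∀ i, Continuous (fun z => ∫ y, G (z - y) * ν i y ∂(sig g)) := by
    obtain ⟨_, C, hC, h1, _⟩ := hb
    exact fun i => hF4 (sig g) hfin C hC h1 (ν i) (hνm i) (hν1 i)
  have hPhieq : ∀ i z, (∫ y, G (z - y) * n i y ∂(sig g)) = ∫ y, G (z - y) * ν i y ∂(sig g) := by
    intro i z
    refine integral_congr_ae ?_
    filter_upwards [hvec.hn i] with y hy
    rw [hy]
  have hk : ∀ i, ∃ k : ℝ, ∀ x ∈ Sg g,
      (∫ y, G (x - y) * ν i y ∂(sig g)) - (InnerProductSpace.toDual ℝ E ((1 / 3 : ℝ) • EE i)) x =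
        k := by
    intro i
    refine hH1 g hg hconn _ ((hPhi i).sub (ContinuousLinearMap.continuous _)) ?_
    intro z hz
    have h1 := (hUG i z (hOmSg z hz)).1
    rw [hUeq i z hz] at h1
    have h2 : (fun z => ∫ y, G (z - y) * n i y ∂(sig g)) =
        fun z => ∫ y, G (z - y) * ν i y ∂(sig g) := funext fun z => hPhieq i z
    rw [h2, hasGradientAt_iff_hasFDerivAt] at h1
    rw [hasGradientAt_iff_hasFDerivAt, map_zero]
    have h3 := h1.sub
      ((InnerProductSpace.toDual ℝ E ((1 / 3 : ℝ) • EE i)).hasFDerivAt (x := z))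
    rw [sub_self] at h3
    exact h3
  choose k hk using hk
  refine ⟨WithLp.toLp 2 (fun i => -3 * k i), fun x hx v => ?_⟩
  have hPx : ∀ i, ∫ y, G (x - y) * ν i y ∂(sig g) = (1 / 3) * x i + k i := by
    intro i
    have h1 := hk i x hx
    rw [InnerProductSpace.toDual_apply_apply, real_inner_smul_left, real_inner_comm, inner_EE] at h1
    linarith
  rw [hDIVK x v]
  have h1 : ∀ i, Integrable (fun y => G (x - y) * ν i y) (sig g) := by
    intro i
    refine (int_G hg hb x).mul_bdd (c := 1) (hνm i).aestronglyMeasurable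
      (Eventually.of_forall fun y => ?_)
    rw [Real.norm_eq_abs]
    exact hν1 i y
  calc ∫ z, G (z - x) * inner ℝ (nu g z) v ∂(sig g)
      = ∫ z, ∑ i, v i * (G (x - z) * ν i z) ∂(sig g) := by
        refine integral_congr_ae (Eventually.of_forall fun z => ?_)
        simp only
        have h2 : G (z - x) = G (x - z) := by
          unfold G
          rw [norm_sub_rev]
        rw [inner_sum, h2, Finset.mul_sum]
        refine Finset.sum_congr rfl fun i _ => ?_
        simp only [hν, inner_EE]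
        ring
    _ = ∑ i, v i * ((1 / 3) * x i + k i) := by
        rw [integral_finset_sum _ (fun i _ => (h1 i).const_mul _)]
        refine Finset.sum_congr rfl fun i _ => ?_
        rw [integral_const_mul, hPx]
    _ = (1 / 3) * inner ℝ (x - WithLp.toLp 2 (fun i => -3 * k i)) v := by
        rw [inner_sum, Finset.mul_sum]
        refine Finset.sum_congr rfl fun i _ => ?_
        simp
        ring

end Pool.Agent.H934R3.NP.M7
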