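import Pool.Agent.H934R3.NP.Stmts2

set_option autoImplicit false
set_option maxHeartbeats 4000000

open MeasureTheory Set Filter Topology
open scoped ENNReal NNReal

namespace Pool.Agent.H934R3.NP.M8x

/-- the kernel on the sphere -/
noncomputable def kk (r : ℝ) (x y : E) : ℝ :=
  1 / (8 * Real.pi * r * ‖x - y‖) - 3 / (20 * Real.pi * r ^ 2) + ‖x - y‖ ^ 2 / (40 * Real.pi * r ^ 4)

lemma kk_comm (r : ℝ) (x y : E) : kk r x y = kk r y x := by
  unfold kk; rw [norm_sub_rev]

lemma kk_meas (r : ℝ) : Measurable (Function.uncurry (kk r)) := by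
  unfold kk Function.uncurry
  fun_prop

lemma ae_mem {g : E → ℝ} (hg : Surf g) : ∀ᵐ x ∂(sig g), x ∈ Sg g := by
  have hc : Continuous g := hg.smooth.continuous
  have hm : MeasurableSet {x : E | g x = 0} := (isClosed_singleton.preimage hc).measurableSet
  unfold sig
  refine Measure.ae_smul_measure ?_ _
  exact ae_restrict_mem hm

lemma ks_eq {g : E → ℝ} {c : E} {r : ℝ} (hr : 0 < r) (hS : Sg g = Metric.sphere c r)
    (hn : ∀ x ∈ Sg g, nu g x = (1 / r) • (x - c)) {x y : E} (hx : x ∈ Sg g) (hy : y ∈ Sg g) :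
    ks g x y = 1 / (8 * Real.pi * r * ‖x - y‖) := by
  have h1 : inner ℝ (x - y) (gradient g x) / ‖gradient g x‖ = inner ℝ (x - y) (nu g x) := by
    unfold nu
    rw [inner_smul_right]; ring
  have hx' : ‖x - c‖ = r := by rw [hS, mem_sphere_iff_norm] at hx; exact hx
  have hy' : ‖y - c‖ = r := by rw [hS, mem_sphere_iff_norm] at hy; exact hy
  have h2 : inner ℝ (x - y) (x - c) = ‖x - y‖ ^ 2 / 2 := by
    have := norm_sub_sq_real (x - c) (x - y)
    rw [show x - c - (x - y) = y - c by abel, hx', hy', real_inner_comm] at this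
    linarith
  have h3 : ks g x y = (1 / (4 * Real.pi)) * ((inner ℝ (x - y) (gradient g x) / ‖gradient g x‖) / ‖x - y‖ ^ 3) := by
    unfold ks
    rw [div_div]
  rw [h3, h1, hn x hx, inner_smul_right, h2]
  by_cases h0 : ‖x - y‖ = 0
  · rw [h0]; simp
  · have hpi := Real.pi_ne_zero
    field_simp
    norm_num

lemma G_eq {r : ℝ} (hr : 0 < r) (x y : E) :
    G (x - y) = 2 * r * (1 / (8 * Real.pi * r * ‖x - y‖)) := by
  unfold G
  by_cases h0 : ‖x - y‖ = 0
  · rw [h0]; simp
  · have hpi := Real.pi_ne_zero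
    field_simp
    norm_num

lemma inner_eq {μ : Measure E} (f h : Lp ℝ 2 μ) : inner ℝ f h = ∫ a, f a * h a ∂μ := by
  rw [L2.inner_def]
  refine integral_congr_ae (Eventually.of_forall fun a => ?_)
  simp [mul_comm]

lemma ortho {g : E → ℝ} {S Ks K : Lp ℝ 2 (sig g) →L[ℝ] Lp ℝ 2 (sig g)} (hops : Ops g S Ks K)
    (hmem : ∀ᵐ x ∂(sig g), x ∈ Sg g) {t : ℝ} {φ : Lp ℝ 2 (sig g)} (hKφ : Ks φ = t • φ)
    (f : E → ℝ) (hf : MemLp f 2 (sig g)) {a : ℝ}
    (hfe : ∀ x ∈ Sg g, ∫ z, f z * ks g z x ∂(sig g) = a * f x) (hta : t ≠ a) :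
    ∫ y, f y * φ y ∂(sig g) = 0 := by
  have hK : K (hf.toLp f) = a • hf.toLp f := by
    refine Lp.ext ?_
    filter_upwards [hops.repK (hf.toLp f), hmem, Lp.coeFn_smul a (hf.toLp f), hf.coeFn_toLp]
      with x h1 h2 h3 h4
    rw [h1, h3, Pi.smul_apply, h4, smul_eq_mul, ← hfe x h2]
    refine integral_congr_ae ?_
    filter_upwards [hf.coeFn_toLp] with z hz
    rw [hz, mul_comm]
  have h := hops.adj φ (hf.toLp f)
  rw [hKφ, hK, real_inner_smul_right, real_inner_smul_left] at h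
  have h0 : inner ℝ (hf.toLp f) φ = 0 := by
    have : (t - a) * inner ℝ (hf.toLp f) φ = 0 := by linarith
    rcases mul_eq_zero.mp this with h | h
    · exact absurd (sub_eq_zero.mp h) hta
    · exact h
  rw [inner_eq] at h0
  rw [← h0]
  refine integral_congr_ae ?_
  filter_upwards [hf.coeFn_toLp] with z hz
  rw [hz]

theorem t (h8a : TaskM8a) : TaskM8 := by
  intro hC1 hJ1 hJ2 g hg hb hGREEN hDIVK S Ks K hops c r hr hS t φ hφ hKφ ht
  have : IsFiniteMeasure (sig g) := hb.1
  have hn := h8a g hg c r hr hS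
  by_contra hcon
  push Not at hcon
  have hmem := ae_mem hg
  -- step 1
  have hone : ∀ y ∈ Sg g, ∫ z, ks g z y ∂(sig g) = 1 / 2 := by
    intro y hy
    have := hGREEN (fun _ => 1) contDiff_const y hy
    simp only [fderiv_fun_const, one_mul] at this
    simp at this
    linarith
  -- step 2
  have hlin : ∀ v : E, ∀ y ∈ Sg g, ∫ z, inner ℝ (z - c) v * ks g z y ∂(sig g) = (1 / 6) * inner ℝ (y - c) v := by
    intro v y hy
    have hcd : ContDiff ℝ 1 (fun z : E => inner ℝ (z - c) v) :=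
      (contDiff_id.sub contDiff_const).inner ℝ contDiff_const
    have h1 := hGREEN (fun z => inner ℝ (z - c) v) hcd y hy
    have h2 := hDIVK y v
    have h3 : ∀ z : E, fderiv ℝ (fun z : E => inner ℝ (z - c) v) z (dG (z - y)) = inner ℝ (dG (z - y)) v := by
      intro z
      have e : (fun z : E => inner ℝ (z - c) v) = fun z => innerSL ℝ v z - innerSL ℝ v c := by
        funext z
        rw [real_inner_comm]
        simp [inner_sub_right]
      have : HasFDerivAt (fun z : E => inner ℝ (z - c) v) (innerSL ℝ v) z := by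
        rw [e]
        exact ((innerSL ℝ v).hasFDerivAt).sub_const _
      rw [this.fderiv, real_inner_comm]
      simp
    simp only [h3] at h1
    have h4 : ∫ z, G (z - y) * inner ℝ (nu g z) v ∂(sig g) =
        2 * ∫ z, inner ℝ (z - c) v * ks g z y ∂(sig g) := by
      rw [← integral_const_mul]
      refine integral_congr_ae ?_
      filter_upwards [hmem] with z hz
      rw [ks_eq hr hS hn hz hy, hn z hz, G_eq hr, real_inner_smul_left]
      field_simp
    rw [h4] at h2
    rw [h2] at h1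
    linarith
  have hbd : ∀ x ∈ Sg g, ‖x - c‖ = r := by
    intro x hx; rw [hS, mem_sphere_iff_norm] at hx; exact hx
  have hφint : Integrable φ (sig g) := (Lp.memLp φ).integrable (by norm_num)
  have o1 : ∫ y, φ y ∂(sig g) = 0 := by
    have := ortho hops hmem hKφ (fun _ => (1 : ℝ)) (memLp_const 1) (a := 1 / 2)
      (fun x hx => by simpa using hone x hx) ht
    simpa using this
  have ov : ∀ v : E, ∫ y, inner ℝ (y - c) v * φ y ∂(sig g) = 0 := by
    intro v
    refine ortho hops hmem hKφ (fun y => inner ℝ (y - c) v) ?_ (a := 1 / 6)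
      (fun x hx => hlin v x hx) (ne_of_gt hcon)
    refine MemLp.of_bound (Continuous.aestronglyMeasurable (by fun_prop)) (r * ‖v‖) ?_
    filter_upwards [hmem] with y hy
    calc ‖inner ℝ (y - c) v‖ ≤ ‖y - c‖ * ‖v‖ := norm_inner_le_norm _ _
      _ = r * ‖v‖ := by rw [hbd y hy]
  -- step 3
  have hJ : ∀ᵐ x ∂(sig g), ∫⁻ y, ENNReal.ofReal |kk r x y| ∂(sig g) ≤ ENNReal.ofReal (13 / 80) := by
    filter_upwards [hmem] with x hx
    exact hJ2 hJ1 g hg c r hr hS x hx
  obtain ⟨T, hT, hTn, hTi⟩ := hC1 (sig g) hb.1 (kk r) (13 / 80) (by norm_num) (kk_meas r) hJ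
    (by simpa only [kk_comm r _ _] using hJ)
  have hTφ : T φ = t • φ := by
    rw [← hKφ]
    refine Lp.ext ?_
    filter_upwards [hT φ, hops.repKs φ, hTi φ, hmem] with x h1 h2 h3 hx
    rw [h1, h2]
    have e : ∀ᵐ y ∂(sig g), ks g x y * φ y = kk r x y * φ y + (3 / (20 * Real.pi * r ^ 2)) * φ y
        - (1 / (40 * Real.pi * r ^ 4)) * (2 * r ^ 2 * φ y - 2 * (inner ℝ (y - c) (x - c) * φ y)) := by
      filter_upwards [hmem] with y hy
      rw [ks_eq hr hS hn hx hy]
      have : ‖x - y‖ ^ 2 = 2 * r ^ 2 - 2 * inner ℝ (y - c) (x - c) := by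
        have := norm_sub_sq_real (x - c) (y - c)
        rw [show x - c - (y - c) = x - y by abel, hbd x hx, hbd y hy, real_inner_comm] at this
        linarith
      unfold kk
      rw [this]
      ring
    rw [integral_congr_ae e]
    have i2 : Integrable (fun y => inner ℝ (y - c) (x - c) * φ y) (sig g) := by
      refine Integrable.bdd_mul (c := r * ‖x - c‖) hφint
        (Continuous.aestronglyMeasurable (by fun_prop)) ?_
      filter_upwards [hmem] with y hy
      calc ‖inner ℝ (y - c) (x - c)‖ ≤ ‖y - c‖ * ‖x - c‖ := norm_inner_le_norm _ _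
        _ = r * ‖x - c‖ := by rw [hbd y hy]
    have i3 : Integrable (fun y => 2 * r ^ 2 * φ y) (sig g) := hφint.const_mul _
    have i4 : Integrable (fun y => 2 * (inner ℝ (y - c) (x - c) * φ y)) (sig g) := i2.const_mul _
    have i5 : Integrable (fun y => (3 / (20 * Real.pi * r ^ 2)) * φ y) (sig g) := hφint.const_mul _
    have e1 : ∫ a, (kk r x a * φ a + 3 / (20 * Real.pi * r ^ 2) * φ a -
        1 / (40 * Real.pi * r ^ 4) * (2 * r ^ 2 * φ a - 2 * (inner ℝ (a - c) (x - c) * φ a))) ∂sig g =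
        (∫ a, (kk r x a * φ a + 3 / (20 * Real.pi * r ^ 2) * φ a) ∂sig g) -
        ∫ a, 1 / (40 * Real.pi * r ^ 4) * (2 * r ^ 2 * φ a - 2 * (inner ℝ (a - c) (x - c) * φ a)) ∂sig g :=
      integral_sub (h3.add i5) ((i3.sub i4).const_mul _)
    have e2 : ∫ a, (kk r x a * φ a + 3 / (20 * Real.pi * r ^ 2) * φ a) ∂sig g =
        (∫ a, kk r x a * φ a ∂sig g) + ∫ a, 3 / (20 * Real.pi * r ^ 2) * φ a ∂sig g :=
      integral_add h3 i5
    have e3 : ∫ a, (2 * r ^ 2 * φ a - 2 * (inner ℝ (a - c) (x - c) * φ a)) ∂sig g =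
        (∫ a, 2 * r ^ 2 * φ a ∂sig g) - ∫ a, 2 * (inner ℝ (a - c) (x - c) * φ a) ∂sig g :=
      integral_sub i3 i4
    rw [e1, e2, integral_const_mul, integral_const_mul, e3, integral_const_mul,
      integral_const_mul, o1, ov (x - c)]
    ring
  have h1 : ‖T φ‖ ≤ 13 / 80 * ‖φ‖ := (T.le_opNorm φ).trans (by gcongr)
  rw [hTφ, norm_smul, Real.norm_eq_abs] at h1
  have hpos : 0 < ‖φ‖ := norm_pos_iff.mpr hφ
  have h2 : |t| ≤ 13 / 80 := le_of_mul_le_mul_right h1 hpos
  have h3 := le_abs_self t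
  linarith

end Pool.Agent.H934R3.NP.M8x
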