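import Pool.Agent.H934R3.NP.Stmts2

/-! NP-PROJECT, task M8a (helper169): the unit normal of a surface that is a sphere. -/

set_option autoImplicit false

open MeasureTheory Set Filter Topology

namespace Pool.Agent.H934R3.NP.M8a

theorem hasDeriv_comp {g : E → ℝ} (hs : Surf g) {γ : ℝ → E} {γ' : E} {t : ℝ}
    (h : HasDerivAt γ γ' t) :
    HasDerivAt (fun t => g (γ t)) (inner ℝ (gradient g (γ t)) γ') t := by
  have hd : DifferentiableAt ℝ g (γ t) :=
    (hs.smooth.differentiable (by norm_num)).differentiableAt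
  have h1 := hd.hasGradientAt.hasFDerivAt
  have h2 := h1.comp_hasDerivAt t h
  have h3 : (InnerProductSpace.toDual ℝ E (gradient g (γ t))) γ' =
      inner ℝ (gradient g (γ t)) γ' := InnerProductSpace.toDual_apply_apply
  rw [h3] at h2
  exact h2

theorem t : TaskM8a := by
  intro g hs c r hr hS x hx
  have hxs : x ∈ Metric.sphere c r := hS ▸ hx
  have hxr : ‖x - c‖ = r := by
    rw [Metric.mem_sphere, dist_eq_norm] at hxs; exact hxs
  obtain ⟨n, hn⟩ : ∃ n : E, n = (1 / r) • (x - c) := ⟨_, rfl⟩
  rw [← hn]
  have hn1 : ‖n‖ = 1 := by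
    rw [hn, norm_smul, hxr, Real.norm_of_nonneg (by positivity)]
    field_simp
  have hxn : x = c + r • n := by
    rw [hn, smul_smul]
    rw [mul_one_div_cancel hr.ne', one_smul]
    abel
  have hnn : inner ℝ n n = (1:ℝ) := by
    rw [real_inner_self_eq_norm_sq, hn1]; norm_num
  -- points of the sphere are zeros
  have hzero : ∀ y : E, ‖y - c‖ = r → g y = 0 := by
    intro y hy
    have : y ∈ Sg g := by
      rw [hS, Metric.mem_sphere, dist_eq_norm]; exact hy
    exact this
  have hnz : ∀ y : E, ‖y - c‖ ≠ r → g y ≠ 0 := by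
    intro y hy h0
    have : y ∈ Metric.sphere c r := by
      rw [← hS]; exact h0
    rw [Metric.mem_sphere, dist_eq_norm] at this
    exact hy this
  -- step 1: tangential derivatives vanish
  have tang1 : ∀ w : E, ‖w‖ = 1 → inner ℝ n w = (0:ℝ) → inner ℝ (gradient g x) w = (0:ℝ) := by
    intro w hw hnw
    have hγ : HasDerivAt (fun t : ℝ => c + (r * Real.cos t) • n + (r * Real.sin t) • w)
        (r • w) 0 := by
      have h1 : HasDerivAt (fun t : ℝ => (r * Real.cos t) • n) ((r * (-Real.sin 0)) • n) 0 :=
        ((Real.hasDerivAt_cos 0).const_mul r).smul_const n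
      have h2 : HasDerivAt (fun t : ℝ => (r * Real.sin t) • w) ((r * Real.cos 0) • w) 0 :=
        ((Real.hasDerivAt_sin 0).const_mul r).smul_const w
      have h3 := (h1.const_add c).add h2
      simp only [Real.sin_zero, neg_zero, mul_zero, zero_smul, Real.cos_zero, mul_one,
        zero_add] at h3
      exact h3
    have hd := hasDeriv_comp hs hγ
    have hconst : (fun t : ℝ => g (c + (r * Real.cos t) • n + (r * Real.sin t) • w)) =
        fun _ => 0 := by
      funext s
      apply hzero
      have e1 : c + (r * Real.cos s) • n + (r * Real.sin s) • w - c =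
          (r * Real.cos s) • n + (r * Real.sin s) • w := by abel
      rw [e1]
      have e2 : ‖(r * Real.cos s) • n + (r * Real.sin s) • w‖ ^ 2 = r ^ 2 := by
        rw [norm_add_sq_real, norm_smul, norm_smul, inner_smul_left, inner_smul_right, hnw, hn1, hw]
        simp only [mul_zero, mul_one, add_zero, Real.norm_eq_abs, sq_abs]
        have := Real.sin_sq_add_cos_sq s
        calc (r * Real.cos s) ^ 2 + (r * Real.sin s) ^ 2
            = r ^ 2 * (Real.sin s ^ 2 + Real.cos s ^ 2) := by ring
          _ = r ^ 2 := by rw [this, mul_one]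
      exact (sq_eq_sq₀ (norm_nonneg _) hr.le).1 e2
    rw [hconst] at hd
    have h0 := hd.unique (hasDerivAt_const (0:ℝ) (0:ℝ))
    have e0 : c + (r * Real.cos 0) • n + (r * Real.sin 0) • w = x := by
      rw [Real.cos_zero, Real.sin_zero, mul_one, mul_zero, zero_smul, add_zero, ← hxn]
    rw [e0, inner_smul_right] at h0
    rcases mul_eq_zero.1 h0 with h | h
    · exact absurd h hr.ne'
    · exact h
  have tang : ∀ v : E, inner ℝ n v = (0:ℝ) → inner ℝ (gradient g x) v = (0:ℝ) := by
    intro v hv
    by_cases h0 : v = 0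
    · rw [h0, inner_zero_right]
    · have hv0 : ‖v‖ ≠ 0 := norm_ne_zero_iff.2 h0
      have h1 := tang1 (‖v‖⁻¹ • v) (by rw [norm_smul, norm_inv, norm_norm, inv_mul_cancel₀ hv0])
        (by rw [inner_smul_right, hv, mul_zero])
      rw [inner_smul_right] at h1
      rcases mul_eq_zero.1 h1 with h | h
      · exact absurd h (inv_ne_zero hv0)
      · exact h
  obtain ⟨lam, hlam⟩ : ∃ lam : ℝ, lam = inner ℝ (gradient g x) n := ⟨_, rfl⟩
  have hG : gradient g x = lam • n := by
    have h1 : inner ℝ n (gradient g x - lam • n) = (0:ℝ) := by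
      rw [inner_sub_right, inner_smul_right, hnn, real_inner_comm, ← hlam, mul_one, sub_self]
    have h2 := tang _ h1
    have h3 : inner ℝ (gradient g x - lam • n) (gradient g x - lam • n) = (0:ℝ) := by
      rw [inner_sub_left, h2, inner_smul_left, h1, mul_zero, sub_zero]
    exact sub_eq_zero.1 (inner_self_eq_zero.1 h3)
  have hlam0 : lam ≠ 0 := by
    intro h
    apply hs.reg x hx
    rw [hG, h, zero_smul]
  -- step 2: `g > 0` on the outer ray
  have hcont : Continuous g := hs.smooth.continuous
  have hray : ∀ s : ℝ, r < s → 0 < g (c + s • n) := by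
    intro s hs'
    obtain ⟨R, hR⟩ := hs.pos
    by_contra hneg
    push Not at hneg
    set s1 : ℝ := max s (|R| + ‖c‖) with hs1
    have hpos1 : 0 < g (c + s1 • n) := by
      apply hR
      have h1 : ‖s1 • n‖ = |s1| := by rw [norm_smul, hn1, mul_one, Real.norm_eq_abs]
      have h2 : ‖s1 • n‖ ≤ ‖c + s1 • n‖ + ‖c‖ := by
        have := norm_sub_le (c + s1 • n) c
        rwa [add_sub_cancel_left] at this
      have h3 : |R| + ‖c‖ ≤ s1 := le_max_right _ _
      have h4 := le_abs_self s1
      have h5 := le_abs_self R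
      linarith
    have hivt := intermediate_value_Icc (le_max_left s (|R| + ‖c‖))
      (f := fun t : ℝ => g (c + t • n))
      (by fun_prop)
    obtain ⟨t, ht, ht0⟩ := hivt ⟨hneg, hpos1.le⟩
    have h6 : ‖(c + t • n) - c‖ ≠ r := by
      rw [add_sub_cancel_left, norm_smul, hn1, mul_one, Real.norm_eq_abs]
      have : r < t := lt_of_lt_of_le hs' ht.1
      rw [abs_of_pos (hr.trans this)]
      exact this.ne'
    exact hnz _ h6 ht0
  have hlampos : 0 < lam := by
    refine lt_of_le_of_ne ?_ hlam0.symm
    have hγ : HasDerivAt (fun t : ℝ => c + t • n) n r := by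
      have h1 : HasDerivAt (fun t : ℝ => t • n) ((1:ℝ) • n) r := (hasDerivAt_id r).smul_const n
      have h2 := h1.const_add c
      rwa [one_smul] at h2
    have hd := hasDeriv_comp hs hγ
    rw [← hxn, ← hlam] at hd
    have hslope := hd.tendsto_slope
    have hslope' : Tendsto (slope (fun t : ℝ => g (c + t • n)) r) (𝓝[>] r) (𝓝 lam) :=
      hslope.mono_left (nhdsWithin_mono _ (fun y hy => ne_of_gt hy))
    refine ge_of_tendsto hslope' ?_
    filter_upwards [self_mem_nhdsWithin] with s hs'
    rw [slope_def_field]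
    have h0 : g (c + r • n) = 0 := by rw [← hxn]; exact hx
    rw [h0, sub_zero]
    exact div_nonneg (hray s hs').le (sub_nonneg.2 (le_of_lt hs'))
  unfold nu
  rw [hG, norm_smul, hn1, mul_one, Real.norm_of_nonneg hlampos.le, smul_smul,
    inv_mul_cancel₀ hlam0, one_smul]

end Pool.Agent.H934R3.NP.M8a
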