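import Pool.Agent.H934R3.NP.Stmts2

set_option autoImplicit false
set_option maxHeartbeats 4000000

open MeasureTheory Set Filter Topology
open scoped ENNReal NNReal

namespace Pool.Agent.H934R3.NP.M9H377

theorem sig_compl_zero (g : E → ℝ) (hg : Surf g) :
    ∃ R : ℝ, 0 < R ∧ sig g (Metric.closedBall (0 : E) R)ᶜ = 0 := by
  obtain ⟨R, hR⟩ := hg.pos
  refine ⟨|R| + 1, by positivity, ?_⟩
  have hm : MeasurableSet (Metric.closedBall (0 : E) (|R| + 1))ᶜ :=
    (Metric.isClosed_closedBall.measurableSet).compl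
  rw [sig, Measure.smul_apply, Measure.restrict_apply hm]
  have he : (Metric.closedBall (0 : E) (|R| + 1))ᶜ ∩ {x | g x = 0} = ∅ := by
    ext x
    simp only [mem_inter_iff, mem_compl_iff, Metric.mem_closedBall, dist_zero_right, not_le,
      mem_setOf_eq, mem_empty_iff_false, iff_false, not_and]
    intro h1 h2
    have h3 : R ≤ ‖x‖ := by
      have := le_abs_self R
      linarith
    exact absurd h2 (ne_of_gt (hR x h3))
  rw [he]
  simp

theorem taskM9 : TaskM9 := by
  intro B2 B3 g hg hB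
  have hfin : IsFiniteMeasure (sig g) := by
    obtain ⟨R, hR0, hR⟩ := sig_compl_zero g hg
    obtain ⟨C, hC0, hC⟩ := hB
    refine ⟨?_⟩
    calc sig g univ = sig g (Metric.closedBall (0 : E) R ∪ (Metric.closedBall (0 : E) R)ᶜ) := by
          rw [union_compl_self]
      _ ≤ sig g (Metric.closedBall (0 : E) R) + sig g (Metric.closedBall (0 : E) R)ᶜ :=
          measure_union_le _ _
      _ ≤ ENNReal.ofReal (C * R ^ 2) + 0 := add_le_add (hC 0 R hR0) hR.le
      _ < ⊤ := by simp
  obtain ⟨C1, hC1, h1⟩ := B2 (sig g) hfin hB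
  obtain ⟨C2, hC2, h2⟩ := B3 g hg
  refine ⟨hfin, max C1 C2, lt_max_of_lt_left hC1, ?_, ?_⟩
  · intro x
    exact (h1 x).trans (ENNReal.ofReal_le_ofReal (le_max_left _ _))
  · intro x hx y hy
    refine (h2 x hx y hy).trans ?_
    exact div_le_div_of_nonneg_right (le_max_right _ _) (norm_nonneg _)

end Pool.Agent.H934R3.NP.M9H377

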