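import Pool.Agent.H934R3.NP.Stmts

set_option autoImplicit false

/-! Task B4 of the NP project (helper381). -/

open MeasureTheory Set Filter Topology
open scoped ENNReal NNReal

namespace Pool.Agent.H934R3.NP.B4

/-- profile -/
noncomputable def f1 (t : ℝ) : ℝ := if t < 1 then 4 / t ^ 2 else 1 / t ^ 4

noncomputable def H1 (w : E) : ℝ≥0∞ := ENNReal.ofReal (f1 ‖w‖)

lemma f1_nonneg (t : ℝ) : 0 ≤ f1 t := by
  unfold f1; split_ifs <;> positivity

lemma measurable_f1 : Measurable f1 := by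
  unfold f1
  refine Measurable.ite measurableSet_Iio ?_ ?_ <;> fun_prop

lemma measurable_H1 : Measurable H1 := by
  unfold H1
  exact (measurable_f1.comp measurable_norm).ennreal_ofReal

lemma H1_fin : ∫⁻ w : E, H1 w < ∞ := by
  have hint : Integrable (fun w : E => f1 ‖w‖) := by
    rw [integrable_fun_norm_addHaar (μ := (volume : Measure E)) (f := f1)]
    have hd : Module.finrank ℝ E = 3 := by simp
    rw [hd]
    have h8 : Integrable (fun y : ℝ => 8 * (1 + y ^ 2)⁻¹) := integrable_inv_one_add_sq.const_mul 8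
    refine (h8.integrableOn (s := Ioi (0 : ℝ))).mono' ?_ ?_
    · exact ((measurable_id.pow_const _).smul measurable_f1).aestronglyMeasurable
    · refine (ae_restrict_iff' measurableSet_Ioi).2 (Eventually.of_forall fun y hy => ?_)
      have hy0 : (0 : ℝ) < y := hy
      rw [smul_eq_mul, Real.norm_of_nonneg (mul_nonneg (by positivity) (f1_nonneg y))]
      unfold f1
      split_ifs with h
      · have e1 : y ^ (3 - 1) * (4 / y ^ 2) = 4 := by
          field_simp
        rw [e1, ← div_eq_mul_inv, le_div_iff₀ (by positivity)]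
        nlinarith
      · push Not at h
        have e1 : y ^ (3 - 1) * (1 / y ^ 4) = 1 / y ^ 2 := by
          field_simp
        rw [e1, ← div_eq_mul_inv, div_le_div_iff₀ (by positivity) (by positivity)]
        nlinarith
  exact hint.lintegral_lt_top

lemma lint_sub (F : E → ℝ≥0∞) (x : E) : ∫⁻ z : E, F (z - x) = ∫⁻ z : E, F z :=
  lintegral_sub_right_eq_self F x

lemma lint_smul {ρ : ℝ} (hρ : 0 < ρ) :
    ∫⁻ w : E, H1 (ρ⁻¹ • w) = ENNReal.ofReal (ρ ^ 3) * ∫⁻ w : E, H1 w := by
  have h1 : Measure.map (fun w : E => ρ⁻¹ • w) volume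
      = ENNReal.ofReal (ρ ^ 3) • (volume : Measure E) := by
    have := Measure.map_addHaar_smul (volume : Measure E) (inv_ne_zero hρ.ne')
    have hd : Module.finrank ℝ E = 3 := by simp
    rw [hd] at this
    rw [inv_pow, inv_inv, abs_of_pos (by positivity)] at this
    exact this
  have h2 := lintegral_map (μ := (volume : Measure E)) measurable_H1
    (measurable_const_smul (ρ⁻¹ : ℝ))
  rw [← h2, h1, lintegral_smul_measure, smul_eq_mul]

/-- scaled profile -/
noncomputable def Hr (ρ : ℝ) (w : E) : ℝ≥0∞ :=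
  ENNReal.ofReal (if ‖w‖ < ρ then 4 / (ρ ^ 2 * ‖w‖ ^ 2) else 1 / ‖w‖ ^ 4)

lemma Hr_eq {ρ : ℝ} (hρ : 0 < ρ) (w : E) :
    Hr ρ w = ENNReal.ofReal (1 / ρ ^ 4) * H1 (ρ⁻¹ • w) := by
  unfold Hr H1
  rw [← ENNReal.ofReal_mul (by positivity)]
  congr 1
  have hn : ‖ρ⁻¹ • w‖ = ‖w‖ / ρ := by
    rw [norm_smul, norm_inv, Real.norm_of_nonneg hρ.le]; field_simp
  unfold f1
  rw [hn]
  by_cases h : ‖w‖ < ρ
  · rw [if_pos h, if_pos ((div_lt_one hρ).2 h)]
    rcases eq_or_ne w 0 with rfl | hw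
    · simp
    · have : 0 < ‖w‖ := norm_pos_iff.2 hw
      field_simp
  · rw [if_neg h, if_neg (by rwa [div_lt_one hρ])]
    push Not at h
    have : 0 < ‖w‖ := lt_of_lt_of_le hρ h
    field_simp

lemma Hr_int {ρ : ℝ} (hρ : 0 < ρ) :
    ∫⁻ w : E, Hr ρ w = ENNReal.ofReal (1 / ρ) * ∫⁻ w : E, H1 w := by
  have h1 : ∀ w : E, Hr ρ w = ENNReal.ofReal (1 / ρ ^ 4) * H1 (ρ⁻¹ • w) := Hr_eq hρ
  simp_rw [h1]
  rw [lintegral_const_mul', lint_smul hρ, ← mul_assoc, ← ENNReal.ofReal_mul (by positivity)]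
  · congr 2
    field_simp
  · exact ENNReal.ofReal_ne_top

lemma measurable_Hr {ρ : ℝ} (hρ : 0 < ρ) : Measurable (Hr ρ) := by
  have h1 : Hr ρ = fun w : E => ENNReal.ofReal (1 / ρ ^ 4) * H1 (ρ⁻¹ • w) := by
    funext w; exact Hr_eq hρ w
  rw [h1]
  exact (measurable_H1.comp (measurable_const_smul (ρ⁻¹ : ℝ))).const_mul _

lemma ptwise {a b ρ : ℝ} (ha : 0 ≤ a) (hb : 0 ≤ b) (hρ : 0 < ρ) (hab : ρ ≤ a + b) (h : a ≤ b) :
    1 / (a ^ 2 * b ^ 2) ≤ if a < ρ then 4 / (ρ ^ 2 * a ^ 2) else 1 / a ^ 4 := by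
  have hb2 : ρ / 2 ≤ b := by linarith
  have hb0 : 0 < b := by linarith
  rcases eq_or_lt_of_le ha with h0 | h0
  · subst h0
    rw [if_pos hρ]; simp
  split_ifs with h1
  · rw [div_le_div_iff₀ (by positivity) (by positivity)]
    have : ρ ^ 2 ≤ 4 * b ^ 2 := by nlinarith
    nlinarith [mul_le_mul_of_nonneg_left this (sq_nonneg a)]
  · rw [div_le_div_iff₀ (by positivity) (by positivity)]
    have : a ^ 2 ≤ b ^ 2 := by nlinarith
    nlinarith [mul_le_mul_of_nonneg_left this (sq_nonneg a)]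

theorem t : TaskB4 := by
  have hK := H1_fin
  set K := ∫⁻ w : E, H1 w with hKdef
  refine ⟨fun R => ?_, ?_⟩
  · have hV : volume (Metric.closedBall (0 : E) R) < ∞ := measure_closedBall_lt_top
    refine ⟨(K + volume (Metric.closedBall (0 : E) R)).toReal + 1, by positivity, fun x => ?_⟩
    have h1 : ∀ z : E, ENNReal.ofReal (1 / ‖z - x‖ ^ 2) ≤ H1 (z - x) + 1 := by
      intro z
      unfold H1 f1
      split_ifs with h
      · refine le_add_right (ENNReal.ofReal_le_ofReal ?_)
        gcongr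
        norm_num
      · refine le_add_left ?_
        rw [← ENNReal.ofReal_one]
        refine ENNReal.ofReal_le_ofReal ?_
        push Not at h
        rw [div_le_one (by positivity)]
        nlinarith
    calc ∫⁻ z in Metric.closedBall (0 : E) R, ENNReal.ofReal (1 / ‖z - x‖ ^ 2)
        ≤ ∫⁻ z in Metric.closedBall (0 : E) R, (H1 (z - x) + 1) := lintegral_mono h1
      _ = (∫⁻ z in Metric.closedBall (0 : E) R, H1 (z - x))
          + volume (Metric.closedBall (0 : E) R) := by
        rw [lintegral_add_right _ measurable_const]; simp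
      _ ≤ K + volume (Metric.closedBall (0 : E) R) := by
        gcongr
        rw [hKdef, ← lint_sub H1 x]
        exact setLIntegral_le_lintegral _ _
      _ = ENNReal.ofReal ((K + volume (Metric.closedBall (0 : E) R)).toReal) := by
        rw [ENNReal.ofReal_toReal (ENNReal.add_lt_top.2 ⟨hK, hV⟩).ne]
      _ ≤ _ := ENNReal.ofReal_le_ofReal (by linarith)
  · refine ⟨2 * K.toReal + 1, by positivity, fun x y hxy => ?_⟩
    have hρ : 0 < ‖x - y‖ := norm_pos_iff.2 (sub_ne_zero.2 hxy)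
    set ρ := ‖x - y‖ with hρdef
    have h1 : ∀ z : E, ENNReal.ofReal (1 / (‖z - x‖ ^ 2 * ‖z - y‖ ^ 2))
        ≤ Hr ρ (z - x) + Hr ρ (z - y) := by
      intro z
      have htri : ρ ≤ ‖z - x‖ + ‖z - y‖ := by
        have e : x - y = (z - y) - (z - x) := by abel
        rw [hρdef, e]
        calc ‖(z - y) - (z - x)‖ ≤ ‖z - y‖ + ‖z - x‖ := norm_sub_le _ _
          _ = _ := add_comm _ _
      rcases le_total ‖z - x‖ ‖z - y‖ with h | h
      · refine le_add_right (ENNReal.ofReal_le_ofReal ?_)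
        exact ptwise (norm_nonneg _) (norm_nonneg _) hρ htri h
      · refine le_add_left (ENNReal.ofReal_le_ofReal ?_)
        rw [mul_comm (‖z - x‖ ^ 2)]
        exact ptwise (norm_nonneg _) (norm_nonneg _) hρ (by linarith) h
    calc ∫⁻ z : E, ENNReal.ofReal (1 / (‖z - x‖ ^ 2 * ‖z - y‖ ^ 2))
        ≤ ∫⁻ z : E, (Hr ρ (z - x) + Hr ρ (z - y)) := lintegral_mono h1
      _ = (∫⁻ z : E, Hr ρ (z - x)) + ∫⁻ z : E, Hr ρ (z - y) :=
        lintegral_add_right _ ((measurable_Hr hρ).comp (measurable_id.sub_const y))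
      _ = ENNReal.ofReal (1 / ρ) * K + ENNReal.ofReal (1 / ρ) * K := by
        rw [lint_sub (Hr ρ) x, lint_sub (Hr ρ) y, Hr_int hρ]
      _ = ENNReal.ofReal (2 * K.toReal / ρ) := by
        rw [← ENNReal.ofReal_toReal hK.ne, ← ENNReal.ofReal_mul (by positivity),
          ← ENNReal.ofReal_add (by positivity) (by positivity),
          ENNReal.toReal_ofReal (by positivity)]
        congr 1
        field_simp
        ring
      _ ≤ _ := by
        refine ENNReal.ofReal_le_ofReal ?_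
        gcongr
        linarith

end Pool.Agent.H934R3.NP.B4
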