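import Pool.Agent.H934R3.NP.Stmts

set_option autoImplicit false
set_option maxHeartbeats 4000000

/-!
# Task C1 of the NP project (helper683): the Schur test on `L²(μ)`
-/

open MeasureTheory Set Filter Topology
open scoped ENNReal NNReal

namespace Pool.Agent.H934R3.NP

namespace C1Aux

set_option linter.unusedSectionVars false

variable {μ : Measure E} [IsFiniteMeasure μ] {k : E → E → ℝ} {C : ℝ}

theorem meas_left (hk : Measurable (Function.uncurry k)) (x : E) : Measurable (fun y => k x y) :=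
  hk.comp (measurable_const.prodMk measurable_id)

theorem meas_right (hk : Measurable (Function.uncurry k)) (y : E) : Measurable (fun x => k x y) :=
  hk.comp (measurable_id.prodMk measurable_const)

/-- pointwise Cauchy-Schwarz -/
theorem cs (hk : Measurable (Function.uncurry k)) (φ : E → ℝ) (hφ : Measurable φ) (x : E) :
    (∫⁻ y, ‖k x y * φ y‖ₑ ∂μ) ^ (2 : ℝ) ≤
      (∫⁻ y, ‖k x y‖ₑ ∂μ) * ∫⁻ y, ‖k x y‖ₑ * ‖φ y‖ₑ ^ (2 : ℝ) ∂μ := by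
  have hm : Measurable (fun y => ‖k x y‖ₑ) := (meas_left hk x).enorm
  have h1 := ENNReal.lintegral_mul_le_Lp_mul_Lq μ (Real.HolderConjugate.two_two)
    (f := fun y => ‖k x y‖ₑ ^ (1 / 2 : ℝ)) (g := fun y => ‖k x y‖ₑ ^ (1 / 2 : ℝ) * ‖φ y‖ₑ)
    (hm.pow_const _).aemeasurable ((hm.pow_const _).mul hφ.enorm).aemeasurable
  have e1 : ∀ y, ((fun y => ‖k x y‖ₑ ^ (1 / 2 : ℝ)) * fun y => ‖k x y‖ₑ ^ (1 / 2 : ℝ) * ‖φ y‖ₑ) y =
      ‖k x y * φ y‖ₑ := by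
    intro y
    simp only [Pi.mul_apply]
    rw [← mul_assoc, ← ENNReal.rpow_add_of_nonneg _ _ (by norm_num) (by norm_num), enorm_mul]
    norm_num
  have e2 : ∀ y, (‖k x y‖ₑ ^ (1 / 2 : ℝ)) ^ (2 : ℝ) = ‖k x y‖ₑ := by
    intro y
    rw [← ENNReal.rpow_mul]
    norm_num
  have e3 : ∀ y, (‖k x y‖ₑ ^ (1 / 2 : ℝ) * ‖φ y‖ₑ) ^ (2 : ℝ) = ‖k x y‖ₑ * ‖φ y‖ₑ ^ (2 : ℝ) := by
    intro y
    rw [ENNReal.mul_rpow_of_nonneg _ _ (by norm_num), e2]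
  simp only [e1, e2, e3] at h1
  have h2 := ENNReal.rpow_le_rpow h1 (z := 2) (by norm_num)
  refine le_trans h2 (le_of_eq ?_)
  rw [ENNReal.mul_rpow_of_nonneg _ _ (by norm_num), ← ENNReal.rpow_mul, ← ENNReal.rpow_mul]
  norm_num

theorem enorm_eq (r : ℝ) : ‖r‖ₑ = ENNReal.ofReal |r| := by
  rw [← ofReal_norm, Real.norm_eq_abs]

theorem key (hk : Measurable (Function.uncurry k))
    (h1 : ∀ᵐ x ∂μ, ∫⁻ y, ENNReal.ofReal |k x y| ∂μ ≤ ENNReal.ofReal C)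
    (h2 : ∀ᵐ y ∂μ, ∫⁻ x, ENNReal.ofReal |k x y| ∂μ ≤ ENNReal.ofReal C)
    (φ : E → ℝ) (hφ : Measurable φ) :
    ∫⁻ x, (∫⁻ y, ‖k x y * φ y‖ₑ ∂μ) ^ (2 : ℝ) ∂μ ≤
      ENNReal.ofReal C ^ (2 : ℝ) * ∫⁻ y, ‖φ y‖ₑ ^ (2 : ℝ) ∂μ := by
  have hm : Measurable (fun p : E × E => ‖k p.1 p.2‖ₑ * ‖φ p.2‖ₑ ^ (2 : ℝ)) :=
    (Measurable.enorm hk).mul ((hφ.comp measurable_snd).enorm.pow_const _)
  have hφ2 : Measurable (fun y => ‖φ y‖ₑ ^ (2 : ℝ)) := hφ.enorm.pow_const _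
  calc ∫⁻ x, (∫⁻ y, ‖k x y * φ y‖ₑ ∂μ) ^ (2 : ℝ) ∂μ
      ≤ ∫⁻ x, ENNReal.ofReal C * ∫⁻ y, ‖k x y‖ₑ * ‖φ y‖ₑ ^ (2 : ℝ) ∂μ ∂μ := by
        refine lintegral_mono_ae ?_
        filter_upwards [h1] with x hx
        refine le_trans (cs hk φ hφ x) ?_
        refine mul_le_mul_left ?_ _
        simpa only [enorm_eq] using hx
    _ = ENNReal.ofReal C * ∫⁻ x, ∫⁻ y, ‖k x y‖ₑ * ‖φ y‖ₑ ^ (2 : ℝ) ∂μ ∂μ := by
        rw [lintegral_const_mul]
        exact Measurable.lintegral_prod_right hm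
    _ = ENNReal.ofReal C * ∫⁻ y, ∫⁻ x, ‖k x y‖ₑ * ‖φ y‖ₑ ^ (2 : ℝ) ∂μ ∂μ := by
        rw [lintegral_lintegral_swap]
        exact hm.aemeasurable
    _ ≤ ENNReal.ofReal C * ∫⁻ y, ENNReal.ofReal C * ‖φ y‖ₑ ^ (2 : ℝ) ∂μ := by
        refine mul_le_mul_right ?_ _
        refine lintegral_mono_ae ?_
        filter_upwards [h2] with y hy
        rw [lintegral_mul_const _ (meas_right hk y).enorm]
        refine mul_le_mul_left ?_ _
        simpa only [enorm_eq] using hy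
    _ = ENNReal.ofReal C ^ (2 : ℝ) * ∫⁻ y, ‖φ y‖ₑ ^ (2 : ℝ) ∂μ := by
        rw [lintegral_const_mul _ hφ2, ← mul_assoc]
        congr 1
        rw [← sq, ← ENNReal.rpow_natCast]
        norm_num

theorem eLp2 (f : E → ℝ) : eLpNorm f 2 μ = (∫⁻ y, ‖f y‖ₑ ^ (2 : ℝ) ∂μ) ^ (1 / 2 : ℝ) := by
  rw [eLpNorm_eq_lintegral_rpow_enorm_toReal (by norm_num) (by norm_num)]
  norm_num

theorem bound (hk : Measurable (Function.uncurry k))
    (h1 : ∀ᵐ x ∂μ, ∫⁻ y, ENNReal.ofReal |k x y| ∂μ ≤ ENNReal.ofReal C)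
    (h2 : ∀ᵐ y ∂μ, ∫⁻ x, ENNReal.ofReal |k x y| ∂μ ≤ ENNReal.ofReal C)
    (φ : Lp ℝ 2 μ) :
    eLpNorm (fun x => ∫ y, k x y * φ y ∂μ) 2 μ ≤ ENNReal.ofReal C * eLpNorm φ 2 μ := by
  have hφ : Measurable (φ : E → ℝ) := (Lp.stronglyMeasurable φ).measurable
  have h3 := key hk h1 h2 φ hφ
  rw [eLp2, eLp2]
  have h4 : ∫⁻ x, ‖∫ y, k x y * φ y ∂μ‖ₑ ^ (2 : ℝ) ∂μ ≤
      ENNReal.ofReal C ^ (2 : ℝ) * ∫⁻ y, ‖φ y‖ₑ ^ (2 : ℝ) ∂μ := by
    refine le_trans (lintegral_mono fun x => ?_) h3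
    exact ENNReal.rpow_le_rpow (enorm_integral_le_lintegral_enorm _) (by norm_num)
  have h5 := ENNReal.rpow_le_rpow h4 (z := 1 / 2) (by norm_num)
  refine le_trans h5 (le_of_eq ?_)
  rw [ENNReal.mul_rpow_of_nonneg _ _ (by norm_num), ← ENNReal.rpow_mul]
  norm_num

theorem integ (hk : Measurable (Function.uncurry k))
    (h1 : ∀ᵐ x ∂μ, ∫⁻ y, ENNReal.ofReal |k x y| ∂μ ≤ ENNReal.ofReal C)
    (h2 : ∀ᵐ y ∂μ, ∫⁻ x, ENNReal.ofReal |k x y| ∂μ ≤ ENNReal.ofReal C)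
    (φ : Lp ℝ 2 μ) : ∀ᵐ x ∂μ, Integrable (fun y => k x y * φ y) μ := by
  have hφ : Measurable (φ : E → ℝ) := (Lp.stronglyMeasurable φ).measurable
  have h3 := key hk h1 h2 φ hφ
  have hfin : ∫⁻ y, ‖φ y‖ₑ ^ (2 : ℝ) ∂μ < ⊤ := by
    have := (Lp.memLp φ).eLpNorm_lt_top
    rw [eLp2] at this
    by_contra hcon
    rw [not_lt, top_le_iff] at hcon
    rw [hcon] at this
    norm_num at this
  have h4 : ∫⁻ x, (∫⁻ y, ‖k x y * φ y‖ₑ ∂μ) ^ (2 : ℝ) ∂μ ≠ ⊤ := by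
    refine ne_of_lt (lt_of_le_of_lt h3 ?_)
    exact ENNReal.mul_lt_top (ENNReal.rpow_lt_top_of_nonneg (by norm_num) ENNReal.ofReal_ne_top) hfin
  have hmm : Measurable (fun p : E × E => ‖k p.1 p.2 * φ p.2‖ₑ) :=
    (Measurable.mul hk (hφ.comp measurable_snd)).enorm
  have hm : Measurable (fun x => (∫⁻ y, ‖k x y * φ y‖ₑ ∂μ) ^ (2 : ℝ)) :=
    (Measurable.lintegral_prod_right hmm).pow_const _
  filter_upwards [ae_lt_top hm h4] with x hx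
  refine ⟨((meas_left hk x).mul hφ).aestronglyMeasurable, ?_⟩
  rw [hasFiniteIntegral_iff_enorm]
  by_contra hcon
  rw [not_lt, top_le_iff] at hcon
  rw [hcon] at hx
  norm_num at hx

theorem smeas (hk : Measurable (Function.uncurry k)) (φ : Lp ℝ 2 μ) :
    AEStronglyMeasurable (fun x => ∫ y, k x y * φ y ∂μ) μ := by
  have hφ : Measurable (φ : E → ℝ) := (Lp.stronglyMeasurable φ).measurable
  have hm : Measurable (fun p : E × E => k p.1 p.2 * φ p.2) :=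
    Measurable.mul hk (hφ.comp measurable_snd)
  exact (hm.stronglyMeasurable.integral_prod_right).aestronglyMeasurable

theorem memLp' (hk : Measurable (Function.uncurry k))
    (h1 : ∀ᵐ x ∂μ, ∫⁻ y, ENNReal.ofReal |k x y| ∂μ ≤ ENNReal.ofReal C)
    (h2 : ∀ᵐ y ∂μ, ∫⁻ x, ENNReal.ofReal |k x y| ∂μ ≤ ENNReal.ofReal C)
    (φ : Lp ℝ 2 μ) : MemLp (fun x => ∫ y, k x y * φ y ∂μ) 2 μ := by
  refine ⟨smeas hk φ, lt_of_le_of_lt (bound hk h1 h2 φ) ?_⟩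
  exact ENNReal.mul_lt_top ENNReal.ofReal_lt_top (Lp.memLp φ).eLpNorm_lt_top

end C1Aux

open C1Aux in
theorem taskC1 : TaskC1 := by
  intro μ hμ k C hC hk h1 h2
  let L : Lp ℝ 2 μ →ₗ[ℝ] Lp ℝ 2 μ :=
    { toFun := fun φ => (memLp' hk h1 h2 φ).toLp _
      map_add' := by
        intro φ ψ
        apply Lp.ext
        have a1 := integ hk h1 h2 φ
        have a2 := integ hk h1 h2 ψ
        filter_upwards [a1, a2, (memLp' hk h1 h2 (φ + ψ)).coeFn_toLp,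
          (memLp' hk h1 h2 φ).coeFn_toLp, (memLp' hk h1 h2 ψ).coeFn_toLp,
          Lp.coeFn_add ((memLp' hk h1 h2 φ).toLp _) ((memLp' hk h1 h2 ψ).toLp _)]
          with x b1 b2 c1 c2 c3 c4
        rw [c1, c4, Pi.add_apply, c2, c3, ← integral_add b1 b2]
        apply integral_congr_ae
        filter_upwards [Lp.coeFn_add φ ψ] with y hy
        rw [hy, Pi.add_apply, mul_add]
      map_smul' := by
        intro c φ
        apply Lp.ext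
        filter_upwards [(memLp' hk h1 h2 (c • φ)).coeFn_toLp,
          (memLp' hk h1 h2 φ).coeFn_toLp,
          Lp.coeFn_smul c ((memLp' hk h1 h2 φ).toLp _)] with x c1 c2 c3
        rw [c1, RingHom.id_apply, c3, Pi.smul_apply, c2, smul_eq_mul, ← integral_const_mul]
        apply integral_congr_ae
        filter_upwards [Lp.coeFn_smul c φ] with y hy
        rw [hy, Pi.smul_apply, smul_eq_mul]
        ring }
  have hL : ∀ φ, ‖L φ‖ ≤ C * ‖φ‖ := by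
    intro φ
    have hb := bound hk h1 h2 φ
    have e1 : ‖L φ‖ = (eLpNorm (fun x => ∫ y, k x y * φ y ∂μ) 2 μ).toReal := Lp.norm_toLp _ (memLp' hk h1 h2 φ)
    rw [e1, Lp.norm_def]
    have := ENNReal.toReal_mono (ENNReal.mul_ne_top ENNReal.ofReal_ne_top
      (Lp.memLp φ).eLpNorm_lt_top.ne) hb
    rwa [ENNReal.toReal_mul, ENNReal.toReal_ofReal hC] at this
  refine ⟨L.mkContinuous C hL, ?_, LinearMap.mkContinuous_norm_le L hC hL, integ hk h1 h2⟩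
  intro φ
  exact (memLp' hk h1 h2 φ).coeFn_toLp

end Pool.Agent.H934R3.NP
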