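import Pool.Agent.H934R3.NP.Stmts

set_option autoImplicit false

open MeasureTheory Set Filter Topology

namespace Pool.Agent.H934R3.NP.TH1

open Pool.Agent.H934R3.NP

/-- a function with zero gradient along a path `x + (s - t) • a`, `t ∈ [0, s)`. -/
theorem seg_const {w : E → ℝ} (hw : Continuous w) {Ω : Set E}
    (h0 : ∀ z ∈ Ω, HasGradientAt w 0 z) (x a : E) {s : ℝ} (hs : 0 ≤ s)
    (hmem : ∀ t, 0 ≤ t → t < s → x + (s - t) • a ∈ Ω) : w x = w (x + s • a) := by
  have hc : ContinuousOn (fun t : ℝ => w (x + (s - t) • a)) (Icc 0 s) := by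
    apply Continuous.continuousOn
    fun_prop
  have key := constant_of_has_deriv_right_zero hc ?_ s ⟨hs, le_rfl⟩
  · simpa using key
  · intro t ht
    have h1 : HasGradientAt w 0 (x + (s - t) • a) := h0 _ (hmem t ht.1 ht.2)
    have h2 : HasFDerivAt w (0 : E →L[ℝ] ℝ) (x + (s - t) • a) := by
      have := h1.hasFDerivAt
      simpa using this
    have h3 : HasDerivAt (fun t : ℝ => x + (s - t) • a) ((0 - 1 : ℝ) • a) t := by
      have := (((hasDerivAt_const t s).sub (hasDerivAt_id t)).smul_const a).const_add x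
      exact this
    have h4 := h2.comp_hasDerivAt t h3
    have h5 : HasDerivAt (fun t : ℝ => w (x + (s - t) • a)) 0 t := by
      have e : (0 : E →L[ℝ] ℝ) ((0 - 1 : ℝ) • a) = 0 := by simp
      rw [e] at h4
      exact h4
    exact h5.hasDerivWithinAt

theorem local_const {g : E → ℝ} (hg : Surf g) {w : E → ℝ} (hw : Continuous w)
    (h0 : ∀ z ∈ Om g, HasGradientAt w 0 z) {p : E} (hp : g p = 0) :
    ∃ ρ > 0, ∀ q ∈ Metric.ball p ρ, g q = 0 → w q = w p := by
  set a : E := gradient g p with ha
  have ha0 : a ≠ 0 := hg.reg p hp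
  have han : 0 < ‖a‖ := norm_pos_iff.2 ha0
  have hgc : Continuous g := hg.smooth.continuous
  have hs : HasStrictFDerivAt g (fderiv ℝ g p) p :=
    (hg.smooth.contDiffAt).hasStrictFDerivAt (by simp)
  have hsf : ∀ v : E, fderiv ℝ g p v = inner ℝ a v := by
    intro v
    rw [ha, gradient]
    simp
  have hev := hs.isLittleO.def (c := ‖a‖ / 2) (by positivity)
  rw [Metric.eventually_nhds_iff] at hev
  obtain ⟨ε, hε, hev⟩ := hev
  -- moving inside from a surface point
  have hin : ∀ q ∈ Metric.ball p (ε / 2), g q = 0 → ∀ s : ℝ, 0 < s → s * ‖a‖ < ε / 2 →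
      g (q + s • (-a)) < 0 := by
    intro q hq hq0 s hs0 hsa
    rw [Metric.mem_ball] at hq
    have h1 : dist (q + s • (-a), q) (p, p) < ε := by
      rw [Prod.dist_eq]
      refine max_lt ?_ (by simp only; linarith)
      simp only
      calc dist (q + s • (-a)) p ≤ dist (q + s • (-a)) q + dist q p := dist_triangle _ _ _
        _ < ε := by
          rw [dist_eq_norm (q + s • (-a)) q]
          have : q + s • (-a) - q = s • (-a) := by abel
          rw [this, norm_smul, norm_neg, Real.norm_of_nonneg hs0.le]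
          linarith
    have h2 := hev h1
    simp only [hq0, sub_zero] at h2
    have e1 : q + s • (-a) - q = s • (-a) := by abel
    rw [e1, hsf, norm_smul, norm_neg, Real.norm_of_nonneg hs0.le, inner_smul_right, inner_neg_right,
      real_inner_self_eq_norm_sq, Real.norm_eq_abs] at h2
    have h3 := (abs_le.1 h2).2
    have h4 : 0 < s * ‖a‖ ^ 2 := by positivity
    nlinarith
  set d : ℝ := ε / (4 * ‖a‖) with hd
  have hd0 : 0 < d := by positivity
  have hda : d * ‖a‖ = ε / 4 := by rw [hd]; field_simp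
  have hpd : g (p + d • (-a)) < 0 :=
    hin p (Metric.mem_ball_self (by positivity)) hp d hd0 (by rw [hda]; linarith)
  obtain ⟨r, hr, hball⟩ := Metric.isOpen_iff.1 (isOpen_lt hgc continuous_const) (p + d • (-a)) hpd
  refine ⟨min r (ε / 2), lt_min hr (by positivity), fun q hq hq0 => ?_⟩
  rw [Metric.mem_ball] at hq
  have hq1 : dist q p < r := lt_of_lt_of_le hq (min_le_left _ _)
  have hq2 : dist q p < ε / 2 := lt_of_lt_of_le hq (min_le_right _ _)
  have A : ∀ x ∈ Metric.ball p (ε / 2), g x = 0 → w x = w (x + d • (-a)) := by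
    intro x hx hx0
    refine seg_const hw h0 x (-a) hd0.le fun t ht0 htd => ?_
    refine hin x hx hx0 (d - t) (by linarith) ?_
    have : (d - t) * ‖a‖ ≤ d * ‖a‖ := by nlinarith
    linarith
  have B : w (q + d • (-a)) = w (p + d • (-a)) := by
    have := seg_const hw h0 (q + d • (-a)) (p - q) (s := 1) zero_le_one fun t ht0 ht1 => ?_
    · rw [this]
      congr 1
      rw [one_smul]
      abel
    · apply hball
      rw [Metric.mem_ball, dist_eq_norm]
      have e : q + d • (-a) + (1 - t) • (p - q) - (p + d • (-a)) = t • (q - p) := by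
        rw [sub_smul, one_smul, smul_sub, smul_sub]
        abel
      rw [e, norm_smul, Real.norm_of_nonneg ht0, ← dist_eq_norm]
      have h5 : 0 ≤ dist q p := dist_nonneg
      nlinarith
  rw [A q hq2 hq0, B, ← A p (Metric.mem_ball_self (by positivity)) hp]

end Pool.Agent.H934R3.NP.TH1

namespace Pool.Agent.H934R3.NP

theorem taskH1 : TaskH1 := by
  intro g hg hpre w hw h0
  have hP : PreconnectedSpace (Sg g) := isPreconnected_iff_preconnectedSpace.1 hpre
  have hloc : IsLocallyConstant (fun x : Sg g => w x) := by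
    rw [IsLocallyConstant.iff_eventually_eq]
    intro x
    obtain ⟨ρ, hρ, h⟩ := TH1.local_const hg hw h0 (p := (x : E)) x.2
    have : ∀ᶠ y : E in 𝓝 (x : E), y ∈ Metric.ball (x : E) ρ := Metric.ball_mem_nhds _ hρ
    have h2 := (continuous_subtype_val (p := fun y => y ∈ Sg g)).continuousAt.eventually this
    filter_upwards [h2] with y hy
    exact h y hy y.2
  obtain ⟨x0, hx0⟩ := hg.ne
  exact ⟨w x0, fun x hx => hloc.apply_eq_of_preconnectedSpace ⟨x, hx⟩ ⟨x0, hx0⟩⟩

end Pool.Agent.H934R3.NP
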