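import Pool.Agent.H934R3.NP.Stmts2

set_option autoImplicit false

open MeasureTheory Set Filter Topology
open scoped ENNReal NNReal

namespace Pool.Agent.H934R3.NP.TM1

open Pool.Agent.H934R3.NP

theorem Sg_closed {g : E → ℝ} (hg : Surf g) : IsClosed (Sg g) :=
  isClosed_eq hg.smooth.continuous continuous_const

theorem Sg_compact {g : E → ℝ} (hg : Surf g) : IsCompact (Sg g) := by
  obtain ⟨R, hR⟩ := hg.pos
  refine (isCompact_closedBall (0 : E) R).of_isClosed_subset (Sg_closed hg) fun x hx => ?_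
  rw [mem_closedBall_zero_iff]
  by_contra h
  push Not at h
  have := hR x h.le
  have h2 : g x = 0 := hx
  linarith

theorem sig_compl {g : E → ℝ} (hg : Surf g) : (sig g) (Sg g)ᶜ = 0 := by
  unfold sig
  rw [Measure.smul_apply, show {x | g x = 0} = Sg g from rfl,
    Measure.restrict_apply (Sg_closed hg).measurableSet.compl, compl_inter_self, measure_empty,
    smul_zero]

theorem ae_Sg {g : E → ℝ} (hg : Surf g) : ∀ᵐ x ∂(sig g), x ∈ Sg g := by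
  rw [ae_iff]
  exact sig_compl hg

theorem cont_grad {g : E → ℝ} (hg : Surf g) : Continuous (gradient g) := by
  have h1 : Continuous (fderiv ℝ g) := hg.smooth.continuous_fderiv (by simp)
  unfold gradient
  exact (InnerProductSpace.toDual ℝ E).symm.continuous.comp h1

theorem meas_G : Measurable (fun p : E × E => G (p.1 - p.2)) := by
  unfold G
  fun_prop

theorem ks_eq (g : E → ℝ) (x y : E) :
    ks g x y = (1 / (4 * Real.pi)) * (inner ℝ (x - y) (nu g x) / ‖x - y‖ ^ 3) := by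
  unfold ks nu
  rw [inner_smul_right]
  congr 1
  rw [div_mul_eq_div_div, inv_mul_eq_div]

/-- truncated kernel -/
noncomputable def kd (g : E → ℝ) (d : ℝ) (x y : E) : ℝ :=
  (1 / (4 * Real.pi)) * (inner ℝ (x - y) (nu g x) / (max ‖x - y‖ d) ^ 3)

theorem meas_nu {g : E → ℝ} (hg : Surf g) : Measurable (nu g) := by
  have h := (cont_grad hg).measurable
  unfold nu
  fun_prop

theorem meas_ks {g : E → ℝ} (hg : Surf g) : Measurable (Function.uncurry (ks g)) := by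
  have h := meas_nu hg
  have : Function.uncurry (ks g) = fun p : E × E =>
      (1 / (4 * Real.pi)) * (inner ℝ (p.1 - p.2) (nu g p.1) / ‖p.1 - p.2‖ ^ 3) := by
    funext p
    exact ks_eq g p.1 p.2
  rw [this]
  fun_prop

theorem meas_ks' {g : E → ℝ} (hg : Surf g) : Measurable (Function.uncurry fun x y => ks g y x) := by
  have h := meas_nu hg
  have : (Function.uncurry fun x y => ks g y x) = fun p : E × E =>
      (1 / (4 * Real.pi)) * (inner ℝ (p.2 - p.1) (nu g p.2) / ‖p.2 - p.1‖ ^ 3) := by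
    funext p
    exact ks_eq g p.2 p.1
  rw [this]
  fun_prop

theorem meas_kd {g : E → ℝ} (hg : Surf g) (d : ℝ) : Measurable (Function.uncurry (kd g d)) := by
  have h := meas_nu hg
  have : Function.uncurry (kd g d) = fun p : E × E =>
      (1 / (4 * Real.pi)) * (inner ℝ (p.1 - p.2) (nu g p.1) / (max ‖p.1 - p.2‖ d) ^ 3) := rfl
  rw [this]
  fun_prop

theorem cont_kd {g : E → ℝ} (hg : Surf g) {d : ℝ} (hd : 0 < d) :
    ContinuousOn (Function.uncurry (kd g d)) (Sg g ×ˢ Sg g) := by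
  have h1 : ContinuousOn (fun p : E × E => nu g p.1) (Sg g ×ˢ Sg g) := by
    unfold nu
    have h2 : ContinuousOn (fun p : E × E => gradient g p.1) (Sg g ×ˢ Sg g) :=
      ((cont_grad hg).comp continuous_fst).continuousOn
    refine ContinuousOn.smul (ContinuousOn.inv₀ h2.norm fun p hp => ?_) h2
    exact norm_ne_zero_iff.2 (hg.reg _ hp.1)
  have : Function.uncurry (kd g d) = fun p : E × E =>
      (1 / (4 * Real.pi)) * (inner ℝ (p.1 - p.2) (nu g p.1) / (max ‖p.1 - p.2‖ d) ^ 3) := rfl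
  rw [this]
  refine continuousOn_const.mul (ContinuousOn.div ?_ ?_ ?_)
  · exact ContinuousOn.inner
      (by fun_prop : ContinuousOn (fun p : E × E => p.1 - p.2) (Sg g ×ˢ Sg g)) h1
  · fun_prop
  · intro p _
    have : 0 < max ‖p.1 - p.2‖ d := lt_max_of_lt_right hd
    positivity

theorem inv_le {r : ℝ} (hr : 0 ≤ r) : 1 / r ≤ 1 + r ^ (-(3 / 2) : ℝ) := by
  rcases hr.eq_or_lt with rfl | hr
  · rw [Real.zero_rpow (by norm_num)]; norm_num
  · have h0 : 0 < r ^ (-(3 / 2) : ℝ) := Real.rpow_pos_of_pos hr _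
    rcases le_or_gt 1 r with h | h
    · have : 1 / r ≤ 1 := by rw [div_le_one hr]; exact h
      linarith
    · have : 1 / r ≤ r ^ (-(3 / 2) : ℝ) := by
        rw [one_div, ← Real.rpow_neg_one]
        exact Real.rpow_le_rpow_of_exponent_ge hr h.le (by norm_num)
      linarith

theorem inv_le_d {r d : ℝ} (hr : 0 ≤ r) (hrd : r ≤ d) :
    1 / r ≤ d ^ (1 / 2 : ℝ) * r ^ (-(3 / 2) : ℝ) := by
  rcases hr.eq_or_lt with rfl | hr
  · rw [Real.zero_rpow (by norm_num)]; norm_num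
  · have h1 : r ^ (1 / 2 : ℝ) ≤ d ^ (1 / 2 : ℝ) := Real.rpow_le_rpow hr.le hrd (by norm_num)
    have h2 : 1 / r = r ^ (1 / 2 : ℝ) * r ^ (-(3 / 2) : ℝ) := by
      rw [← Real.rpow_add hr, one_div, ← Real.rpow_neg_one]
      norm_num
    rw [h2]
    exact mul_le_mul_of_nonneg_right h1 (Real.rpow_nonneg hr.le _)

/-- Schur bound for a kernel bounded by `A r^(-3/2) + B` on the surface -/
theorem schur {g : E → ℝ} (hg : Surf g) (hfin : IsFiniteMeasure (sig g)) {C : ℝ} (hC : 0 ≤ C)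
    (hb : ∀ x : E, ∫⁻ y, ENNReal.ofReal (‖x - y‖ ^ (-(3 / 2) : ℝ)) ∂(sig g) ≤ ENNReal.ofReal C)
    {A B : ℝ} (hA : 0 ≤ A) (hB : 0 ≤ B) {k : E → E → ℝ}
    (hk : ∀ x ∈ Sg g, ∀ y ∈ Sg g, |k x y| ≤ A * ‖x - y‖ ^ (-(3 / 2) : ℝ) + B) :
    ∀ᵐ x ∂(sig g), ∫⁻ y, ENNReal.ofReal |k x y| ∂(sig g) ≤
      ENNReal.ofReal (A * C + B * ((sig g) univ).toReal) := by
  filter_upwards [ae_Sg hg] with x hx
  calc ∫⁻ y, ENNReal.ofReal |k x y| ∂(sig g)
      ≤ ∫⁻ y, (ENNReal.ofReal A * ENNReal.ofReal (‖x - y‖ ^ (-(3 / 2) : ℝ)) + ENNReal.ofReal B)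
          ∂(sig g) := by
        refine lintegral_mono_ae ?_
        filter_upwards [ae_Sg hg] with y hy
        rw [← ENNReal.ofReal_mul hA, ← ENNReal.ofReal_add
          (mul_nonneg hA (Real.rpow_nonneg (norm_nonneg _) _)) hB]
        exact ENNReal.ofReal_le_ofReal (hk x hx y hy)
    _ = ENNReal.ofReal A * ∫⁻ y, ENNReal.ofReal (‖x - y‖ ^ (-(3 / 2) : ℝ)) ∂(sig g) +
          ENNReal.ofReal B * (sig g) univ := by
        rw [lintegral_add_right _ measurable_const, lintegral_const_mul _ (by fun_prop),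
          lintegral_const]
    _ ≤ ENNReal.ofReal A * ENNReal.ofReal C + ENNReal.ofReal B * (sig g) univ := by
        gcongr
        exact hb x
    _ = ENNReal.ofReal (A * C + B * ((sig g) univ).toReal) := by
        rw [ENNReal.ofReal_add (by positivity) (by positivity), ENNReal.ofReal_mul hA,
          ENNReal.ofReal_mul hB, ENNReal.ofReal_toReal (measure_ne_top _ _)]

theorem kd_diff {g : E → ℝ} {C d : ℝ} (hC : 0 ≤ C) (hd : 0 < d)
    (hk : ∀ x ∈ Sg g, ∀ y ∈ Sg g, |ks g x y| ≤ C / ‖x - y‖) {x y : E} (hx : x ∈ Sg g)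
    (hy : y ∈ Sg g) : |ks g x y - kd g d x y| ≤
      (C * d ^ (1 / 2 : ℝ)) * ‖x - y‖ ^ (-(3 / 2) : ℝ) + 0 := by
  have h0 : 0 ≤ (C * d ^ (1 / 2 : ℝ)) * ‖x - y‖ ^ (-(3 / 2) : ℝ) := by positivity
  rw [add_zero]
  rcases le_or_gt d ‖x - y‖ with h | h
  · have : kd g d x y = ks g x y := by
      rw [ks_eq]; unfold kd; rw [max_eq_left h]
    rw [this, sub_self, abs_zero]
    exact h0
  · have h1 : kd g d x y = ks g x y * (‖x - y‖ / d) ^ 3 := by
      rw [ks_eq]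
      unfold kd
      rw [max_eq_right h.le]
      rcases (norm_nonneg (x - y)).eq_or_lt with h2 | h2
      · have h3 : x - y = 0 := norm_eq_zero.1 h2.symm
        rw [h3]; simp
      · field_simp
    have h2 : 0 ≤ (‖x - y‖ / d) ^ 3 := by positivity
    have h3 : (‖x - y‖ / d) ^ 3 ≤ 1 := by
      apply pow_le_one₀ (by positivity)
      rw [div_le_one hd]
      exact h.le
    have h4 : |ks g x y - kd g d x y| ≤ |ks g x y| := by
      rw [h1, show ks g x y - ks g x y * (‖x - y‖ / d) ^ 3 = ks g x y * (1 - (‖x - y‖ / d) ^ 3) by ring,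
        abs_mul, abs_of_nonneg (by linarith : 0 ≤ 1 - (‖x - y‖ / d) ^ 3)]
      nlinarith [abs_nonneg (ks g x y)]
    refine h4.trans ((hk x hx y hy).trans ?_)
    have h5 := inv_le_d (norm_nonneg (x - y)) h.le
    calc C / ‖x - y‖ = C * (1 / ‖x - y‖) := by ring
      _ ≤ C * (d ^ (1 / 2 : ℝ) * ‖x - y‖ ^ (-(3 / 2) : ℝ)) := mul_le_mul_of_nonneg_left h5 hC
      _ = _ := by ring

theorem kd_bd {g : E → ℝ} {C d : ℝ} (hC : 0 ≤ C) (hd : 0 < d)
    (hk : ∀ x ∈ Sg g, ∀ y ∈ Sg g, |ks g x y| ≤ C / ‖x - y‖) {x y : E} (hx : x ∈ Sg g)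
    (hy : y ∈ Sg g) : |kd g d x y| ≤ (C + C * d ^ (1 / 2 : ℝ)) * ‖x - y‖ ^ (-(3 / 2) : ℝ) + C := by
  have h1 := kd_diff hC hd hk hx hy
  have h2 := hk x hx y hy
  have h3 := inv_le (norm_nonneg (x - y))
  have h4 : C / ‖x - y‖ ≤ C * (1 + ‖x - y‖ ^ (-(3 / 2) : ℝ)) := by
    calc C / ‖x - y‖ = C * (1 / ‖x - y‖) := by ring
      _ ≤ _ := mul_le_mul_of_nonneg_left h3 hC
  have h5 : |kd g d x y| ≤ |ks g x y| + |ks g x y - kd g d x y| := by
    have := abs_sub_abs_le_abs_sub (kd g d x y) (ks g x y)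
    rw [abs_sub_comm] at this
    linarith
  linarith


theorem hGb {x y : E} : |G (x - y)| ≤ 1 * ‖x - y‖ ^ (-(3 / 2) : ℝ) + 1 := by
  unfold G
  have h1 := inv_le (norm_nonneg (x - y))
  have h2 : (0 : ℝ) ≤ 1 / (4 * Real.pi * ‖x - y‖) := by positivity
  rw [abs_of_nonneg h2]
  have h3 : 1 / (4 * Real.pi * ‖x - y‖) ≤ 1 / ‖x - y‖ := by
    rw [← one_div_mul_one_div]
    have h4 : 1 / (4 * Real.pi) ≤ 1 := by
      rw [div_le_one (by positivity)]
      linarith [Real.pi_gt_three]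
    have h5 : 0 ≤ 1 / ‖x - y‖ := by positivity
    nlinarith
  linarith

theorem hGb' {x y : E} : |G (y - x)| ≤ 1 * ‖x - y‖ ^ (-(3 / 2) : ℝ) + 1 := by
  rw [norm_sub_rev]
  exact hGb

theorem exS (C1 : TaskC1) (C2 : TaskC2) {g : E → ℝ} (hg : Surf g) (hfin : IsFiniteMeasure (sig g))
    {C : ℝ} (hC : 0 < C)
    (hb : ∀ x : E, ∫⁻ y, ENNReal.ofReal (‖x - y‖ ^ (-(3 / 2) : ℝ)) ∂(sig g) ≤ ENNReal.ofReal C) :
    ∃ S : Lp ℝ 2 (sig g) →L[ℝ] Lp ℝ 2 (sig g), Rep (sig g) (fun x y => G (x - y)) S ∧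
      ∀ φ ψ : Lp ℝ 2 (sig g), inner ℝ φ (S ψ) = inner ℝ (S φ) ψ := by
  have hD0 : 0 ≤ 1 * C + 1 * ((sig g) univ).toReal := by positivity
  have s1 := schur hg hfin hC.le hb zero_le_one zero_le_one (k := fun x y => G (x - y))
    (fun x _ y _ => hGb)
  have s2 := schur hg hfin hC.le hb zero_le_one zero_le_one (k := fun x y => G (y - x))
    (fun x _ y _ => hGb')
  obtain ⟨S, hS, -, -⟩ := C1 (sig g) hfin (fun x y => G (x - y)) _ hD0 meas_G s1 s2
  refine ⟨S, hS, fun φ ψ => ?_⟩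
  have hS' : Rep (sig g) (fun x y : E => G (y - x)) S := by
    have : (fun x y : E => G (y - x)) = fun x y => G (x - y) := by
      funext x y
      unfold G
      rw [norm_sub_rev]
    rw [this]
    exact hS
  exact C2 (sig g) hfin (fun x y => G (x - y)) _ hD0 meas_G s1 s2 S S hS hS' ψ φ

theorem hkb {g : E → ℝ} {C : ℝ} (hC : 0 < C)
    (hk : ∀ x ∈ Sg g, ∀ y ∈ Sg g, |ks g x y| ≤ C / ‖x - y‖) :
    ∀ x ∈ Sg g, ∀ y ∈ Sg g, |ks g x y| ≤ C * ‖x - y‖ ^ (-(3 / 2) : ℝ) + C := by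
  intro x hx y hy
  have h3 := inv_le (norm_nonneg (x - y))
  have h4 : C / ‖x - y‖ ≤ C * (1 + ‖x - y‖ ^ (-(3 / 2) : ℝ)) := by
    calc C / ‖x - y‖ = C * (1 / ‖x - y‖) := by ring
      _ ≤ _ := mul_le_mul_of_nonneg_left h3 hC.le
  linarith [hk x hx y hy]

theorem hkb' {g : E → ℝ} {C : ℝ} (hC : 0 < C)
    (hk : ∀ x ∈ Sg g, ∀ y ∈ Sg g, |ks g x y| ≤ C / ‖x - y‖) :
    ∀ x ∈ Sg g, ∀ y ∈ Sg g, |ks g y x| ≤ C * ‖x - y‖ ^ (-(3 / 2) : ℝ) + C := by
  intro x hx y hy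
  rw [norm_sub_rev]
  exact hkb hC hk y hy x hx

theorem exK (C1 : TaskC1) (C2 : TaskC2) {g : E → ℝ} (hg : Surf g) (hfin : IsFiniteMeasure (sig g))
    {C : ℝ} (hC : 0 < C)
    (hb : ∀ x : E, ∫⁻ y, ENNReal.ofReal (‖x - y‖ ^ (-(3 / 2) : ℝ)) ∂(sig g) ≤ ENNReal.ofReal C)
    (hk : ∀ x ∈ Sg g, ∀ y ∈ Sg g, |ks g x y| ≤ C / ‖x - y‖) :
    ∃ Ks K : Lp ℝ 2 (sig g) →L[ℝ] Lp ℝ 2 (sig g), Rep (sig g) (ks g) Ks ∧
      Rep (sig g) (fun x y => ks g y x) K ∧
      (∀ φ : Lp ℝ 2 (sig g), ∀ᵐ x ∂(sig g), Integrable (fun y => ks g x y * φ y) (sig g)) ∧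
      ∀ φ ψ : Lp ℝ 2 (sig g), inner ℝ ψ (Ks φ) = inner ℝ (K ψ) φ := by
  have hD1 : 0 ≤ C * C + C * ((sig g) univ).toReal := by
    have := hC.le
    exact add_nonneg (mul_nonneg this this) (mul_nonneg this ENNReal.toReal_nonneg)
  have s1 := schur hg hfin hC.le hb hC.le hC.le (hkb hC hk)
  have s2 := schur hg hfin hC.le hb hC.le hC.le (k := fun x y => ks g y x) (hkb' hC hk)
  obtain ⟨Ks, hKs, -, hKsi⟩ := C1 (sig g) hfin (ks g) _ hD1 (meas_ks hg) s1 s2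
  have hms : Measurable (Function.uncurry fun x y => ks g y x) := meas_ks' hg
  obtain ⟨K, hK, -, -⟩ := C1 (sig g) hfin (fun x y => ks g y x) _ hD1 hms s2 s1
  exact ⟨Ks, K, hKs, hK, hKsi, fun φ ψ =>
    C2 (sig g) hfin (ks g) _ hD1 (meas_ks hg) s1 s2 Ks K hKs hK φ ψ⟩

theorem exT (C1 : TaskC1) (C3 : TaskC3) {g : E → ℝ} (hg : Surf g) (hfin : IsFiniteMeasure (sig g))
    {C : ℝ} (hC : 0 < C)
    (hb : ∀ x : E, ∫⁻ y, ENNReal.ofReal (‖x - y‖ ^ (-(3 / 2) : ℝ)) ∂(sig g) ≤ ENNReal.ofReal C)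
    (hk : ∀ x ∈ Sg g, ∀ y ∈ Sg g, |ks g x y| ≤ C / ‖x - y‖)
    (Ks : Lp ℝ 2 (sig g) →L[ℝ] Lp ℝ 2 (sig g)) (hKs : Rep (sig g) (ks g) Ks)
    (hKsi : ∀ φ : Lp ℝ 2 (sig g), ∀ᵐ x ∂(sig g), Integrable (fun y => ks g x y * φ y) (sig g))
    (d : ℝ) (hd : 0 < d) : ∃ T : Lp ℝ 2 (sig g) →L[ℝ] Lp ℝ 2 (sig g), IsCompactOperator T ∧
        ‖T - Ks‖ ≤ C * d ^ (1 / 2 : ℝ) * C := by
  have hA : 0 ≤ C + C * d ^ (1 / 2 : ℝ) := by positivity
  have t1 := schur hg hfin hC.le hb hA hC.le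
    (k := kd g d) fun x hx y hy => kd_bd hC.le hd hk hx hy
  have t2 := schur hg hfin hC.le hb hA hC.le
    (k := fun x y => kd g d y x) fun x hx y hy => by
      have := kd_bd hC.le hd hk hy hx
      rwa [norm_sub_rev] at this
  obtain ⟨T, hT, -, hTi⟩ := C1 (sig g) hfin (kd g d) _
    (by positivity : 0 ≤ (C + C * d ^ (1 / 2 : ℝ)) * C + C * ((sig g) univ).toReal)
    (meas_kd hg d) t1 t2
  have hA' : 0 ≤ C * d ^ (1 / 2 : ℝ) := by positivity
  have r1 := schur hg hfin hC.le hb hA' le_rfl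
    (k := fun x y => ks g x y - kd g d x y) fun x hx y hy => kd_diff hC.le hd hk hx hy
  have r2 := schur hg hfin hC.le hb hA' le_rfl
    (k := fun x y => ks g y x - kd g d y x) fun x hx y hy => by
      have := kd_diff hC.le hd hk hy hx
      rwa [norm_sub_rev] at this
  have hm : Measurable (Function.uncurry fun x y => ks g x y - kd g d x y) :=
    (meas_ks hg).sub (meas_kd hg d)
  obtain ⟨D, hD, hDn, -⟩ := C1 (sig g) hfin (fun x y => ks g x y - kd g d x y) _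
    (by positivity : 0 ≤ C * d ^ (1 / 2 : ℝ) * C + 0 * ((sig g) univ).toReal)
    hm r1 r2
  have hDe : D = Ks - T := by
    ext1 φ
    apply Lp.ext
    have e1 : (Ks - T) φ = Ks φ - T φ := rfl
    rw [e1]
    filter_upwards [hD φ, hKs φ, hT φ, hKsi φ, hTi φ, Lp.coeFn_sub (Ks φ) (T φ)]
      with x h1 h2 h3 h4 h5 h6
    rw [h1, h6, Pi.sub_apply, h2, h3, ← integral_sub h4 h5]
    refine integral_congr_ae (Eventually.of_forall fun y => ?_)
    simp only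
    ring
  refine ⟨T, C3 (sig g) hfin (Sg g) (Sg_compact hg) (sig_compl hg) (kd g d) (cont_kd hg hd) T hT,
    ?_⟩
  rw [norm_sub_rev, ← hDe]
  rwa [zero_mul, add_zero] at hDn

theorem compactKs (C1 : TaskC1) (C3 : TaskC3) {g : E → ℝ} (hg : Surf g)
    (hfin : IsFiniteMeasure (sig g)) {C : ℝ} (hC : 0 < C)
    (hb : ∀ x : E, ∫⁻ y, ENNReal.ofReal (‖x - y‖ ^ (-(3 / 2) : ℝ)) ∂(sig g) ≤ ENNReal.ofReal C)
    (hk : ∀ x ∈ Sg g, ∀ y ∈ Sg g, |ks g x y| ≤ C / ‖x - y‖)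
    (Ks : Lp ℝ 2 (sig g) →L[ℝ] Lp ℝ 2 (sig g)) (hKs : Rep (sig g) (ks g) Ks)
    (hKsi : ∀ φ : Lp ℝ 2 (sig g), ∀ᵐ x ∂(sig g), Integrable (fun y => ks g x y * φ y) (sig g)) :
    IsCompactOperator Ks := by
  choose! T hTc hTn using exT C1 C3 hg hfin hC hb hk Ks hKs hKsi
  have hlim : Tendsto (fun n : ℕ => T (1 / ((n : ℝ) + 1))) atTop (𝓝 Ks) := by
    rw [tendsto_iff_norm_sub_tendsto_zero]
    have h1 : Tendsto (fun n : ℕ => C * (1 / ((n : ℝ) + 1)) ^ (1 / 2 : ℝ) * C) atTop (𝓝 0) := by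
      have h2 : Tendsto (fun n : ℕ => (1 / ((n : ℝ) + 1)) ^ (1 / 2 : ℝ)) atTop (𝓝 0) := by
        have := (tendsto_one_div_add_atTop_nhds_zero_nat (𝕜 := ℝ)).rpow_const
          (p := (1 / 2 : ℝ)) (Or.inr (by norm_num))
        rwa [Real.zero_rpow (by norm_num)] at this
      have := (h2.const_mul C).mul_const C
      simpa using this
    refine squeeze_zero (fun n => norm_nonneg _) (fun n => ?_) h1
    exact hTn _ (by positivity)
  exact isCompactOperator_of_tendsto hlim (Eventually.of_forall fun n => hTc _ (by positivity))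

end Pool.Agent.H934R3.NP.TM1

namespace Pool.Agent.H934R3.NP

open TM1 in
theorem taskM1 : TaskM1 := by
  intro C1 C2 C3 g hg hbd
  obtain ⟨hfin, C, hC, hb, hk⟩ := hbd
  obtain ⟨S, hS, hSs⟩ := exS C1 C2 hg hfin hC hb
  obtain ⟨Ks, K, hKs, hK, hKsi, hadj⟩ := exK C1 C2 hg hfin hC hb hk
  exact ⟨S, Ks, K, ⟨hS, hKs, hK, hSs, hadj, compactKs C1 C3 hg hfin hC hb hk Ks hKs hKsi⟩⟩

end Pool.Agent.H934R3.NP
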