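import Pool.Agent.H934R3.NP.Stmts2
import Pool.Agent.H722R5.NPH3
import Pool.Agent.Helper843.SphA

set_option autoImplicit false
set_option maxHeartbeats 4000000

open MeasureTheory Set Filter Topology
open scoped ENNReal NNReal

namespace Pool.Agent.H934R3.NP

namespace M2x

open H3x

lemma Sg_gs : Sg (gs 0 1) = Metric.sphere (0 : E) 1 := by
  ext z
  show gs 0 1 z = 0 ↔ _
  rw [gs_zero_iff 0 1 one_pos]
  simp

lemma Om_gs : Om (gs 0 1) = Metric.ball (0 : E) 1 := by
  ext z
  show gs 0 1 z < 0 ↔ _
  unfold gs
  rw [mem_ball_zero_iff, sub_zero, one_pow, sub_neg]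
  constructor
  · intro h
    nlinarith [norm_nonneg z]
  · intro h
    nlinarith [norm_nonneg z]

lemma Sp_eq : Metric.sphere (0 : E) 1 = Pool.Agent.Helper843.SphA.Sp := by
  ext z
  simp [Pool.Agent.Helper843.SphA.Sp]

lemma nu_gs (y : E) (hy : y ∈ Metric.sphere (0 : E) 1) : nu (gs 0 1) y = y := by
  have h1 : ‖y‖ = 1 := by simpa using hy
  unfold nu
  rw [gs_gradient, sub_zero, norm_smul, h1, smul_smul]
  norm_num

theorem t : TaskM2 := by
  rintro ⟨c, hc, h⟩
  have hfin : Measure.hausdorffMeasure 2 (Metric.sphere (0 : E) 1) < ⊤ := by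
    rw [Sp_eq]; exact Pool.Agent.Helper843.SphA.muSp_lt_top
  have hpos : 0 < Measure.hausdorffMeasure 2 (Metric.sphere (0 : E) 1) := by
    rw [Sp_eq]; exact Pool.Agent.Helper843.SphA.muSp_pos
  set s : ℝ := (Measure.hausdorffMeasure 2 (Metric.sphere (0 : E) 1)).toReal with hs
  have hs0 : 0 < s := ENNReal.toReal_pos hpos.ne' hfin.ne
  have key : 4 * Real.pi = c * s := by
    have hi : ∀ i : Fin 3, (4 / 3 * Real.pi : ℝ) =
        c * ∫ y in Metric.sphere (0 : E) 1, (y i) ^ 2 ∂(Measure.hausdorffMeasure 2) := by
      intro i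
      have h1 := h (gs 0 1) (gs_surf 0 1 one_pos) (fun y => y i)
        ((EuclideanSpace.proj i : E →L[ℝ] ℝ).contDiff) (EE i)
      have h2 : ∀ z : E, fderiv ℝ (fun y : E => y i) z (EE i) = 1 := by
        intro z
        have : fderiv ℝ (fun y : E => y i) z = (EuclideanSpace.proj i : E →L[ℝ] ℝ) :=
          (EuclideanSpace.proj i : E →L[ℝ] ℝ).fderiv
        rw [this]
        simp [EE]
      simp only [h2] at h1
      rw [Om_gs, Sg_gs, setIntegral_const, smul_eq_mul, mul_one] at h1
      have h3 : (volume : Measure E).real (Metric.ball (0 : E) 1) = 4 / 3 * Real.pi := by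
        rw [Measure.real, EuclideanSpace.volume_ball_fin_three, ENNReal.ofReal_one, one_pow, one_mul,
          ENNReal.toReal_ofReal (by positivity)]
        ring
      rw [h3] at h1
      rw [h1]
      congr 1
      apply setIntegral_congr_fun Metric.isClosed_sphere.measurableSet
      intro y hy
      simp only
      rw [nu_gs y hy]
      simp [EE, EuclideanSpace.inner_single_right]
      ring
    have hint : ∀ i : Fin 3, IntegrableOn (fun y : E => (y i) ^ 2) (Metric.sphere (0 : E) 1)
        (Measure.hausdorffMeasure 2) := by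
      intro i
      apply Measure.integrableOn_of_bounded (M := 1) hfin.ne
      · have : Continuous (fun y : E => (y i) ^ 2) :=
          ((EuclideanSpace.proj i : E →L[ℝ] ℝ).continuous).pow 2
        exact this.aestronglyMeasurable
      · rw [ae_restrict_iff' Metric.isClosed_sphere.measurableSet]
        refine Eventually.of_forall (fun y hy => ?_)
        have h1 : ‖y‖ = 1 := by simpa using hy
        have h2 : |y i| ≤ 1 := by
          rw [← h1, ← Real.norm_eq_abs]
          exact PiLp.norm_apply_le y i
        rw [Real.norm_of_nonneg (sq_nonneg _)]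
        have := sq_abs (y i)
        nlinarith [abs_nonneg (y i)]
    have hsum : ∑ i : Fin 3, ∫ y in Metric.sphere (0 : E) 1, (y i) ^ 2 ∂(Measure.hausdorffMeasure 2)
        = s := by
      rw [← integral_finset_sum _ (fun i _ => hint i)]
      have h4 : ∫ y in Metric.sphere (0 : E) 1, ∑ i : Fin 3, (y i) ^ 2
          ∂(Measure.hausdorffMeasure 2) =
          ∫ _y in Metric.sphere (0 : E) 1, (1 : ℝ) ∂(Measure.hausdorffMeasure 2) := by
        apply setIntegral_congr_fun Metric.isClosed_sphere.measurableSet
        intro y hy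
        have h1 : ‖y‖ = 1 := by simpa using hy
        have h5 := EuclideanSpace.norm_sq_eq y
        rw [h1] at h5
        simp only [Real.norm_eq_abs, sq_abs, one_pow] at h5
        simp only
        linarith
      rw [h4, setIntegral_const, smul_eq_mul, mul_one]
      rfl
    have h6 : ∑ _i : Fin 3, (4 / 3 * Real.pi : ℝ) = c * s := by
      rw [← hsum, Finset.mul_sum]
      exact Finset.sum_congr rfl (fun i _ => hi i)
    rw [Finset.sum_const, Finset.card_univ, Fintype.card_fin] at h6
    rw [← h6]
    simp
    ring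
  intro g hg F hF v
  rw [h g hg F hF v]
  have hcoef : ENNReal.ofReal (4 * Real.pi) / Measure.hausdorffMeasure 2 (Metric.sphere (0 : E) 1)
      = ENNReal.ofReal c := by
    have h7 : Measure.hausdorffMeasure 2 (Metric.sphere (0 : E) 1) = ENNReal.ofReal s := by
      rw [hs, ENNReal.ofReal_toReal hfin.ne]
    rw [h7, ← ENNReal.ofReal_div_of_pos hs0, key]
    congr 1
    field_simp
  unfold sig
  rw [hcoef, integral_smul_measure, ENNReal.toReal_ofReal hc.le, smul_eq_mul]
  rfl

end M2x

theorem taskM2 : TaskM2 := M2x.t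

end Pool.Agent.H934R3.NP
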